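import Pool.Agent.H95.AS.Bias

/-!
# [H95 AT Bias2] An uneven interval gives a large exponential sum (polynomial dependence)

Proof (Fejer kernel on a grid). `V x j = ‖∑_{i<q} ee (i (z x/m - u/m - j/q))‖²`, `q = 128 L³`;
`∑_{j<q} V x j = q²`; `V x j ≤ 16 L²` if `x` is outside the interval `I` and `j` in
`J = [16 L², q w/m - 16 L²]`; `∑_x V x j ≥ q |X| (1 - 1/(16 L))` if all
`‖∑_x ee (a z x/m)‖ < |X|/(2048 L⁴)`, `1 ≤ a ≤ 2048 L⁴`. So
`|J| q |X| (1 - 1/(16 L)) ≤ q² #I + 16 L² |X| |J|`, hence `#I > (w/m - 1/L)|X|`. Too many `x` in `I`: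
apply this to the complement, the interval `[u + w, u + m)`. `C = 2048`, `e = 4`.
-/

set_option autoImplicit false

open scoped Classical

namespace Pool.Agent.H95.AT

open Finset Pool.Agent.H24.AB Pool.Agent.H95.AS

private theorem b2_pow (n : ℕ) (θ : ℝ) : ee (n * θ) = ee θ ^ n := by
  unfold ee
  rw [← Complex.exp_nat_mul]
  congr 1
  push_cast
  ring

/-- away from the integers -/
private theorem b2_sub {κ s : ℝ} (hκ : 0 < κ) (h1 : κ / 2 ≤ s) (h2 : s ≤ 1 - κ / 2) :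
    2 * κ ≤ ‖ee s - 1‖ := by
  have hpi := Real.pi_pos
  have e : ee s = Complex.exp (Complex.I * ((2 * Real.pi * s : ℝ) : ℂ)) := by
    unfold ee
    congr 1
    push_cast
    ring
  rw [e, Complex.norm_exp_I_mul_ofReal_sub_one]
  have e2 : 2 * Real.pi * s / 2 = Real.pi * s := by ring
  rw [e2, Real.norm_eq_abs]
  refine le_trans ?_ (le_abs_self _)
  have key : ∀ x : ℝ, κ / 2 ≤ x → x ≤ 1 / 2 → κ ≤ Real.sin (Real.pi * x) := by
    intro x hx1 hx2
    have := Real.mul_le_sin (x := Real.pi * x) (mul_nonneg hpi.le (by linarith)) (by nlinarith)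
    have e3 : 2 / Real.pi * (Real.pi * x) = 2 * x := by field_simp
    rw [e3] at this
    linarith
  rcases le_total s (1 / 2) with h | h
  · have := key s h1 h
    linarith
  · have := key (1 - s) (by linarith) (by linarith)
    have e3 : Real.sin (Real.pi * (1 - s)) = Real.sin (Real.pi * s) := by
      rw [mul_sub, mul_one, Real.sin_pi_sub]
    rw [e3] at this
    linarith

/-- the geometric sum is small -/
private theorem b2_geom {κ s : ℝ} (hκ : 0 < κ) (h : 2 * κ ≤ ‖ee s - 1‖) (n : ℕ) :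
    ‖∑ j ∈ range n, ee (j * s)‖ ≤ 1 / κ := by
  have h1 : (∑ j ∈ range n, ee (j * s)) * (ee s - 1) = ee s ^ n - 1 := by
    rw [← geom_sum_mul]
    congr 1
    exact Finset.sum_congr rfl fun j _ => b2_pow j s
  have h2 : ‖ee s ^ n - 1‖ ≤ 2 := by
    refine (norm_sub_le _ _).trans ?_
    rw [norm_pow, ee_norm, one_pow, norm_one]
    norm_num
  rw [← h1, norm_mul] at h2
  rw [le_div_iff₀ hκ]
  nlinarith [norm_nonneg (∑ j ∈ range n, ee (j * s))]

private theorem b2_expand (n : ℕ) (s : ℝ) : ((‖∑ i ∈ range n, ee (i * s)‖ ^ 2 : ℝ) : ℂ) =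
    ∑ i ∈ range n, ∑ j ∈ range n, ee (((i : ℝ) - j) * s) := by
  rw [Complex.ofReal_pow, ← Complex.conj_mul', map_sum, Finset.sum_mul_sum, Finset.sum_comm]
  refine Finset.sum_congr rfl fun i _ => Finset.sum_congr rfl fun j _ => ?_
  rw [ee_conj, ← ee_add]
  congr 1
  ring

private theorem b2_neg (X : Finset ℕ) (s : ℕ → ℝ) (k : ℝ) :
    ‖∑ x ∈ X, ee (-k * s x)‖ = ‖∑ x ∈ X, ee (k * s x)‖ := by
  have : ∑ x ∈ X, ee (-k * s x) = (starRingEnd ℂ) (∑ x ∈ X, ee (k * s x)) := by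
    rw [map_sum]
    refine Finset.sum_congr rfl fun x _ => ?_
    rw [ee_conj]
    congr 1
    ring
  rw [this, Complex.norm_conj]

private theorem b2_sum (X : Finset ℕ) (s : ℕ → ℝ) (n : ℕ) (hn : 1 ≤ n) (c : ℝ)
    (hc : ∀ k : ℕ, 1 ≤ k → k < n → ‖∑ x ∈ X, ee (k * s x)‖ ≤ c) :
    |∑ x ∈ X, ‖∑ i ∈ range n, ee (i * s x)‖ ^ 2 - n * X.card| ≤ n * ((n - 1) * c) := by
  have hoff : ∀ i ∈ range n, ∀ j ∈ (range n).erase i,
      ‖∑ x ∈ X, ee (((i : ℝ) - j) * s x)‖ ≤ c := by
    intro i hi j hj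
    rw [Finset.mem_erase, Finset.mem_range] at hj
    rw [Finset.mem_range] at hi
    rcases lt_or_gt_of_ne hj.1 with h | h
    · have e : ((i : ℝ) - j) = ((i - j : ℕ) : ℝ) := by rw [Nat.cast_sub h.le]
      rw [e]
      exact hc (i - j) (by omega) (by omega)
    · have e : ((i : ℝ) - j) = -((j - i : ℕ) : ℝ) := by rw [Nat.cast_sub h.le]; ring
      rw [e, b2_neg]
      exact hc (j - i) (by omega) (by omega)
  have hsplit : ((∑ x ∈ X, ‖∑ i ∈ range n, ee (i * s x)‖ ^ 2 - n * X.card : ℝ) : ℂ) =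
      ∑ i ∈ range n, ∑ j ∈ (range n).erase i, ∑ x ∈ X, ee (((i : ℝ) - j) * s x) := by
    rw [Complex.ofReal_sub, Complex.ofReal_sum,
      Finset.sum_congr rfl (fun x _ => b2_expand n (s x)), Finset.sum_comm]
    have e1 : ((n * X.card : ℝ) : ℂ) = ∑ i ∈ range n, (X.card : ℂ) := by
      rw [Finset.sum_const, Finset.card_range, nsmul_eq_mul]
      push_cast
      rfl
    rw [e1, ← Finset.sum_sub_distrib]
    refine Finset.sum_congr rfl fun i hi => ?_
    rw [Finset.sum_comm, ← Finset.add_sum_erase _ _ hi]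
    have e2 : ∑ x ∈ X, ee (((i : ℝ) - i) * s x) = X.card := by
      simp [ee_zero]
    rw [e2]
    ring
  rw [← Real.norm_eq_abs, ← Complex.norm_real, hsplit]
  refine (norm_sum_le _ _).trans ?_
  calc ∑ i ∈ range n, ‖∑ j ∈ (range n).erase i, ∑ x ∈ X, ee (((i : ℝ) - j) * s x)‖
      ≤ ∑ i ∈ range n, ((n - 1) * c : ℝ) := by
        refine Finset.sum_le_sum fun i hi => ?_
        refine (norm_sum_le _ _).trans ((Finset.sum_le_sum (hoff i hi)).trans ?_)
        rw [Finset.sum_const, nsmul_eq_mul, Finset.card_erase_of_mem hi, Finset.card_range,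
          Nat.cast_sub hn, Nat.cast_one]
    _ = n * ((n - 1) * c) := by
        rw [Finset.sum_const, nsmul_eq_mul, Finset.card_range]

/-- Plancherel on the grid -/
private theorem b2_grid (q : ℕ) (hq : 1 ≤ q) (s : ℝ) :
    ∑ j ∈ range q, ‖∑ i ∈ range q, ee (i * (s - j / q))‖ ^ 2 = (q : ℝ) * q := by
  have hqR : (0 : ℝ) < q := by exact_mod_cast hq
  have h := b2_sum (range q) (fun j => s - j / q) q hq 0 (by
    intro k hk1 hk2
    have hk1R : (1 : ℝ) ≤ k := by exact_mod_cast hk1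
    have hk2R : (k : ℝ) + 1 ≤ q := by exact_mod_cast hk2
    have hne : ee ((k : ℝ) / q) - 1 ≠ 0 := by
      have := b2_sub (κ := 2 / q) (s := (k : ℝ) / q) (by positivity)
        (by
          have e : (2 : ℝ) / q / 2 = 1 / q := by field_simp
          rw [e]
          gcongr)
        (by
          have e : (1 : ℝ) - 2 / q / 2 = (q - 1) / q := by field_simp
          rw [e]
          gcongr
          linarith)
      intro h0
      rw [h0, norm_zero] at this
      have : (0 : ℝ) < 2 * (2 / q) := by positivity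
      linarith
    have h0 : ∑ j ∈ range q, ee (j * ((k : ℝ) / q)) = 0 := by
      have h1 : (∑ j ∈ range q, ee (j * ((k : ℝ) / q))) * (ee ((k : ℝ) / q) - 1) = 0 := by
        have h2 : (∑ j ∈ range q, ee (j * ((k : ℝ) / q))) * (ee ((k : ℝ) / q) - 1) =
            ee ((k : ℝ) / q) ^ q - 1 := by
          rw [← geom_sum_mul]
          congr 1
          exact Finset.sum_congr rfl fun j _ => b2_pow j _
        rw [h2, ← b2_pow]
        have e : (q : ℝ) * (k / q) = ((k : ℤ) : ℝ) := by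
          field_simp
          simp
        rw [e, ee_int, sub_self]
      rcases mul_eq_zero.mp h1 with h | h
      · exact h
      · exact absurd h hne
    have e : ∑ j ∈ range q, ee ((k : ℝ) * (s - j / q)) =
        ee (k * s) * ∑ j ∈ range q, ee (-1 * (j * ((k : ℝ) / q))) := by
      rw [Finset.mul_sum]
      refine Finset.sum_congr rfl fun j _ => ?_
      rw [← ee_add]
      congr 1
      ring
    rw [e, norm_mul, ee_norm, one_mul, b2_neg (range q) (fun j => (j : ℝ) * ((k : ℝ) / q)) 1]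
    simp only [one_mul]
    rw [h0, norm_zero])
  simp only [mul_zero, Finset.card_range] at h
  have := abs_nonpos_iff.mp h
  linarith

/-- the residue -/
private theorem b2_res {m : ℕ} (hm : 1 ≤ m) (u y : ℤ) :
    ∃ i : ℕ, i < m ∧ y ≡ u + i [ZMOD m] ∧
      ∃ k : ℤ, (y : ℝ) / m - u / m = (i : ℝ) / m + k := by
  have hm0 : (0 : ℤ) < m := by exact_mod_cast hm
  have hmR : (0 : ℝ) < m := by exact_mod_cast hm
  obtain ⟨i, hi⟩ : ∃ i : ℕ, (y - u) % m = i :=
    ⟨((y - u) % m).toNat, (Int.toNat_of_nonneg (Int.emod_nonneg _ hm0.ne')).symm⟩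
  have hdiv : y - u = m * ((y - u) / m) + i := by
    rw [← hi]; exact (Int.mul_ediv_add_emod _ _).symm
  refine ⟨i, ?_, ?_, (y - u) / m, ?_⟩
  · have : (i : ℤ) < m := by rw [← hi]; exact Int.emod_lt_of_pos _ hm0
    exact_mod_cast this
  · have : y = u + i + m * ((y - u) / m) := by linarith
    rw [this]
    exact Int.modEq_add_fac_self
  · have hd : (y : ℝ) - u = m * (((y - u) / m : ℤ) : ℝ) + i := by exact_mod_cast hdiv
    rw [← sub_div, hd]
    field_simp
    ring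

private theorem b2_low (L m w : ℕ) (u : ℤ) (X : Finset ℕ) (z : ℕ → ℤ) (hL : 1 ≤ L) (hm : 1 ≤ m)
    (hw : w ≤ m) (hX : 0 < X.card)
    (hc : ∀ a : ℕ, 1 ≤ a → a ≤ 2048 * L ^ 4 →
      ((2048 * L ^ 4 : ℕ) : ℝ) * ‖∑ x ∈ X, ee ((a : ℝ) * (z x : ℝ) / m)‖ < X.card) :
    ((w : ℝ) / m - 1 / L) * X.card <
      (X.filter fun x => ∃ i : ℕ, i < w ∧ z x ≡ u + i [ZMOD m]).card := by
  have hLR : (1 : ℝ) ≤ L := by exact_mod_cast hL
  have hL0 : (0 : ℝ) < L := by linarith
  have hmR : (0 : ℝ) < m := by exact_mod_cast hm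
  have hXR : (0 : ℝ) < X.card := by exact_mod_cast hX
  set q : ℕ := 128 * L ^ 3 with hq
  have hq1 : 1 ≤ q := by
    have : 1 ≤ L ^ 3 := Nat.one_le_pow _ _ hL
    omega
  have hqR : (q : ℝ) = 128 * (L : ℝ) ^ 3 := by rw [hq]; push_cast; ring
  have hq0 : (0 : ℝ) < q := by exact_mod_cast hq1
  set P : ℕ → Prop := fun x => ∃ i : ℕ, i < w ∧ z x ≡ u + i [ZMOD m] with hP
  set J : Finset ℕ := Finset.Icc (16 * L ^ 2) (q * w / m - 16 * L ^ 2) with hJ
  have hJmem : ∀ j ∈ J, 16 * L ^ 2 ≤ j ∧ j + 16 * L ^ 2 ≤ q * w / m := by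
    intro j hj
    rw [hJ, Finset.mem_Icc] at hj
    have : 1 ≤ L ^ 2 := Nat.one_le_pow _ _ hL
    omega
  have hdivle : q * w / m ≤ q := by
    have : q * w ≤ q * m := Nat.mul_le_mul_left _ hw
    exact Nat.div_le_of_le_mul (by rw [mul_comm m q]; exact this)
  have hJsub : J ⊆ range q := by
    intro j hj
    obtain ⟨h1, h2⟩ := hJmem j hj
    rw [Finset.mem_range]
    have : 1 ≤ L ^ 2 := Nat.one_le_pow _ _ hL
    omega
  have hJle : (J.card : ℝ) ≤ q := by
    have := Finset.card_le_card hJsub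
    rw [Finset.card_range] at this
    exact_mod_cast this
  have hJge : (q : ℝ) * w / m - 32 * (L : ℝ) ^ 2 ≤ J.card := by
    have h2 : q * w / m + 1 ≤ J.card + 32 * L ^ 2 := by
      rw [hJ, Nat.card_Icc]
      omega
    have h3 : (q : ℝ) * w / m < ((q * w / m + 1 : ℕ) : ℝ) := by
      rw [div_lt_iff₀ hmR]
      have := Nat.lt_mul_div_succ (q * w) (by omega : 0 < m)
      have h5 : q * w < (q * w / m + 1) * m := by
        rw [Nat.mul_comm (q * w / m + 1) m]; exact this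
      exact_mod_cast h5
    have h4 : ((q * w / m + 1 : ℕ) : ℝ) ≤ J.card + 32 * (L : ℝ) ^ 2 := by exact_mod_cast h2
    linarith
  set V : ℕ → ℕ → ℝ := fun x j =>
    ‖∑ i ∈ range q, ee (i * (((z x : ℝ) / m - u / m) - j / q))‖ ^ 2 with hV
  have hV0 : ∀ x j, 0 ≤ V x j := fun x j => by positivity
  -- outside the interval
  have hout : ∀ x, ¬ P x → ∀ j ∈ J, V x j ≤ 16 * (L : ℝ) ^ 2 := by
    intro x hx j hj
    obtain ⟨j1, j2⟩ := hJmem j hj
    obtain ⟨i, hi1, hi2, k, hk⟩ := b2_res hm u (z x)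
    have hwi : w ≤ i := by
      by_contra hlt
      exact hx ⟨i, by omega, hi2⟩
    have j1R : 16 * (L : ℝ) ^ 2 ≤ j := by exact_mod_cast j1
    have j2R : (j : ℝ) + 16 * (L : ℝ) ^ 2 ≤ q * w / m := by
      have h1 : ((j + 16 * L ^ 2 : ℕ) : ℝ) ≤ ((q * w / m : ℕ) : ℝ) := by exact_mod_cast j2
      have h2 : ((q * w / m : ℕ) : ℝ) ≤ ((q * w : ℕ) : ℝ) / m := Nat.cast_div_le
      push_cast at h1 h2
      linarith
    have hee : ee (((z x : ℝ) / m - u / m) - j / q) = ee ((i : ℝ) / m - j / q) := by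
      have e : ((z x : ℝ) / m - u / m) - j / q = ((i : ℝ) / m - j / q) + k := by
        rw [hk]; ring
      rw [e, ee_add, ee_int, mul_one]
    have hτ : 16 * (L : ℝ) ^ 2 / q = 1 / (8 * L) := by
      rw [hqR]; field_simp; ring
    have hb := b2_sub (κ := 1 / (4 * L)) (s := (i : ℝ) / m - j / q) (by positivity)
      (by
        have e : (1 : ℝ) / (4 * L) / 2 = 16 * (L : ℝ) ^ 2 / q := by rw [hτ]; field_simp; ring
        rw [e]
        have h1 : (w : ℝ) / m ≤ i / m := by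
          gcongr
        have h2 : ((j : ℝ) + 16 * (L : ℝ) ^ 2) / q ≤ w / m := by
          rw [div_le_iff₀ hq0]
          calc (j : ℝ) + 16 * (L : ℝ) ^ 2 ≤ q * w / m := j2R
            _ = w / m * q := by ring
        rw [add_div] at h2
        linarith)
      (by
        have e : (1 : ℝ) / (4 * L) / 2 = 16 * (L : ℝ) ^ 2 / q := by rw [hτ]; field_simp; ring
        rw [e]
        have h1 : (i : ℝ) / m ≤ 1 := by
          rw [div_le_one hmR]; exact_mod_cast hi1.le
        have h2 : 16 * (L : ℝ) ^ 2 / q ≤ j / q := by gcongr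
        linarith)
    rw [← hee] at hb
    have hg := b2_geom (by positivity : (0 : ℝ) < 1 / (4 * L)) hb q
    have e : 1 / (1 / (4 * (L : ℝ))) = 4 * L := by field_simp
    rw [e] at hg
    calc V x j ≤ (4 * (L : ℝ)) ^ 2 := by
          rw [hV]
          exact pow_le_pow_left₀ (norm_nonneg _) hg 2
      _ = 16 * (L : ℝ) ^ 2 := by ring
  have hin : ∀ x, ∑ j ∈ J, V x j ≤ (q : ℝ) * q := by
    intro x
    rw [← b2_grid q hq1 ((z x : ℝ) / m - u / m)]
    exact Finset.sum_le_sum_of_subset_of_nonneg hJsub fun j _ _ => hV0 x j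
  -- lower bound
  have hA0 : (0 : ℝ) < 2048 * (L : ℝ) ^ 4 := by positivity
  have hlow : ∀ j, (q : ℝ) * X.card * (1 - 1 / (16 * L)) ≤ ∑ x ∈ X, V x j := by
    intro j
    have h := b2_sum X (fun x => ((z x : ℝ) / m - u / m) - j / q) q hq1
      (X.card / (2048 * (L : ℝ) ^ 4)) (by
        intro k hk1 hk2
        have e : ∑ x ∈ X, ee ((k : ℝ) * (((z x : ℝ) / m - u / m) - j / q)) =
            ee (k * (-(u / m) - j / q)) * ∑ x ∈ X, ee ((k : ℝ) * (z x : ℝ) / m) := by
          rw [Finset.mul_sum]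
          refine Finset.sum_congr rfl fun x _ => ?_
          rw [← ee_add]
          congr 1
          ring
        rw [e, norm_mul, ee_norm, one_mul, le_div_iff₀ hA0]
        have h1 : k ≤ 2048 * L ^ 4 := by
          have h2 : L ^ 3 ≤ L ^ 4 := Nat.pow_le_pow_right hL (by norm_num)
          omega
        have h2 := hc k hk1 h1
        push_cast at h2
        linarith)
    rw [abs_le] at h
    have h1 := h.1
    have h2 : (q : ℝ) * ((q - 1) * (X.card / (2048 * (L : ℝ) ^ 4))) ≤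
        q * X.card * (1 / (16 * L)) := by
      have h3 : ((q : ℝ) - 1) * (X.card / (2048 * (L : ℝ) ^ 4)) ≤
          q * (X.card / (2048 * (L : ℝ) ^ 4)) := by
        refine mul_le_mul_of_nonneg_right (by linarith) (by positivity)
      have h4 : (q : ℝ) * (X.card / (2048 * (L : ℝ) ^ 4)) = X.card * (1 / (16 * L)) := by
        rw [hqR]; field_simp; ring
      rw [h4] at h3
      calc (q : ℝ) * ((q - 1) * (X.card / (2048 * (L : ℝ) ^ 4)))
          ≤ q * (X.card * (1 / (16 * L))) := mul_le_mul_of_nonneg_left h3 hq0.le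
        _ = q * X.card * (1 / (16 * L)) := by ring
    have h3 : ∑ x ∈ X, V x j = ∑ x ∈ X,
      ‖∑ i ∈ range q, ee (i * (((z x : ℝ) / m - u / m) - j / q))‖ ^ 2 := rfl
    rw [h3]
    linarith
  have hmain : (J.card : ℝ) * ((q : ℝ) * X.card * (1 - 1 / (16 * L))) ≤
      (X.filter P).card * ((q : ℝ) * q) + X.card * (J.card * (16 * (L : ℝ) ^ 2)) := by
    calc (J.card : ℝ) * ((q : ℝ) * X.card * (1 - 1 / (16 * L)))
        = ∑ j ∈ J, ((q : ℝ) * X.card * (1 - 1 / (16 * L))) := by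
          rw [Finset.sum_const, nsmul_eq_mul]
      _ ≤ ∑ j ∈ J, ∑ x ∈ X, V x j := Finset.sum_le_sum fun j _ => hlow j
      _ = ∑ x ∈ X, ∑ j ∈ J, V x j := Finset.sum_comm
      _ = ∑ x ∈ X.filter P, ∑ j ∈ J, V x j + ∑ x ∈ X.filter (fun x => ¬ P x), ∑ j ∈ J, V x j :=
          (Finset.sum_filter_add_sum_filter_not X P _).symm
      _ ≤ ∑ x ∈ X.filter P, ((q : ℝ) * q) +
            ∑ x ∈ X.filter (fun x => ¬ P x), (J.card * (16 * (L : ℝ) ^ 2)) := by
          refine add_le_add (Finset.sum_le_sum fun x _ => hin x) (Finset.sum_le_sum fun x hx => ?_)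
          rw [Finset.mem_filter] at hx
          calc ∑ j ∈ J, V x j ≤ ∑ j ∈ J, (16 * (L : ℝ) ^ 2) :=
                Finset.sum_le_sum fun j hj => hout x hx.2 j hj
            _ = J.card * (16 * (L : ℝ) ^ 2) := by rw [Finset.sum_const, nsmul_eq_mul]
      _ ≤ (X.filter P).card * ((q : ℝ) * q) + X.card * (J.card * (16 * (L : ℝ) ^ 2)) := by
          rw [Finset.sum_const, nsmul_eq_mul, Finset.sum_const, nsmul_eq_mul]
          have : ((X.filter (fun x => ¬ P x)).card : ℝ) ≤ X.card := by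
            exact_mod_cast Finset.card_filter_le _ _
          gcongr
  -- arithmetic
  set I : ℝ := ((X.filter P).card : ℝ) with hI
  set Y : ℝ := (X.card : ℝ) with hY
  set j : ℝ := (J.card : ℝ) with hj
  have hj0 : 0 ≤ j := by rw [hj]; positivity
  -- divide by q
  have h1 : j * (Y * (1 - 1 / (16 * L))) ≤ I * q + Y * (j * (1 / (8 * L))) := by
    have e1 : j * ((q : ℝ) * Y * (1 - 1 / (16 * L))) = q * (j * (Y * (1 - 1 / (16 * L)))) := by ring
    have e2 : I * ((q : ℝ) * q) + Y * (j * (16 * (L : ℝ) ^ 2)) =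
        q * (I * q + Y * (j * (1 / (8 * L)))) := by
      have : 16 * (L : ℝ) ^ 2 = q * (1 / (8 * L)) := by rw [hqR]; field_simp; ring
      rw [this]; ring
    rw [e1, e2] at hmain
    exact le_of_mul_le_mul_left hmain hq0
  have h2 : j * Y - j * Y * (3 / (16 * L)) ≤ I * q := by
    have e : (1 : ℝ) / (16 * L) + 1 / (8 * L) = 3 / (16 * L) := by field_simp; ring
    have : j * (Y * (1 - 1 / (16 * L))) - Y * (j * (1 / (8 * L))) =
        j * Y - j * Y * (1 / (16 * L) + 1 / (8 * L)) := by ring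
    rw [e] at this
    linarith
  have h3 : j * Y * (3 / (16 * L)) ≤ q * Y * (3 / (16 * L)) := by
    gcongr
  have h4 : (q * w / m - 32 * (L : ℝ) ^ 2) * Y ≤ j * Y :=
    mul_le_mul_of_nonneg_right hJge hXR.le
  have h5 : 32 * (L : ℝ) ^ 2 = q * (1 / (4 * L)) := by rw [hqR]; field_simp; ring
  have h6 : q * (((w : ℝ) / m - 1 / (4 * L) - 3 / (16 * L)) * Y) ≤ q * I := by
    have e : q * (((w : ℝ) / m - 1 / (4 * L) - 3 / (16 * L)) * Y) =
        (q * w / m - q * (1 / (4 * L))) * Y - q * Y * (3 / (16 * L)) := by ring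
    rw [e, ← h5]
    linarith
  have h7 := le_of_mul_le_mul_left h6 hq0
  have h8 : ((w : ℝ) / m - 1 / L) * Y < ((w : ℝ) / m - 1 / (4 * L) - 3 / (16 * L)) * Y := by
    refine mul_lt_mul_of_pos_right ?_ hXR
    have e : (1 : ℝ) / L - 1 / (4 * L) - 3 / (16 * L) = 9 / (16 * L) := by field_simp; ring
    have : (0 : ℝ) < 9 / (16 * L) := by positivity
    linarith
  linarith

theorem bias2 : ∃ C e : ℕ, 1 ≤ C ∧ ∀ (L m w : ℕ) (u : ℤ) (X : Finset ℕ) (z : ℕ → ℤ), 1 ≤ L → 1 ≤ m → w ≤ m →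
    (X.card : ℝ) ≤ L * |((X.filter fun x => ∃ i : ℕ, i < w ∧ z x ≡ u + i [ZMOD m]).card : ℝ) - (w : ℝ) / m * X.card| →
    ∃ a : ℕ, 1 ≤ a ∧ a ≤ C * L ^ e ∧ (X.card : ℝ) ≤ ((C * L ^ e : ℕ) : ℝ) * ‖∑ x ∈ X, ee ((a : ℝ) * (z x : ℝ) / m)‖ := by
  refine ⟨2048, 4, by norm_num, ?_⟩
  intro L m w u X z hL hm hw hbias
  by_contra hcon
  push Not at hcon
  have hLR : (0 : ℝ) < L := by exact_mod_cast hL
  have hmR : (0 : ℝ) < m := by exact_mod_cast hm
  have hX : 0 < X.card := by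
    by_contra h0
    have h0 : X.card = 0 := by omega
    have := hcon 1 le_rfl (by
      have : 1 ≤ L ^ 4 := Nat.one_le_pow _ _ hL
      omega)
    rw [h0, Nat.cast_zero] at this
    have h2 : (0 : ℝ) ≤ ((2048 * L ^ 4 : ℕ) : ℝ) *
      ‖∑ x ∈ X, ee (((1 : ℕ) : ℝ) * (z x : ℝ) / m)‖ := by positivity
    linarith
  have hXR : (0 : ℝ) < X.card := by exact_mod_cast hX
  have h1 := b2_low L m w u X z hL hm hw hX hcon
  have h2 := b2_low L m (m - w) (u + w) X z hL hm (Nat.sub_le _ _) hX hcon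
  have hdis : Disjoint (X.filter fun x => ∃ i : ℕ, i < w ∧ z x ≡ u + i [ZMOD m])
      (X.filter fun x => ∃ i : ℕ, i < m - w ∧ z x ≡ (u + w) + i [ZMOD m]) := by
    rw [Finset.disjoint_left]
    intro x hx1 hx2
    rw [Finset.mem_filter] at hx1 hx2
    obtain ⟨-, i, hi, hi'⟩ := hx1
    obtain ⟨-, i', hi2, hi2'⟩ := hx2
    have h3 : u + (i : ℤ) ≡ u + ((w + i' : ℕ) : ℤ) [ZMOD m] := by
      have := hi'.symm.trans hi2'
      push_cast
      rw [← add_assoc]
      exact this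
    have h4 : (i : ℤ) ≡ ((w + i' : ℕ) : ℤ) [ZMOD m] := Int.ModEq.add_left_cancel' u h3
    have h5 : i ≡ w + i' [MOD m] := Int.natCast_modEq_iff.mp h4
    have h6 : i = w + i' := Nat.ModEq.eq_of_lt_of_lt h5 (by omega) (by omega)
    omega
  have hcard : ((X.filter fun x => ∃ i : ℕ, i < w ∧ z x ≡ u + i [ZMOD m]).card : ℝ) +
      (X.filter fun x => ∃ i : ℕ, i < m - w ∧ z x ≡ (u + w) + i [ZMOD m]).card ≤ X.card := by
    rw [← Nat.cast_add, ← Finset.card_union_of_disjoint hdis]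
    exact_mod_cast Finset.card_le_card
      (Finset.union_subset (Finset.filter_subset _ _) (Finset.filter_subset _ _))
  rw [Nat.cast_sub hw] at h2
  have e : ((m : ℝ) - w) / m = 1 - w / m := by rw [sub_div, div_self hmR.ne']
  rw [e] at h2
  set I : ℝ := ((X.filter fun x => ∃ i : ℕ, i < w ∧ z x ≡ u + i [ZMOD m]).card : ℝ) with hI
  have h3 : |I - (w : ℝ) / m * X.card| < X.card / L := by
    have e2 : (X.card : ℝ) / L = 1 / L * X.card := by ring
    rw [abs_lt, e2]
    constructor <;> linarith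
  have h4 : (L : ℝ) * |I - (w : ℝ) / m * X.card| < X.card := by
    calc (L : ℝ) * |I - (w : ℝ) / m * X.card| < L * (X.card / L) :=
          mul_lt_mul_of_pos_left h3 hLR
      _ = X.card := by field_simp
  linarith

end Pool.Agent.H95.AT
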