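import Pool.Agent.H95.AT.Fin8

/-!
# [H95 AT Cov] Missed polynomial preimages of intervals: the covering theorem
-/

set_option autoImplicit false

open scoped Classical

namespace Pool.Agent.H95.AT

open Finset

/-- `X` misses the preimage under some `f = g / A` of an interval of at least `m / L` classes modulo `m` -/
def Misses8 (F : Finset (Polynomial ℤ)) (L m : ℕ) (X : Finset ℕ) : Prop :=
  ∃ g ∈ F, ∃ (A w : ℕ) (u : ℤ), 1 ≤ A ∧ A ≤ L ∧ A.Coprime m ∧ m ≤ L * w ∧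
    ∀ x ∈ X, ∀ i : ℕ, i < w → ¬ g.eval (x : ℤ) ≡ A * (u + i) [ZMOD m]

theorem exists_reps (X : Finset ℕ) (c : ℕ → ℤ) : ∃ Y ⊆ X, (∀ x ∈ Y, ∀ x' ∈ Y, c x = c x' → x = x') ∧
    X.image c = Y.image c := by
  have h : ∀ v ∈ X.image c, ∃ x ∈ X, c x = v := fun v hv => mem_image.1 hv
  choose! r hr1 hr2 using h
  refine ⟨(X.image c).image r, ?_, ?_, ?_⟩
  · intro x hx
    obtain ⟨v, hv, rfl⟩ := mem_image.1 hx
    exact hr1 v hv
  · intro x hx x' hx' hxx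
    obtain ⟨v, hv, rfl⟩ := mem_image.1 hx
    obtain ⟨v', hv', rfl⟩ := mem_image.1 hx'
    rw [hr2 v hv, hr2 v' hv'] at hxx
    rw [hxx]
  · ext v
    constructor
    · intro hv
      exact mem_image.2 ⟨r v, mem_image_of_mem _ hv, hr2 v hv⟩
    · intro hv
      obtain ⟨x, hx, rfl⟩ := mem_image.1 hv
      obtain ⟨v', hv', rfl⟩ := mem_image.1 hx
      rw [hr2 v' hv']
      exact hv'

theorem misses_uneven (g : Polynomial ℤ) (L L' m A w : ℕ) (u : ℤ) (X : Finset ℕ) (hL : L ≤ L') (hm : 1 ≤ m)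
    (hA : 1 ≤ A) (hAL : A ≤ L) (hAm : A.Coprime m) (hw : m ≤ L * w)
    (hX : ∀ x ∈ X, ∀ i : ℕ, i < w → ¬ g.eval (x : ℤ) ≡ A * (u + i) [ZMOD m]) (hne : X.Nonempty) :
    Uneven8 {g} L' m X := by
  have hmR : (0 : ℝ) < m := by exact_mod_cast hm
  have hwm : w ≤ m := by
    by_contra hcon
    push Not at hcon
    obtain ⟨x, hx⟩ := hne
    obtain ⟨p, q, hp⟩ : IsCoprime (A : ℤ) (m : ℤ) := Nat.isCoprime_iff_coprime.2 hAm
    have hm0 : (m : ℤ) ≠ 0 := by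
      have : 0 < m := hm
      exact_mod_cast this.ne'
    have hnn : 0 ≤ (p * g.eval (x : ℤ) - u) % m := Int.emod_nonneg _ hm0
    have hlt : (p * g.eval (x : ℤ) - u) % m < m := Int.emod_lt_of_pos _ (by exact_mod_cast hm)
    obtain ⟨i, hi⟩ : ∃ i : ℕ, (i : ℤ) = (p * g.eval (x : ℤ) - u) % m := ⟨_, Int.toNat_of_nonneg hnn⟩
    have hiw : i < w := by
      have h1 : (i : ℤ) < m := by rw [hi]; exact hlt
      have h2 : i < m := by exact_mod_cast h1
      omega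
    refine hX x hx i hiw ?_
    have h1 : p * g.eval (x : ℤ) ≡ u + i [ZMOD m] := by
      have h2 : (i : ℤ) ≡ p * g.eval (x : ℤ) - u [ZMOD m] := by rw [hi]; exact Int.mod_modEq _ _
      have h3 := (h2.add_left u).symm
      have h4 : u + (p * g.eval (x : ℤ) - u) = p * g.eval (x : ℤ) := by ring
      rwa [h4] at h3
    have hpA : p * A ≡ 1 [ZMOD m] := by
      rw [← hp]
      exact (Int.modEq_iff_add_fac.2 ⟨q, by ring⟩)
    have h5 := Int.ModEq.mul_left (A : ℤ) h1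
    have h6 : (A : ℤ) * (p * g.eval (x : ℤ)) = (p * A) * g.eval (x : ℤ) := by ring
    rw [h6] at h5
    have h7 := (hpA.mul_right (g.eval (x : ℤ))).symm.trans h5
    simpa using h7
  refine ⟨g, mem_singleton_self g, A, w, u, hA, hAL.trans hL, hAm, hwm, ?_⟩
  have h0 : (X.filter fun x : ℕ => ∃ i : ℕ, i < w ∧ g.eval (x : ℤ) ≡ A * (u + i) [ZMOD m]) = ∅ := by
    rw [filter_eq_empty_iff]
    rintro x hx ⟨i, hi, h⟩
    exact hX x hx i hi h
  rw [h0, card_empty, Nat.cast_zero, zero_sub, abs_neg, abs_of_nonneg (by positivity)]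
  have h1 : (m : ℝ) ≤ L' * w := by
    have : m ≤ L' * w := hw.trans (Nat.mul_le_mul_right _ hL)
    exact_mod_cast this
  have h2 : (1 : ℝ) ≤ L' * (w / m) := by
    rw [← mul_div_assoc, le_div_iff₀ hmR]
    linarith
  calc (X.card : ℝ) = 1 * X.card := (one_mul _).symm
    _ ≤ (L' * (w / m)) * X.card := mul_le_mul_of_nonneg_right h2 (Nat.cast_nonneg _)
    _ = L' * (w / m * X.card) := by ring

theorem cov (k K : ℕ) : ∃ C e : ℕ, ∀ L Q : ℕ, 1 ≤ L → 1 ≤ Q → ∀ F : Finset (Polynomial ℤ), F.card ≤ (3 * L) ^ (k + 1) →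
    (∀ g ∈ F, 1 ≤ g.natDegree ∧ g.natDegree ≤ k ∧ ∀ i, |g.coeff i| ≤ (Q : ℤ) ^ K) →
    ∀ M X : Finset ℕ, (∀ m ∈ M, Q < m ∧ m ≤ 2 * Q) → (∀ x ∈ X, x ≤ Q ^ K) → Q ≤ L * M.card →
    (∀ m ∈ M, Misses8 F L m X) →
    ∃ g ∈ F, ∃ U : Finset ℤ, U.card ≤ C * L ^ e ∧ ∀ x ∈ X, ∃ u ∈ U, u ≤ g.eval (x : ℤ) ∧ g.eval (x : ℤ) < u + Q := by
  obtain ⟨C1, e1, h1⟩ := fin8 k K
  refine ⟨(C1 * (3 ^ (k + 1)) ^ e1) * (2 * 3 ^ (k + 1)), (k + 3) * e1 + (k + 3), ?_⟩
  intro L Q hL hQ F hFc hFam M X hM hX hMc hb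
  obtain ⟨m1, hm1⟩ : M.Nonempty := by
    rw [← card_pos]
    by_contra h3
    have h4 : M.card = 0 := by omega
    rw [h4, mul_zero] at hMc
    omega
  have hL0 : 0 < L := hL
  have hQ0 : 0 < Q := hQ
  -- pigeonhole over `(g, A)`
  obtain ⟨Ff, hFf⟩ : ∃ Ff : Polynomial ℤ × ℕ → Finset ℕ, Ff = fun t => M.filter fun m : ℕ =>
      1 ≤ t.2 ∧ t.2 ≤ L ∧ t.2.Coprime m ∧ ∃ (w : ℕ) (u : ℤ), m ≤ L * w ∧
        ∀ x ∈ X, ∀ i : ℕ, i < w → ¬ t.1.eval (x : ℤ) ≡ t.2 * (u + i) [ZMOD m] := ⟨_, rfl⟩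
  obtain ⟨Tr, hTr⟩ : ∃ Tr : Finset (Polynomial ℤ × ℕ), Tr = F ×ˢ (Icc 1 L) := ⟨_, rfl⟩
  have hTrc : Tr.card ≤ (3 * L) ^ (k + 1) * L := by
    rw [hTr, card_product, Nat.card_Icc, Nat.add_sub_cancel]
    exact Nat.mul_le_mul_right _ hFc
  have hcover : M ⊆ Tr.biUnion Ff := by
    intro m hm
    obtain ⟨g, hg, A, w, u, h3, h4, h5, h6, h7⟩ := hb m hm
    rw [mem_biUnion]
    refine ⟨(g, A), ?_, ?_⟩
    · rw [hTr, mem_product, mem_Icc]
      exact ⟨hg, h3, h4⟩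
    · rw [hFf, mem_filter]
      exact ⟨hm, h3, h4, h5, w, u, h6, h7⟩
  have hTrne : Tr.Nonempty := by
    by_contra h3
    rw [not_nonempty_iff_eq_empty] at h3
    rw [h3] at hcover
    have h4 := hcover hm1
    simp at h4
  have hpig : ∃ t ∈ Tr, M.card ≤ Tr.card * (Ff t).card := by
    by_contra hcon2
    push Not at hcon2
    have h3 : M.card ≤ ∑ t ∈ Tr, (Ff t).card := (card_le_card hcover).trans card_biUnion_le
    have h4 : Tr.card * ∑ t ∈ Tr, (Ff t).card < ∑ _t ∈ Tr, M.card := by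
      rw [Finset.mul_sum]
      exact Finset.sum_lt_sum_of_nonempty hTrne hcon2
    rw [Finset.sum_const, smul_eq_mul] at h4
    exact absurd (Nat.mul_le_mul_left Tr.card h3) (not_le.2 h4)
  obtain ⟨⟨g, A⟩, ht, hMt⟩ := hpig
  rw [hTr, mem_product, mem_Icc] at ht
  have hg : g ∈ F := ht.1
  obtain ⟨M', hM'⟩ : ∃ M' : Finset ℕ, M' = Ff (g, A) := ⟨_, rfl⟩
  rw [← hM'] at hMt
  obtain ⟨V, hV⟩ : ∃ V : ℕ, V = 3 ^ (k + 1) * L ^ (k + 3) := ⟨_, rfl⟩
  have hLV : L ≤ V := by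
    rw [hV]
    calc L = 1 * L ^ 1 := by ring
      _ ≤ 3 ^ (k + 1) * L ^ (k + 3) := Nat.mul_le_mul (Nat.one_le_pow _ _ (by norm_num)) (Nat.pow_le_pow_right hL (by omega))
  have hV1 : 1 ≤ V := hL.trans hLV
  have hM'c : Q ≤ V * M'.card := by
    calc Q ≤ L * M.card := hMc
      _ ≤ L * (Tr.card * M'.card) := Nat.mul_le_mul_left _ hMt
      _ ≤ L * ((3 * L) ^ (k + 1) * L * M'.card) := by gcongr
      _ = V * M'.card := by rw [hV, mul_pow]; ring
  obtain ⟨c, hc⟩ : ∃ c : ℕ → ℤ, c = fun x : ℕ => g.eval (x : ℤ) / Q := ⟨_, rfl⟩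
  obtain ⟨Y, hYX, hYinj, hYim⟩ := exists_reps X c
  have hQz : (0 : ℤ) < Q := by exact_mod_cast hQ0
  have hYc : Y.card ≤ C1 * V ^ e1 * (2 * V) := by
    rcases Y.eq_empty_or_nonempty with hY0 | hYne
    · rw [hY0, card_empty]
      exact Nat.zero_le _
    have h3 := h1 V Q hV1 hQ {g} (by
        rw [card_singleton]
        exact Nat.one_le_pow _ _ (by omega))
      (by
        intro g' hg'
        rw [mem_singleton] at hg'
        rw [hg']
        exact hFam g hg)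
      M' Y (by
        intro m hm
        rw [hM', hFf] at hm
        exact hM m (mem_filter.1 hm).1)
      (fun x hx => hX x (hYX hx)) hM'c
      (by
        intro m hm
        rw [hM', hFf] at hm
        obtain ⟨hm2, h4, h5, h6, w, u, h7, h8⟩ := mem_filter.1 hm
        have hm3 : 1 ≤ m := by have := hM m hm2; omega
        exact Or.inl (misses_uneven g L V m A w u Y hLV hm3 h4 h5 h6 h7 (fun x hx => h8 x (hYX hx)) hYne))
    obtain ⟨_, g', hg', A', u, hA1, hA2, h4⟩ := h3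
    rw [mem_singleton] at hg'
    rw [hg'] at h4
    refine h4.trans (Nat.mul_le_mul_left _ ?_)
    have h5 : (Y.filter fun x : ℕ => u ≤ g.eval (x : ℤ) ∧ g.eval (x : ℤ) < u + A' * Q).card ≤
        (Icc (u / Q) (u / Q + A')).card := by
      refine card_le_card_of_injOn c ?_ ?_
      · intro x hx
        have hx' := mem_filter.1 hx
        rw [mem_coe, mem_Icc, hc]
        refine ⟨Int.ediv_le_ediv hQz hx'.2.1, ?_⟩
        have h6 : g.eval (x : ℤ) ≤ u + A' * Q := hx'.2.2.le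
        calc g.eval (x : ℤ) / Q ≤ (u + A' * Q) / Q := Int.ediv_le_ediv hQz h6
          _ = u / Q + A' := Int.add_mul_ediv_right _ _ hQz.ne'
      · intro x hx x' hx' hxx
        exact hYinj x (mem_filter.1 hx).1 x' (mem_filter.1 hx').1 hxx
    refine h5.trans ?_
    rw [Int.card_Icc]
    omega
  refine ⟨g, hg, (X.image c).image (fun v => v * Q), ?_, ?_⟩
  · refine card_image_le.trans ?_
    rw [hYim]
    refine card_image_le.trans (hYc.trans (le_of_eq ?_))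
    rw [hV, mul_pow, ← pow_mul]
    ring
  · intro x hx
    refine ⟨c x * Q, mem_image_of_mem _ (mem_image_of_mem _ hx), ?_, ?_⟩
    · rw [hc]
      exact Int.ediv_mul_le _ hQz.ne'
    · rw [hc]
      have h6 := Int.lt_ediv_add_one_mul_self (g.eval (x : ℤ)) hQz
      have h7 : (g.eval (x : ℤ) / Q + 1) * Q = g.eval (x : ℤ) / Q * Q + Q := by ring
      rw [h7] at h6
      exact h6

end Pool.Agent.H95.AT
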