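import Pool.Agent.H95.AT.Bias2

/-!
# [H95 AT FB] Frequencies and progressions of low height
-/

set_option autoImplicit false

open scoped Classical

namespace Pool.Agent.H95.AT

open Finset Pool.Agent.H24.AB Pool.Agent.H95.AS

/-- the elements `t` with `b + r t ∈ X` (for `b < r`) -/
def Zs (r b : ℕ) (X : Finset ℕ) : Finset ℕ := (X.filter fun x => x % r = b).image fun x => x / r

theorem Zs_card_le (r b : ℕ) (X : Finset ℕ) : (Zs r b X).card ≤ X.card := by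
  unfold Zs
  exact card_image_le.trans (card_le_card (filter_subset _ _))

theorem Zs_sum (r b : ℕ) (X : Finset ℕ) (f : ℕ → ℂ) :
    ∑ x ∈ X.filter (fun x => x % r = b), f (x / r) = ∑ t ∈ Zs r b X, f t := by
  unfold Zs
  rw [Finset.sum_image]
  intro x hx x' hx' hxx
  have h1 := (mem_filter.1 hx).2
  have h2 := (mem_filter.1 hx').2
  have h3 := Nat.div_add_mod x r
  have h4 := Nat.div_add_mod x' r
  have h5 : x / r = x' / r := hxx
  rw [← h3, ← h4, h5, h1, h2]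

theorem fourier_bias (m r a : ℕ) (h : ℤ) (X : Finset ℕ) (hm : 1 ≤ m) (hr : 1 ≤ r)
    (hh : (r : ℤ) * h ≡ a [ZMOD m]) :
    ∃ b : ℕ, b < r ∧ ‖∑ x ∈ X, ee ((h : ℝ) * (x : ℝ) / m)‖ ≤ r * ‖S (Zs r b X) ((a : ℝ) / m)‖ := by
  by_contra hcon
  push Not at hcon
  have hmR : (0 : ℝ) < m := by exact_mod_cast hm
  obtain ⟨q, hq⟩ : ∃ q : ℤ, (r : ℤ) * h = a + m * q := by
    obtain ⟨q, hq⟩ := hh.symm.dvd
    exact ⟨q, by linarith⟩
  have hqr : (r : ℝ) * (h : ℝ) = a + m * q := by exact_mod_cast hq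
  have hmaps : ∀ x ∈ X, x % r ∈ range r := fun x _ => mem_range.2 (Nat.mod_lt _ hr)
  have h1 : ∑ x ∈ X, ee ((h : ℝ) * (x : ℝ) / m) =
      ∑ b ∈ range r, ee ((h : ℝ) * b / m) * S (Zs r b X) ((a : ℝ) / m) := by
    rw [← Finset.sum_fiberwise_of_maps_to hmaps]
    refine sum_congr rfl fun b _ => ?_
    have h2 : ∑ x ∈ X.filter (fun x => x % r = b), ee ((h : ℝ) * (x : ℝ) / m) =
        ∑ x ∈ X.filter (fun x => x % r = b), ee ((h : ℝ) * b / m) * ee (((x / r : ℕ) : ℝ) * ((a : ℝ) / m)) := by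
      refine sum_congr rfl fun x hx => ?_
      have h3 := Nat.div_add_mod x r
      rw [(mem_filter.1 hx).2] at h3
      generalize x / r = t at h3 ⊢
      have h4 : (x : ℝ) = r * (t : ℝ) + b := by exact_mod_cast h3.symm
      have h5 : (h : ℝ) * (x : ℝ) / m = (h : ℝ) * b / m + (t : ℝ) * ((a : ℝ) / m) + (((t : ℤ) * q : ℤ) : ℝ) := by
        have h6 : (h : ℝ) * (x : ℝ) = h * b + (t : ℝ) * (a + m * q) := by
          rw [← hqr]
          calc (h : ℝ) * (x : ℝ) = h * (r * (t : ℝ) + b) := by rw [← h4]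
            _ = _ := by ring
        rw [h6]
        push_cast
        field_simp
        ring
      rw [h5, ee_add, ee_add, ee_int, mul_one]
    rw [h2, ← Finset.mul_sum, Zs_sum r b X (fun t => ee ((t : ℝ) * ((a : ℝ) / m)))]
    rfl
  have h2 : ‖∑ x ∈ X, ee ((h : ℝ) * (x : ℝ) / m)‖ ≤ ∑ b ∈ range r, ‖S (Zs r b X) ((a : ℝ) / m)‖ := by
    rw [h1]
    refine (norm_sum_le _ _).trans (le_of_eq (sum_congr rfl fun b _ => ?_))
    rw [norm_mul, ee_norm, one_mul]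
  have h3 : (r : ℝ) * ∑ b ∈ range r, ‖S (Zs r b X) ((a : ℝ) / m)‖ < ∑ _b ∈ range r, ‖∑ x ∈ X, ee ((h : ℝ) * (x : ℝ) / m)‖ := by
    rw [Finset.mul_sum]
    refine Finset.sum_lt_sum_of_nonempty ⟨0, mem_range.2 (by omega)⟩ fun b hb => ?_
    exact hcon b (mem_range.1 hb)
  rw [Finset.sum_const, card_range, nsmul_eq_mul] at h3
  have hr0 : (0 : ℝ) < r := by exact_mod_cast hr
  have h4 := lt_of_mul_lt_mul_left h3 hr0.le
  linarith

theorem uneven_fourier : ∃ C e : ℕ, 1 ≤ C ∧ ∀ (L m r s w : ℕ) (d u : ℤ) (X : Finset ℕ), 1 ≤ L → 1 ≤ m →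
    1 ≤ s → s ≤ L → r.Coprime m → s.Coprime m → (s : ℤ) * d ≡ r [ZMOD m] → w ≤ m →
    (X.card : ℝ) ≤ L * |((X.filter fun x : ℕ => ∃ i : ℕ, i < w ∧ (x : ℤ) ≡ u + i * d [ZMOD m]).card : ℝ) - (w : ℝ) / m * X.card| →
    ∃ (a : ℕ) (h : ℤ), 1 ≤ a ∧ a ≤ C * L ^ e ∧ (r : ℤ) * h ≡ a [ZMOD m] ∧
      (X.card : ℝ) ≤ ((C * L ^ e : ℕ) : ℝ) * ‖∑ x ∈ X, ee ((h : ℝ) * (x : ℝ) / m)‖ := by
  obtain ⟨C, e, hC, hb⟩ := bias2
  refine ⟨C, e + 1, hC, ?_⟩
  intro L m r s w d u X hL hm hs hsL hrm hsm hd hw hX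
  obtain ⟨p, q, hp⟩ : IsCoprime (r : ℤ) (m : ℤ) := Nat.isCoprime_iff_coprime.2 hrm
  obtain ⟨p', q', hp'⟩ : IsCoprime (s : ℤ) (m : ℤ) := Nat.isCoprime_iff_coprime.2 hsm
  have hpr : p * r ≡ 1 [ZMOD m] := by
    rw [← hp]
    exact (Int.modEq_iff_add_fac.2 ⟨q, by ring⟩)
  have hps : p' * s ≡ 1 [ZMOD m] := by
    rw [← hp']
    exact (Int.modEq_iff_add_fac.2 ⟨q', by ring⟩)
  have hiff : ∀ (x i : ℤ), x ≡ u + i * d [ZMOD m] ↔ p * s * x ≡ p * s * u + i [ZMOD m] := by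
    intro x i
    have e1 : p * s * (u + i * d) ≡ p * s * u + i [ZMOD m] := by
      have e2 : p * s * (u + i * d) = p * s * u + i * (p * (s * d)) := by ring
      rw [e2]
      refine Int.ModEq.add_left _ ?_
      have e3 : p * (s * d) ≡ 1 [ZMOD m] := (Int.ModEq.mul_left p hd).trans hpr
      simpa using Int.ModEq.mul_left i e3
    constructor
    · intro hx
      exact (Int.ModEq.mul_left (p * s) hx).trans e1
    · intro hx
      have e4 : p * s * x ≡ p * s * (u + i * d) [ZMOD m] := hx.trans e1.symm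
      have e5 : ∀ y : ℤ, y ≡ p' * r * (p * s * y) [ZMOD m] := by
        intro y
        have e6 : p' * r * (p * s * y) = (p * r) * ((p' * s) * y) := by ring
        rw [e6]
        have e7 := (hpr.mul (hps.mul_right y)).symm
        simpa using e7
      exact (e5 x).trans ((Int.ModEq.mul_left (p' * r) e4).trans (e5 _).symm)
  have hfil : (X.filter fun x : ℕ => ∃ i : ℕ, i < w ∧ (x : ℤ) ≡ u + i * d [ZMOD m]) =
      X.filter fun x : ℕ => ∃ i : ℕ, i < w ∧ (fun x : ℕ => p * s * (x : ℤ)) x ≡ p * s * u + i [ZMOD m] := by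
    refine filter_congr fun x _ => ?_
    refine exists_congr fun i => and_congr_right fun _ => ?_
    exact hiff x i
  rw [hfil] at hX
  obtain ⟨a, ha1, ha2, ha3⟩ := hb L m w (p * s * u) X (fun x : ℕ => p * s * (x : ℤ)) hL hm hw hX
  have hLp : C * L ^ e ≤ C * L ^ (e + 1) := Nat.mul_le_mul_left _ (Nat.pow_le_pow_right hL (by omega))
  refine ⟨a * s, a * (p * s), Nat.mul_pos ha1 hs, ?_, ?_, ?_⟩
  · calc a * s ≤ C * L ^ e * L := Nat.mul_le_mul ha2 hsL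
      _ = C * L ^ (e + 1) := by ring
  · have e1 : (r : ℤ) * (a * (p * s)) = a * s * (p * r) := by ring
    rw [e1]
    push_cast
    simpa using Int.ModEq.mul_left ((a : ℤ) * s) hpr
  · have e1 : ∑ x ∈ X, ee ((a : ℝ) * (((fun x : ℕ => p * s * (x : ℤ)) x : ℤ) : ℝ) / m) =
        ∑ x ∈ X, ee (((a * (p * s) : ℤ) : ℝ) * (x : ℝ) / m) := by
      refine sum_congr rfl fun x _ => ?_
      congr 1
      push_cast
      ring
    rw [e1] at ha3
    refine ha3.trans (mul_le_mul_of_nonneg_right ?_ (norm_nonneg _))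
    exact_mod_cast hLp

end Pool.Agent.H95.AT
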