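import Pool.Agent.H95.AT.Main2
import Pool.Agent.H95.AT.FB

/-!
# [H95 AT Fin2] Large sets are equidistributed modulo almost all moduli of each small scale
-/

set_option autoImplicit false

open scoped Classical

namespace Pool.Agent.H95.AT

open Finset Pool.Agent.H24.AB Pool.Agent.H95.AS

/-- `X` has a large exponential sum at the frequency `h / m`, where `h` is `a / r` modulo `m`. -/
def Fourier (L : ℝ) (m : ℕ) (X : Finset ℕ) : Prop :=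
  ∃ (a r : ℕ) (h : ℤ), 1 ≤ a ∧ (a : ℝ) ≤ L ∧ 1 ≤ r ∧ (r : ℝ) ≤ L ∧ (r : ℤ) * h ≡ a [ZMOD m] ∧
    (X.card : ℝ) ≤ L * ‖∑ x ∈ X, Complex.exp (2 * Real.pi * Complex.I * (h * x / m))‖

/-- `X` is uneven modulo `m` on a progression of `w` classes with the difference `d = r / s`. -/
def Uneven (L : ℝ) (m : ℕ) (X : Finset ℕ) : Prop :=
  ∃ (r s w : ℕ) (d u : ℤ), 1 ≤ r ∧ (r : ℝ) ≤ L ∧ 1 ≤ s ∧ (s : ℝ) ≤ L ∧ r.Coprime m ∧ s.Coprime m ∧
    (s : ℤ) * d ≡ r [ZMOD m] ∧ w ≤ m ∧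
    (X.card : ℝ) ≤ L * |((X.filter fun x : ℕ => ∃ i : ℕ, i < w ∧ (x : ℤ) ≡ u + i * d [ZMOD m]).card : ℝ) - (w : ℝ) / m * X.card|

theorem ee_eq (h : ℤ) (x m : ℕ) :
    Complex.exp (2 * Real.pi * Complex.I * (h * x / m)) = ee ((h : ℝ) * (x : ℝ) / m) := by
  unfold ee
  congr 1
  push_cast
  ring

/-- both kinds of unevenness, in one Fourier form with natural parameters -/
theorem to_fourier : ∃ C e : ℕ, 1 ≤ C ∧ ∀ (L m : ℕ) (X : Finset ℕ), 1 ≤ L → 1 ≤ m →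
    (Fourier L m X ∨ Uneven L m X) →
    ∃ (a r b : ℕ), 1 ≤ a ∧ a ≤ C * L ^ e ∧ 1 ≤ r ∧ r ≤ L ∧ b < r ∧
      (X.card : ℝ) ≤ ((C * L ^ e : ℕ) : ℝ) * ‖S (Zs r b X) ((a : ℝ) / m)‖ := by
  obtain ⟨C, e, hC, hu⟩ := uneven_fourier
  refine ⟨C, e + 2, hC, ?_⟩
  intro L m X hL hm hX
  obtain ⟨F, hF⟩ : ∃ F : ℕ, F = C * L ^ (e + 1) := ⟨_, rfl⟩
  have hLe1 : 1 ≤ C * L ^ e := Nat.one_le_iff_ne_zero.2 (by positivity)
  have hLF : L ≤ F := by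
    rw [hF]
    calc L = 1 * L := by ring
      _ ≤ C * L ^ e * L := Nat.mul_le_mul_right _ hLe1
      _ = C * L ^ (e + 1) := by ring
  have hFe : C * L ^ e ≤ F := by
    rw [hF]
    exact Nat.mul_le_mul_left _ (Nat.pow_le_pow_right hL (by omega))
  have hFL : F * L = C * L ^ (e + 2) := by rw [hF]; ring
  have hFF : F ≤ C * L ^ (e + 2) := by rw [← hFL]; exact Nat.le_mul_of_pos_right _ hL
  have key : ∃ (a r : ℕ) (h : ℤ), 1 ≤ a ∧ a ≤ F ∧ 1 ≤ r ∧ r ≤ L ∧ (r : ℤ) * h ≡ a [ZMOD m] ∧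
      (X.card : ℝ) ≤ (F : ℝ) * ‖∑ x ∈ X, ee ((h : ℝ) * (x : ℝ) / m)‖ := by
    rcases hX with ⟨a, r, h, ha1, ha2, hr1, hr2, hh, hS⟩ | ⟨r, s, w, d, u, hr1, hr2, hs1, hs2, hrm, hsm, hd, hw, hS⟩
    · have ha3 : a ≤ L := by exact_mod_cast ha2
      refine ⟨a, r, h, ha1, ha3.trans hLF, hr1, by exact_mod_cast hr2, hh, ?_⟩
      have e1 : ∑ x ∈ X, Complex.exp (2 * Real.pi * Complex.I * (h * x / m)) = ∑ x ∈ X, ee ((h : ℝ) * (x : ℝ) / m) :=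
        sum_congr rfl fun x _ => ee_eq h x m
      rw [e1] at hS
      refine hS.trans (mul_le_mul_of_nonneg_right ?_ (norm_nonneg _))
      exact_mod_cast hLF
    · obtain ⟨a, h, ha1, ha2, hh, hS'⟩ := hu L m r s w d u X hL hm hs1 (by exact_mod_cast hs2) hrm hsm hd hw hS
      refine ⟨a, r, h, ha1, ha2.trans hFe, hr1, by exact_mod_cast hr2, hh, ?_⟩
      refine hS'.trans (mul_le_mul_of_nonneg_right ?_ (norm_nonneg _))
      exact_mod_cast hFe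
  obtain ⟨a, r, h, ha1, ha2, hr1, hr2, hh, hS⟩ := key
  obtain ⟨b, hb1, hb2⟩ := fourier_bias m r a h X hm hr1 hh
  refine ⟨a, r, b, ha1, ha2.trans hFF, hr1, hr2, hb1, ?_⟩
  calc (X.card : ℝ) ≤ (F : ℝ) * ‖∑ x ∈ X, ee ((h : ℝ) * (x : ℝ) / m)‖ := hS
    _ ≤ (F : ℝ) * (r * ‖S (Zs r b X) ((a : ℝ) / m)‖) := mul_le_mul_of_nonneg_left hb2 (Nat.cast_nonneg _)
    _ ≤ (F : ℝ) * (L * ‖S (Zs r b X) ((a : ℝ) / m)‖) := by
        refine mul_le_mul_of_nonneg_left (mul_le_mul_of_nonneg_right ?_ (norm_nonneg _)) (Nat.cast_nonneg _)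
        exact_mod_cast hr2
    _ = ((C * L ^ (e + 2) : ℕ) : ℝ) * ‖S (Zs r b X) ((a : ℝ) / m)‖ := by
        rw [← hFL]
        push_cast
        ring

theorem finN (K : ℕ) : ∃ C e : ℕ, 1 ≤ C ∧ ∀ (L Q y : ℕ), 1 ≤ L → 1 ≤ Q → ∀ (M X : Finset ℕ),
    (∀ m ∈ M, Q < m ∧ m ≤ 2 * Q) → (∀ x ∈ X, y ≤ x ∧ x ≤ y + Q ^ K) → Q ≤ M.card * L →
    (∀ m ∈ M, Fourier L m X ∨ Uneven L m X) → X.card ≤ C * L ^ e * Q := by
  obtain ⟨C1, e1, hC1, h1⟩ := to_fourier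
  obtain ⟨C2, e2, hC2, h2⟩ := bmain (K + 1)
  refine ⟨2 * C2 * C1 ^ (e2 + 1), (e1 + 3) * (e2 + 1), Nat.one_le_iff_ne_zero.2 (by positivity), ?_⟩
  intro L Q y hL hQ M X hM hX hMc hb
  obtain ⟨G, hG⟩ : ∃ G : ℕ, G = C1 * L ^ e1 := ⟨_, rfl⟩
  have hG1 : 1 ≤ G := by rw [hG]; exact Nat.one_le_iff_ne_zero.2 (by positivity)
  obtain ⟨V, hV⟩ : ∃ V : ℕ, V = G * L ^ 3 := ⟨_, rfl⟩
  have hL3 : 1 ≤ L ^ 3 := Nat.one_le_pow _ _ hL
  have hGV : G ≤ V := by rw [hV]; exact Nat.le_mul_of_pos_right _ hL3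
  have hV1 : 1 ≤ V := hG1.trans hGV
  have hcon : 2 * C2 * C1 ^ (e2 + 1) * L ^ ((e1 + 3) * (e2 + 1)) = 2 * C2 * V ^ (e2 + 1) := by
    have hV' : V = C1 * L ^ (e1 + 3) := by rw [hV, hG]; ring
    rw [hV', mul_pow, ← pow_mul]
    ring
  rw [hcon]
  rcases Nat.lt_or_ge Q 2 with hQ2 | hQ2
  · have hQ1 : Q = 1 := by omega
    subst hQ1
    have h3 : X ⊆ Icc y (y + 1) := fun x hx => mem_Icc.2 (by simpa using hX x hx)
    have h4 := card_le_card h3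
    rw [Nat.card_Icc] at h4
    have h5 : 1 ≤ C2 * V ^ (e2 + 1) := Nat.one_le_iff_ne_zero.2 (by positivity)
    calc X.card ≤ 2 * 1 := by omega
      _ ≤ 2 * (C2 * V ^ (e2 + 1)) := Nat.mul_le_mul_left _ h5
      _ = 2 * C2 * V ^ (e2 + 1) * 1 := by ring
  -- pigeonhole
  obtain ⟨Ff, hFf⟩ : ∃ Ff : ℕ × ℕ × ℕ → Finset ℕ, Ff = fun t => M.filter fun m : ℕ =>
      (X.card : ℝ) ≤ (G : ℝ) * ‖S (Zs t.2.1 t.2.2 X) ((t.1 : ℝ) / m)‖ := ⟨_, rfl⟩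
  obtain ⟨Tr, hTr⟩ : ∃ Tr : Finset (ℕ × ℕ × ℕ), Tr = (Icc 1 G) ×ˢ (Icc 1 L) ×ˢ (range L) := ⟨_, rfl⟩
  have hTrc : Tr.card = G * (L * L) := by
    rw [hTr, card_product, card_product, Nat.card_Icc, Nat.card_Icc, card_range]
    simp
  have hcover : M ⊆ Tr.biUnion Ff := by
    intro m hm
    have hm1 : 1 ≤ m := by have := hM m hm; omega
    obtain ⟨a, r, b, ha1, ha2, hr1, hr2, hb1, hb2⟩ := h1 L m X hL hm1 (hb m hm)
    rw [mem_biUnion]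
    refine ⟨(a, r, b), ?_, ?_⟩
    · rw [hTr, mem_product, mem_product, mem_Icc, mem_Icc, mem_range]
      exact ⟨⟨ha1, by rw [hG]; exact ha2⟩, ⟨hr1, hr2⟩, by show b < L; omega⟩
    · rw [hFf, mem_filter]
      exact ⟨hm, by rw [hG]; exact hb2⟩
  have hTrne : Tr.Nonempty := by
    rw [← card_pos, hTrc]
    positivity
  have hpig : ∃ t ∈ Tr, M.card ≤ G * (L * L) * (Ff t).card := by
    by_contra hcon2
    push Not at hcon2
    have h3 : M.card ≤ ∑ t ∈ Tr, (Ff t).card := (card_le_card hcover).trans card_biUnion_le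
    have h4 : G * (L * L) * ∑ t ∈ Tr, (Ff t).card < ∑ _t ∈ Tr, M.card := by
      rw [Finset.mul_sum]
      exact Finset.sum_lt_sum_of_nonempty hTrne hcon2
    rw [Finset.sum_const, hTrc, smul_eq_mul] at h4
    exact absurd (Nat.mul_le_mul_left (G * (L * L)) h3) (not_le.2 h4)
  obtain ⟨⟨a, r, b⟩, ht, hMt⟩ := hpig
  rw [hTr, mem_product, mem_product, mem_Icc, mem_Icc, mem_range] at ht
  have ha1 : 1 ≤ a := ht.1.1
  have ha2 : a ≤ G := ht.1.2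
  have hr1 : 1 ≤ r := ht.2.1.1
  obtain ⟨M', hM'⟩ : ∃ M' : Finset ℕ, M' = Ff (a, r, b) := ⟨_, rfl⟩
  rw [← hM'] at hMt
  have hM'sub : M' ⊆ M := by rw [hM', hFf]; exact filter_subset _ _
  have hM'b : ∀ m ∈ M', (X.card : ℝ) ≤ (G : ℝ) * ‖S (Zs r b X) ((a : ℝ) / m)‖ := by
    intro m hm
    rw [hM', hFf] at hm
    exact (mem_filter.1 hm).2
  have hM'c : Q ≤ M'.card * V := by
    calc Q ≤ M.card * L := hMc
      _ ≤ G * (L * L) * M'.card * L := Nat.mul_le_mul_right _ hMt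
      _ = M'.card * V := by rw [hV]; ring
  obtain ⟨m0, hm0⟩ : M'.Nonempty := by
    rw [← card_pos]
    by_contra h3
    have h4 : M'.card = 0 := by omega
    rw [h4, zero_mul] at hM'c
    omega
  have hZX : ((Zs r b X).card : ℝ) ≤ X.card := by exact_mod_cast Zs_card_le r b X
  have hGVr : (G : ℝ) ≤ V := by exact_mod_cast hGV
  have hZ := h2 V Q a (y / r) hV1 ha1 (ha2.trans hGV) hQ M' (Zs r b X) (fun m hm => hM m (hM'sub hm)) hM'c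
    (fun m hm => hZX.trans ((hM'b m hm).trans (mul_le_mul_of_nonneg_right hGVr (norm_nonneg _))))
    (by
      intro t ht
      unfold Zs at ht
      obtain ⟨x, hx, rfl⟩ := mem_image.1 ht
      have h3 := hX x (mem_filter.1 hx).1
      refine ⟨Nat.div_le_div_right h3.1, ?_⟩
      have h4 : x / r ≤ (y + Q ^ K) / r := Nat.div_le_div_right h3.2
      have h5 : (y + Q ^ K) / r ≤ y / r + Q ^ K + 1 := by
        have h6 := Nat.div_add_mod y r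
        have h7 := Nat.mod_lt y hr1
        rw [Nat.div_le_iff_le_mul_add_pred hr1]
        have h8 : Q ^ K ≤ r * Q ^ K := Nat.le_mul_of_pos_left _ hr1
        have h9 : r * (y / r + Q ^ K + 1) = r * (y / r) + r * Q ^ K + r := by ring
        omega
      have h6 : Q ^ K + 1 < Q ^ (K + 1 + 1) := by
        have h7 : 1 ≤ Q ^ K := Nat.one_le_pow _ _ hQ
        have h8 : Q ^ (K + 1 + 1) = Q ^ K * (Q * Q) := by ring
        have h9 : 4 ≤ Q * Q := Nat.mul_le_mul hQ2 hQ2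
        have h10 : Q ^ K * 4 ≤ Q ^ K * (Q * Q) := Nat.mul_le_mul_left _ h9
        omega
      omega)
  have hXZ : X.card ≤ G * (Zs r b X).card := by
    have h3 : (X.card : ℝ) ≤ G * (Zs r b X).card :=
      (hM'b m0 hm0).trans (mul_le_mul_of_nonneg_left (S_norm_le _ _) (Nat.cast_nonneg _))
    exact_mod_cast h3
  calc X.card ≤ G * (Zs r b X).card := hXZ
    _ ≤ V * (C2 * V ^ e2 * Q) := Nat.mul_le_mul hGV hZ
    _ = 1 * C2 * V ^ (e2 + 1) * Q := by ring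
    _ ≤ 2 * C2 * V ^ (e2 + 1) * Q := by gcongr; omega

end Pool.Agent.H95.AT
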