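import Pool.Agent.H95.AT.FB

/-!
# [H95 AT Poly] Polynomial images: layers, values, the finite set of polynomials
-/

set_option autoImplicit false

open scoped Classical

namespace Pool.Agent.H95.AT

open Finset Pool.Agent.H24.AB Pool.Agent.H95.AS

/-- layer `j`: the values which `φ` takes more than `j` times on `X` -/
def lay (φ : ℕ → ℕ) (j : ℕ) (X : Finset ℕ) : Finset ℕ :=
  (X.image φ).filter fun v => j < (X.filter fun x => φ x = v).card

theorem lay_card_le (φ : ℕ → ℕ) (j : ℕ) (X : Finset ℕ) : (lay φ j X).card ≤ X.card :=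
  (card_le_card (filter_subset _ _)).trans card_image_le

theorem lay_sum (φ : ℕ → ℕ) (k : ℕ) (X : Finset ℕ) (hk : ∀ v, (X.filter fun x => φ x = v).card ≤ k) (F : ℕ → ℂ) :
    ∑ x ∈ X, F (φ x) = ∑ j ∈ range k, ∑ v ∈ lay φ j X, F v := by
  rw [Finset.sum_comp F φ]
  have h1 : ∀ j ∈ range k, ∑ v ∈ lay φ j X, F v =
      ∑ v ∈ X.image φ, if j < (X.filter fun x => φ x = v).card then F v else 0 := by
    intro j _
    unfold lay
    rw [Finset.sum_filter]
  rw [sum_congr rfl h1, Finset.sum_comm]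
  refine sum_congr rfl fun v _ => ?_
  rw [← Finset.sum_filter, Finset.sum_const]
  congr 1
  have h2 : (range k).filter (fun j => j < (X.filter fun x => φ x = v).card) = range (X.filter fun x => φ x = v).card := by
    ext j
    rw [mem_filter, mem_range, mem_range]
    have := hk v
    constructor
    · exact fun h => h.2
    · exact fun h => ⟨by omega, h⟩
  rw [h2, card_range]

theorem lay_exists (φ : ℕ → ℕ) (k : ℕ) (X : Finset ℕ) (hk1 : 1 ≤ k) (hk : ∀ v, (X.filter fun x => φ x = v).card ≤ k)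
    (F : ℕ → ℂ) : ∃ j : ℕ, j < k ∧ ‖∑ x ∈ X, F (φ x)‖ ≤ k * ‖∑ v ∈ lay φ j X, F v‖ := by
  by_contra hcon
  push Not at hcon
  have h2 : ‖∑ x ∈ X, F (φ x)‖ ≤ ∑ j ∈ range k, ‖∑ v ∈ lay φ j X, F v‖ := by
    rw [lay_sum φ k X hk F]
    exact norm_sum_le _ _
  have h3 : (k : ℝ) * ∑ j ∈ range k, ‖∑ v ∈ lay φ j X, F v‖ < ∑ _j ∈ range k, ‖∑ x ∈ X, F (φ x)‖ := by
    rw [Finset.mul_sum]
    exact Finset.sum_lt_sum_of_nonempty ⟨0, mem_range.2 (by omega)⟩ fun j hj => hcon j (mem_range.1 hj)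
  rw [Finset.sum_const, card_range, nsmul_eq_mul] at h3
  have hk0 : (0 : ℝ) < k := by exact_mod_cast hk1
  have h4 := lt_of_mul_lt_mul_left h3 hk0.le
  linarith

theorem fibre_le (g : Polynomial ℤ) (k : ℕ) (h1 : 1 ≤ g.natDegree) (h2 : g.natDegree ≤ k) (X : Finset ℕ) (v : ℤ) :
    (X.filter fun x : ℕ => g.eval (x : ℤ) = v).card ≤ k := by
  have hne : g - Polynomial.C v ≠ 0 := by
    intro h
    have h3 : g.natDegree = (g - Polynomial.C v).natDegree := (Polynomial.natDegree_sub_C).symm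
    rw [h, Polynomial.natDegree_zero] at h3
    omega
  have h3 : (X.filter fun x : ℕ => g.eval (x : ℤ) = v).card ≤ ((g - Polynomial.C v).roots.toFinset).card := by
    refine card_le_card_of_injOn (fun x : ℕ => (x : ℤ)) ?_ ?_
    · intro x hx
      have hx' := (mem_filter.1 hx).2
      show (x : ℤ) ∈ ((g - Polynomial.C v).roots.toFinset : Set ℤ)
      rw [mem_coe, Multiset.mem_toFinset, Polynomial.mem_roots hne, Polynomial.IsRoot.def, Polynomial.eval_sub,
        Polynomial.eval_C, hx', sub_self]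
    · intro x _ y _ hxy
      have hxy' : (x : ℤ) = (y : ℤ) := hxy
      exact_mod_cast hxy'
  refine h3.trans ((Multiset.toFinset_card_le _).trans ((Polynomial.card_roots' _).trans ?_))
  rw [Polynomial.natDegree_sub_C]
  exact h2

theorem value_le (g : Polynomial ℤ) (k L D : ℕ) (hD : 1 ≤ D) (h2 : g.natDegree ≤ k) (hL : ∀ i, |g.coeff i| ≤ (L : ℤ))
    (x : ℕ) (hx : x ≤ D) : |g.eval (x : ℤ)| ≤ (((k + 1) * L * D ^ k : ℕ) : ℤ) := by
  rw [Polynomial.eval_eq_sum_range' (Nat.lt_succ_of_le h2)]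
  refine (Finset.abs_sum_le_sum_abs _ _).trans ?_
  have h3 : ∀ i ∈ range (k + 1), |g.coeff i * (x : ℤ) ^ i| ≤ ((L * D ^ k : ℕ) : ℤ) := by
    intro i hi
    rw [abs_mul, abs_pow, Nat.abs_cast]
    push_cast
    have h4 : x ^ i ≤ D ^ k := by
      calc x ^ i ≤ D ^ i := Nat.pow_le_pow_left hx i
        _ ≤ D ^ k := Nat.pow_le_pow_right hD (by have := mem_range.1 hi; omega)
    have h5 : (x : ℤ) ^ i ≤ (D : ℤ) ^ k := by exact_mod_cast h4
    exact mul_le_mul (hL i) h5 (by positivity) (by positivity)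
  refine (Finset.sum_le_sum h3).trans (le_of_eq ?_)
  rw [Finset.sum_const, card_range, nsmul_eq_mul]
  push_cast
  ring

theorem polys (k L : ℕ) : ∃ P : Finset (Polynomial ℤ), P.card ≤ (2 * L + 1) ^ (k + 1) ∧
    ∀ g : Polynomial ℤ, g.natDegree ≤ k → (∀ i, |g.coeff i| ≤ (L : ℤ)) → g ∈ P := by
  refine ⟨(Fintype.piFinset (fun _ : Fin (k + 1) => Icc (-(L : ℤ)) L)).image
    (fun c => ∑ i : Fin (k + 1), Polynomial.monomial (i : ℕ) (c i)), ?_, ?_⟩
  · refine card_image_le.trans (le_of_eq ?_)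
    rw [Fintype.card_piFinset]
    simp only [Int.card_Icc, Finset.prod_const, Finset.card_univ, Fintype.card_fin]
    congr 1
    omega
  · intro g hg hc
    rw [mem_image]
    refine ⟨fun i => g.coeff i, ?_, ?_⟩
    · rw [Fintype.mem_piFinset]
      intro i
      rw [mem_Icc]
      exact abs_le.1 (hc i)
    · have h1 := Polynomial.as_sum_range' g (k + 1) (Nat.lt_succ_of_le hg)
      rw [Finset.sum_range] at h1
      exact h1.symm

theorem poly_uneven : ∃ C e : ℕ, 1 ≤ C ∧ ∀ (L m A w : ℕ) (u : ℤ) (z : ℕ → ℤ) (X : Finset ℕ), 1 ≤ L → 1 ≤ m →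
    A.Coprime m → w ≤ m →
    (X.card : ℝ) ≤ L * |((X.filter fun x : ℕ => ∃ i : ℕ, i < w ∧ z x ≡ A * (u + i) [ZMOD m]).card : ℝ) - (w : ℝ) / m * X.card| →
    ∃ (a : ℕ) (h : ℤ), 1 ≤ a ∧ a ≤ C * L ^ e ∧ (A : ℤ) * h ≡ 1 [ZMOD m] ∧
      (X.card : ℝ) ≤ ((C * L ^ e : ℕ) : ℝ) * ‖∑ x ∈ X, ee ((h : ℝ) * ((a * z x : ℤ) : ℝ) / m)‖ := by
  obtain ⟨C, e, hC, hb⟩ := bias2
  refine ⟨C, e, hC, ?_⟩
  intro L m A w u z X hL hm hAm hw hX
  obtain ⟨p, q, hp⟩ : IsCoprime (A : ℤ) (m : ℤ) := Nat.isCoprime_iff_coprime.2 hAm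
  have hpA : p * A ≡ 1 [ZMOD m] := by
    rw [← hp]
    exact (Int.modEq_iff_add_fac.2 ⟨q, by ring⟩)
  have hiff : ∀ (x i : ℤ), x ≡ A * (u + i) [ZMOD m] ↔ p * x ≡ u + i [ZMOD m] := by
    intro x i
    constructor
    · intro hx
      have e1 := (Int.ModEq.mul_left p hx)
      have e2 : p * (A * (u + i)) = (p * A) * (u + i) := by ring
      rw [e2] at e1
      have e3 := e1.trans (hpA.mul_right (u + i))
      simpa using e3
    · intro hx
      have e1 := Int.ModEq.mul_left (A : ℤ) hx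
      have e2 : (A : ℤ) * (p * x) = (p * A) * x := by ring
      rw [e2] at e1
      have e3 := (hpA.mul_right x).symm.trans e1
      simpa using e3
  have hfil : (X.filter fun x : ℕ => ∃ i : ℕ, i < w ∧ z x ≡ A * (u + i) [ZMOD m]) =
      X.filter fun x : ℕ => ∃ i : ℕ, i < w ∧ (fun x : ℕ => p * z x) x ≡ u + i [ZMOD m] := by
    refine filter_congr fun x _ => ?_
    refine exists_congr fun i => and_congr_right fun _ => ?_
    exact hiff _ _
  rw [hfil] at hX
  obtain ⟨a, ha1, ha2, ha3⟩ := hb L m w u X (fun x : ℕ => p * z x) hL hm hw hX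
  refine ⟨a, p, ha1, ha2, ?_, ?_⟩
  · rw [mul_comm]
    exact hpA
  · have e1 : ∑ x ∈ X, ee ((a : ℝ) * (((fun x : ℕ => p * z x) x : ℤ) : ℝ) / m) =
        ∑ x ∈ X, ee ((p : ℝ) * ((a * z x : ℤ) : ℝ) / m) := by
      refine sum_congr rfl fun x _ => ?_
      congr 1
      push_cast
      ring
    rw [e1] at ha3
    exact ha3

end Pool.Agent.H95.AT
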