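import Pool.Agent.H95.AT.Main2
import Pool.Agent.H95.AT.Poly

/-!
# [H95 AT Fin3] Polynomial images of large sets are equidistributed modulo almost all moduli of each small scale
-/

set_option autoImplicit false

open scoped Classical

namespace Pool.Agent.H95.AT

open Finset Pool.Agent.H24.AB Pool.Agent.H95.AS

/-- For some `f = g / A ∈ ℚ[x]` of height at most `L` and degree between `1` and `k`, the exponential sum of `f / m`
over `X` is at least `|X| / L` (`1 / A` is read modulo `m`: it is `h`). -/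
def Fourier3 (k : ℕ) (L : ℝ) (m : ℕ) (X : Finset ℕ) : Prop :=
  ∃ (g : Polynomial ℤ) (A : ℕ) (h : ℤ), 1 ≤ g.natDegree ∧ g.natDegree ≤ k ∧ (∀ i, |(g.coeff i : ℝ)| ≤ L) ∧
    1 ≤ A ∧ (A : ℝ) ≤ L ∧ (A : ℤ) * h ≡ 1 [ZMOD m] ∧
    (X.card : ℝ) ≤ L * ‖∑ x ∈ X, Complex.exp (2 * Real.pi * Complex.I * (h * g.eval (x : ℤ) / m))‖

/-- For some `f = g / A ∈ ℚ[x]` of height at most `L` and degree between `1` and `k`, `A` prime to `m`, and some interval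
of `w ≤ m` classes modulo `m`, the number of `x ∈ X` with `f(x)` in the interval differs from `(w / m) |X|` by at least `|X| / L`. -/
def Uneven3 (k : ℕ) (L : ℝ) (m : ℕ) (X : Finset ℕ) : Prop :=
  ∃ (g : Polynomial ℤ) (A w : ℕ) (u : ℤ), 1 ≤ g.natDegree ∧ g.natDegree ≤ k ∧ (∀ i, |(g.coeff i : ℝ)| ≤ L) ∧
    1 ≤ A ∧ (A : ℝ) ≤ L ∧ A.Coprime m ∧ w ≤ m ∧
    (X.card : ℝ) ≤ L * |((X.filter fun x : ℕ => ∃ i : ℕ, i < w ∧ g.eval (x : ℤ) ≡ A * (u + i) [ZMOD m]).card : ℝ) -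
      (w : ℝ) / m * X.card|

theorem ee_eq3 (h z : ℤ) (m : ℕ) :
    Complex.exp (2 * Real.pi * Complex.I * (h * z / m)) = ee ((h : ℝ) * (z : ℝ) / m) := by
  unfold ee
  congr 1
  push_cast
  ring

theorem uneven3 : ∃ C e : ℕ, 1 ≤ C ∧ ∀ (k L m : ℕ) (X : Finset ℕ), 1 ≤ L → 1 ≤ m →
    (Fourier3 k L m X ∨ Uneven3 k L m X) → Fourier3 k ((C * L ^ e : ℕ) : ℝ) m X := by
  obtain ⟨C, e, hC, hu⟩ := poly_uneven
  refine ⟨C, e + 1, hC, ?_⟩
  intro k L m X hL hm hX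
  have hE1 : 1 ≤ C * L ^ e := Nat.one_le_iff_ne_zero.2 (by positivity)
  have hEL : C * L ^ (e + 1) = (C * L ^ e) * L := by ring
  have hLr : (1 : ℝ) ≤ L := by exact_mod_cast hL
  have hE1r : (1 : ℝ) ≤ ((C * L ^ e : ℕ) : ℝ) := by exact_mod_cast hE1
  have hLe : (L : ℝ) ≤ ((C * L ^ (e + 1) : ℕ) : ℝ) := by
    rw [hEL]
    push_cast at hE1r ⊢
    nlinarith
  rcases hX with ⟨g, A, h, h1, h2, h3, h4, h5, h6, h7⟩ | ⟨g, A, w, u, h1, h2, h3, h4, h5, h6, h7, h8⟩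
  · exact ⟨g, A, h, h1, h2, fun i => (h3 i).trans hLe, h4, h5.trans hLe, h6,
      h7.trans (mul_le_mul_of_nonneg_right hLe (norm_nonneg _))⟩
  · obtain ⟨a, h, ha1, ha2, hh, hS⟩ := hu L m A w u (fun x : ℕ => g.eval (x : ℤ)) X hL hm h6 h7 h8
    have ha0 : (a : ℤ) ≠ 0 := by
      have : 0 < a := ha1
      exact_mod_cast this.ne'
    refine ⟨Polynomial.C (a : ℤ) * g, A, h, ?_, ?_, ?_, h4, h5.trans hLe, hh, ?_⟩
    · rw [Polynomial.natDegree_C_mul ha0]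
      exact h1
    · rw [Polynomial.natDegree_C_mul ha0]
      exact h2
    · intro i
      rw [Polynomial.coeff_C_mul]
      push_cast
      rw [abs_mul, Nat.abs_cast]
      have h9 : (a : ℝ) ≤ C * (L : ℝ) ^ e := by exact_mod_cast ha2
      calc (a : ℝ) * |(g.coeff i : ℝ)| ≤ (C * (L : ℝ) ^ e) * L :=
            mul_le_mul h9 (h3 i) (abs_nonneg _) (by positivity)
        _ = C * (L : ℝ) ^ (e + 1) := by ring
    · have e1 : ∑ x ∈ X, Complex.exp (2 * Real.pi * Complex.I * (h * (Polynomial.C (a : ℤ) * g).eval (x : ℤ) / m)) =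
          ∑ x ∈ X, ee ((h : ℝ) * ((a * g.eval (x : ℤ) : ℤ) : ℝ) / m) := by
        refine sum_congr rfl fun x _ => ?_
        rw [Polynomial.eval_mul, Polynomial.eval_C]
        exact ee_eq3 h _ m
      rw [e1]
      refine hS.trans (mul_le_mul_of_nonneg_right ?_ (norm_nonneg _))
      have : C * L ^ e ≤ C * L ^ (e + 1) := by
        rw [hEL]
        exact Nat.le_mul_of_pos_right _ hL
      exact_mod_cast this

/-- the shifted values -/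
def sh (g : Polynomial ℤ) (B : ℕ) (x : ℕ) : ℕ := (g.eval (x : ℤ) + B).toNat

theorem sh_bd (g : Polynomial ℤ) (k L D : ℕ) (hD : 1 ≤ D) (h2 : g.natDegree ≤ k) (hL : ∀ i, |g.coeff i| ≤ (L : ℤ))
    (x : ℕ) (hx : x ≤ D) : ((sh g ((k + 1) * L * D ^ k) x : ℕ) : ℤ) = g.eval (x : ℤ) + ((k + 1) * L * D ^ k : ℕ) ∧
      sh g ((k + 1) * L * D ^ k) x ≤ 2 * ((k + 1) * L * D ^ k) := by
  have h3 := value_le g k L D hD h2 hL x hx
  rw [abs_le] at h3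
  have h4 : ((sh g ((k + 1) * L * D ^ k) x : ℕ) : ℤ) = g.eval (x : ℤ) + ((k + 1) * L * D ^ k : ℕ) := by
    unfold sh
    exact Int.toNat_of_nonneg (by linarith [h3.1])
  refine ⟨h4, ?_⟩
  have h5 : ((sh g ((k + 1) * L * D ^ k) x : ℕ) : ℤ) ≤ ((2 * ((k + 1) * L * D ^ k) : ℕ) : ℤ) := by
    rw [h4]
    generalize (k + 1) * L * D ^ k = B at h3 ⊢
    push_cast
    linarith [h3.2]
  exact_mod_cast h5

/-- a Fourier witness in terms of the sets `Zs A b (lay (sh g B) j X)` -/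
theorem fourier_set (k L m D : ℕ) (hm : 1 ≤ m) (hD : 1 ≤ D) (X : Finset ℕ) (hX : ∀ x ∈ X, x ≤ D)
    (hF : Fourier3 k L m X) :
    ∃ (g : Polynomial ℤ) (A j b : ℕ), 1 ≤ g.natDegree ∧ g.natDegree ≤ k ∧ (∀ i, |g.coeff i| ≤ (L : ℤ)) ∧
      1 ≤ A ∧ A ≤ L ∧ j < k ∧ b < A ∧
      (X.card : ℝ) ≤ ((k * L ^ 2 : ℕ) : ℝ) * ‖S (Zs A b (lay (sh g ((k + 1) * L * D ^ k)) j X)) (((1 : ℕ) : ℝ) / m)‖ := by
  obtain ⟨g, A, h, h1, h2, h3, h4, h5, h6, h7⟩ := hF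
  have h3' : ∀ i, |g.coeff i| ≤ (L : ℤ) := fun i => by exact_mod_cast h3 i
  have hk : 1 ≤ k := h1.trans h2
  have hAL : A ≤ L := by exact_mod_cast h5
  obtain ⟨B, hB⟩ : ∃ B : ℕ, B = (k + 1) * L * D ^ k := ⟨_, rfl⟩
  have hsh : ∀ x ∈ X, ((sh g B x : ℕ) : ℤ) = g.eval (x : ℤ) + (B : ℕ) := by
    intro x hx
    rw [hB]
    exact (sh_bd g k L D hD h2 h3' x (hX x hx)).1
  have e1 : ∑ x ∈ X, ee ((h : ℝ) * ((sh g B x : ℕ) : ℝ) / m) = ee ((h : ℝ) * B / m) *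
      ∑ x ∈ X, Complex.exp (2 * Real.pi * Complex.I * (h * g.eval (x : ℤ) / m)) := by
    rw [Finset.mul_sum]
    refine sum_congr rfl fun x hx => ?_
    rw [ee_eq3, ← ee_add]
    congr 1
    have h8 : ((sh g B x : ℕ) : ℝ) = ((g.eval (x : ℤ) : ℤ) : ℝ) + B := by exact_mod_cast hsh x hx
    rw [h8]
    ring
  have hfib : ∀ v, (X.filter fun x => sh g B x = v).card ≤ k := by
    intro v
    refine le_trans (card_le_card ?_) (fibre_le g k h1 h2 X ((v : ℤ) - B))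
    intro x hx
    obtain ⟨hx1, hx2⟩ := mem_filter.1 hx
    rw [mem_filter]
    refine ⟨hx1, ?_⟩
    have h8 := hsh x hx1
    rw [hx2] at h8
    linarith
  obtain ⟨j, hj1, hj2⟩ := lay_exists (sh g B) k X hk hfib (fun v => ee ((h : ℝ) * (v : ℝ) / m))
  obtain ⟨b, hb1, hb2⟩ := fourier_bias m A 1 h (lay (sh g B) j X) hm h4 (by exact_mod_cast h6)
  refine ⟨g, A, j, b, h1, h2, h3', h4, hAL, hj1, hb1, ?_⟩
  rw [← hB]
  have h9 : ‖∑ x ∈ X, Complex.exp (2 * Real.pi * Complex.I * (h * g.eval (x : ℤ) / m))‖ =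
      ‖∑ x ∈ X, ee ((h : ℝ) * ((sh g B x : ℕ) : ℝ) / m)‖ := by
    rw [e1, norm_mul, ee_norm, one_mul]
  have hALr : (A : ℝ) ≤ L := by exact_mod_cast hAL
  calc (X.card : ℝ) ≤ L * ‖∑ x ∈ X, ee ((h : ℝ) * ((sh g B x : ℕ) : ℝ) / m)‖ := by rw [← h9]; exact h7
    _ ≤ L * (k * ‖∑ v ∈ lay (sh g B) j X, ee ((h : ℝ) * (v : ℝ) / m)‖) :=
        mul_le_mul_of_nonneg_left hj2 (Nat.cast_nonneg _)
    _ ≤ L * (k * (L * ‖S (Zs A b (lay (sh g B) j X)) (((1 : ℕ) : ℝ) / m)‖)) := by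
        refine mul_le_mul_of_nonneg_left (mul_le_mul_of_nonneg_left ?_ (Nat.cast_nonneg _)) (Nat.cast_nonneg _)
        exact hb2.trans (mul_le_mul_of_nonneg_right hALr (norm_nonneg _))
    _ = ((k * L ^ 2 : ℕ) : ℝ) * ‖S (Zs A b (lay (sh g B) j X)) (((1 : ℕ) : ℝ) / m)‖ := by
        push_cast
        ring

theorem fin3N (K k : ℕ) : ∃ C e : ℕ, 1 ≤ C ∧ ∀ (L Q : ℕ), 1 ≤ L → 1 ≤ Q → ∀ (M X : Finset ℕ),
    (∀ m ∈ M, Q < m ∧ m ≤ 2 * Q) → (∀ x ∈ X, x ≤ Q ^ K) → Q ≤ M.card * L →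
    (∀ m ∈ M, Fourier3 k L m X) → X.card ≤ C * L ^ e * Q := by
  obtain ⟨C2, e2, hC2, h2⟩ := bmain (K * k + k + 2)
  obtain ⟨W, hW⟩ : ∃ W : ℕ, W = 3 ^ (k + 1) * (k + 1) ^ 2 := ⟨_, rfl⟩
  have hW1 : 1 ≤ W := by rw [hW]; exact Nat.one_le_iff_ne_zero.2 (by positivity)
  have hC1 : 1 ≤ C2 * W ^ (e2 + 1) := Nat.one_le_iff_ne_zero.2 (by positivity)
  refine ⟨2 * (C2 * W ^ (e2 + 1)), (k + 6) * (e2 + 1) + K, by omega, ?_⟩
  intro L Q hL hQ M X hM hX hMc hb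
  have hLe : 1 ≤ L ^ ((k + 6) * (e2 + 1)) := Nat.one_le_pow _ _ hL
  have hLK : 1 ≤ L ^ K := Nat.one_le_pow _ _ hL
  have hQK : 1 ≤ Q ^ K := Nat.one_le_pow _ _ hQ
  have htriv : X.card ≤ 2 * Q ^ K := by
    have h3 : X ⊆ Icc 0 (Q ^ K) := fun x hx => mem_Icc.2 ⟨Nat.zero_le _, hX x hx⟩
    have h4 := card_le_card h3
    rw [Nat.card_Icc] at h4
    omega
  rcases Nat.lt_or_ge Q L with hQL | hLQ
  · refine htriv.trans ?_
    calc 2 * Q ^ K = 2 * 1 * (1 * Q ^ K) * 1 := by ring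
      _ ≤ 2 * (C2 * W ^ (e2 + 1)) * (L ^ ((k + 6) * (e2 + 1)) * L ^ K) * Q := by gcongr
      _ = 2 * (C2 * W ^ (e2 + 1)) * L ^ ((k + 6) * (e2 + 1) + K) * Q := by rw [pow_add L]
  have hCL : 1 ≤ C2 * W ^ (e2 + 1) * L ^ ((k + 6) * (e2 + 1) + K) := Nat.one_le_iff_ne_zero.2 (by positivity)
  rcases Nat.lt_or_ge Q 2 with hQ2 | hQ2
  · have hQ1 : Q = 1 := by omega
    subst hQ1
    refine htriv.trans ?_
    calc 2 * 1 ^ K = 2 * 1 := by rw [one_pow]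
      _ ≤ 2 * (C2 * W ^ (e2 + 1) * L ^ ((k + 6) * (e2 + 1) + K)) := Nat.mul_le_mul_left _ hCL
      _ = 2 * (C2 * W ^ (e2 + 1)) * L ^ ((k + 6) * (e2 + 1) + K) * 1 := by ring
  -- `k ≥ 1`
  obtain ⟨m1, hm1⟩ : M.Nonempty := by
    rw [← card_pos]
    by_contra h3
    have h4 : M.card = 0 := by omega
    rw [h4, zero_mul] at hMc
    omega
  have hk : 1 ≤ k := by
    obtain ⟨g, _, _, h3, h4, _⟩ := hb m1 hm1
    exact h3.trans h4
  obtain ⟨P, hP1, hP2, hP3⟩ : ∃ P : Finset (Polynomial ℤ), P.card ≤ (2 * L + 1) ^ (k + 1) ∧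
      (∀ g : Polynomial ℤ, g.natDegree ≤ k → (∀ i, |g.coeff i| ≤ (L : ℤ)) → g ∈ P) ∧
      ∀ g ∈ P, g.natDegree ≤ k ∧ ∀ i, |g.coeff i| ≤ (L : ℤ) := by
    obtain ⟨P, hP1, hP2⟩ := polys k L
    refine ⟨P.filter fun g => g.natDegree ≤ k ∧ ∀ i, |g.coeff i| ≤ (L : ℤ),
      (card_le_card (filter_subset _ _)).trans hP1, fun g h3 h4 => mem_filter.2 ⟨hP2 g h3 h4, h3, h4⟩,
      fun g hg => (mem_filter.1 hg).2⟩
  obtain ⟨G, hG⟩ : ∃ G : ℕ, G = k * L ^ 2 := ⟨_, rfl⟩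
  obtain ⟨V, hV⟩ : ∃ V : ℕ, V = W * L ^ (k + 6) := ⟨_, rfl⟩
  have hV1 : 1 ≤ V := by rw [hV]; exact Nat.one_le_iff_ne_zero.2 (by positivity)
  obtain ⟨B, hB⟩ : ∃ B : ℕ, B = (k + 1) * L * (Q ^ K) ^ k := ⟨_, rfl⟩
  have hGV : G ≤ V := by
    rw [hG, hV, hW]
    calc k * L ^ 2 = 1 * k * L ^ 2 := by ring
      _ ≤ 3 ^ (k + 1) * (k + 1) ^ 2 * L ^ (k + 6) := by
          have h3 : 1 ≤ 3 ^ (k + 1) := Nat.one_le_pow _ _ (by norm_num)
          have h4 : k ≤ (k + 1) ^ 2 := by nlinarith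
          have h5 : L ^ 2 ≤ L ^ (k + 6) := Nat.pow_le_pow_right hL (by omega)
          exact Nat.mul_le_mul (Nat.mul_le_mul h3 h4) h5
  -- pigeonhole
  obtain ⟨Ff, hFf⟩ : ∃ Ff : Polynomial ℤ × ℕ × ℕ × ℕ → Finset ℕ, Ff = fun t => M.filter fun m : ℕ =>
      (X.card : ℝ) ≤ (G : ℝ) * ‖S (Zs t.2.1 t.2.2.2 (lay (sh t.1 B) t.2.2.1 X)) (((1 : ℕ) : ℝ) / m)‖ := ⟨_, rfl⟩
  obtain ⟨Tr, hTr⟩ : ∃ Tr : Finset (Polynomial ℤ × ℕ × ℕ × ℕ), Tr = P ×ˢ (Icc 1 L) ×ˢ (range k) ×ˢ (range L) := ⟨_, rfl⟩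
  have hTrc : Tr.card ≤ (3 * L) ^ (k + 1) * (L * (k * L)) := by
    rw [hTr, card_product, card_product, card_product, Nat.card_Icc, card_range, card_range, Nat.add_sub_cancel]
    refine Nat.mul_le_mul (hP1.trans (Nat.pow_le_pow_left (by omega) _)) le_rfl
  have hcover : M ⊆ Tr.biUnion Ff := by
    intro m hm
    have hm1 : 1 ≤ m := by have := hM m hm; omega
    obtain ⟨g, A, j, b, h3, h4, h5, h6, h7, h8, h9, h10⟩ := fourier_set k L m (Q ^ K) hm1 hQK X hX (hb m hm)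
    rw [mem_biUnion]
    refine ⟨(g, A, j, b), ?_, ?_⟩
    · rw [hTr, mem_product, mem_product, mem_product, mem_Icc, mem_range, mem_range]
      exact ⟨hP2 g h4 h5, ⟨h6, h7⟩, h8, by show b < L; omega⟩
    · rw [hFf, mem_filter, hG, hB]
      exact ⟨hm, h10⟩
  have hTrne : Tr.Nonempty := by
    by_contra h3
    rw [not_nonempty_iff_eq_empty] at h3
    rw [h3] at hcover
    have h4 := hcover hm1
    simp at h4
  have hpig : ∃ t ∈ Tr, M.card ≤ Tr.card * (Ff t).card := by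
    by_contra hcon2
    push Not at hcon2
    have h3 : M.card ≤ ∑ t ∈ Tr, (Ff t).card := (card_le_card hcover).trans card_biUnion_le
    have h4 : Tr.card * ∑ t ∈ Tr, (Ff t).card < ∑ _t ∈ Tr, M.card := by
      rw [Finset.mul_sum]
      exact Finset.sum_lt_sum_of_nonempty hTrne hcon2
    rw [Finset.sum_const, smul_eq_mul] at h4
    exact absurd (Nat.mul_le_mul_left Tr.card h3) (not_le.2 h4)
  obtain ⟨⟨g, A, j, b⟩, ht, hMt⟩ := hpig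
  obtain ⟨M', hM'⟩ : ∃ M' : Finset ℕ, M' = Ff (g, A, j, b) := ⟨_, rfl⟩
  obtain ⟨Z, hZdef⟩ : ∃ Z : Finset ℕ, Z = Zs A b (lay (sh g B) j X) := ⟨_, rfl⟩
  rw [← hM'] at hMt
  have hM'sub : M' ⊆ M := by rw [hM', hFf]; exact filter_subset _ _
  have hM'b : ∀ m ∈ M', (X.card : ℝ) ≤ (G : ℝ) * ‖S Z (((1 : ℕ) : ℝ) / m)‖ := by
    intro m hm
    rw [hM', hFf] at hm
    rw [hZdef]
    exact (mem_filter.1 hm).2
  have hTL : Tr.card * L ≤ V := by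
    calc Tr.card * L ≤ (3 * L) ^ (k + 1) * (L * (k * L)) * L := Nat.mul_le_mul_right _ hTrc
      _ = 3 ^ (k + 1) * k * L ^ (k + 4) := by rw [mul_pow]; ring
      _ ≤ 3 ^ (k + 1) * (k + 1) ^ 2 * L ^ (k + 6) := by
          have h4 : k ≤ (k + 1) ^ 2 := by nlinarith
          have h5 : L ^ (k + 4) ≤ L ^ (k + 6) := Nat.pow_le_pow_right hL (by omega)
          exact Nat.mul_le_mul (Nat.mul_le_mul_left _ h4) h5
      _ = V := by rw [hV, hW]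
  have hM'c : Q ≤ M'.card * V := by
    calc Q ≤ M.card * L := hMc
      _ ≤ Tr.card * M'.card * L := Nat.mul_le_mul_right _ hMt
      _ = M'.card * (Tr.card * L) := by ring
      _ ≤ M'.card * V := Nat.mul_le_mul_left _ hTL
  obtain ⟨m0, hm0⟩ : M'.Nonempty := by
    rw [← card_pos]
    by_contra h3
    have h4 : M'.card = 0 := by omega
    rw [h4, zero_mul] at hM'c
    omega
  -- a polynomial of the pigeonhole class
  have hZX : (Z.card : ℝ) ≤ X.card := by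
    rw [hZdef]
    exact_mod_cast (Zs_card_le A b _).trans (lay_card_le _ _ _)
  have hGVr : (G : ℝ) ≤ V := by exact_mod_cast hGV
  have hgP : g ∈ P := by
    rw [hTr, mem_product] at ht
    exact ht.1
  have hZr : ∀ t ∈ Z, 0 ≤ t ∧ t < 0 + Q ^ (K * k + k + 2 + 1) := by
    intro t ht
    refine ⟨Nat.zero_le _, ?_⟩
    rw [zero_add]
    rw [hZdef] at ht
    unfold Zs at ht
    obtain ⟨v, hv, rfl⟩ := mem_image.1 ht
    have hv1 := (mem_filter.1 hv).1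
    unfold lay at hv1
    obtain ⟨x, hx, rfl⟩ := mem_image.1 (mem_filter.1 hv1).1
    have h3 := (sh_bd g k L (Q ^ K) hQK (hP3 g hgP).1 (hP3 g hgP).2 x (hX x hx)).2
    rw [← hB] at h3
    have h4 : sh g B x / A ≤ sh g B x := Nat.div_le_self _ _
    have h5 : 2 * B < Q ^ (K * k + k + 2 + 1) := by
      have h6 : k + 1 ≤ 2 ^ k := Nat.lt_two_pow_self
      have h7 : 2 ^ (k + 1) ≤ Q ^ (k + 1) := Nat.pow_le_pow_left hQ2 _
      have h8 : 1 ≤ Q ^ (K * k + k + 2) := Nat.one_le_pow _ _ hQ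
      calc 2 * B = 2 * (k + 1) * L * (Q ^ K) ^ k := by rw [hB]; ring
        _ ≤ 2 * 2 ^ k * Q * (Q ^ K) ^ k := by gcongr
        _ = 2 ^ (k + 1) * Q * Q ^ (K * k) := by rw [← pow_mul]; ring
        _ ≤ Q ^ (k + 1) * Q * Q ^ (K * k) := by gcongr
        _ = Q ^ (K * k + k + 2) := by ring
        _ < Q ^ (K * k + k + 2 + 1) := Nat.pow_lt_pow_right (by omega) (by omega)
    omega
  have hZ := h2 V Q 1 0 hV1 le_rfl hV1 hQ M' Z (fun m hm => hM m (hM'sub hm)) hM'c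
    (fun m hm => hZX.trans ((hM'b m hm).trans (mul_le_mul_of_nonneg_right hGVr (norm_nonneg _)))) hZr
  have hXZ : X.card ≤ G * Z.card := by
    have h3 : (X.card : ℝ) ≤ G * Z.card :=
      (hM'b m0 hm0).trans (mul_le_mul_of_nonneg_left (S_norm_le _ _) (Nat.cast_nonneg _))
    exact_mod_cast h3
  calc X.card ≤ G * Z.card := hXZ
    _ ≤ V * (C2 * V ^ e2 * Q) := Nat.mul_le_mul hGV hZ
    _ = 1 * (C2 * W ^ (e2 + 1)) * (L ^ ((k + 6) * (e2 + 1)) * 1) * Q := by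
        rw [hV, mul_pow, pow_mul L (k + 6) (e2 + 1), pow_succ (L ^ (k + 6)) e2, pow_succ W e2]
        ring
    _ ≤ 2 * (C2 * W ^ (e2 + 1)) * (L ^ ((k + 6) * (e2 + 1)) * L ^ K) * Q := by gcongr; omega
    _ = 2 * (C2 * W ^ (e2 + 1)) * L ^ ((k + 6) * (e2 + 1) + K) * Q := by rw [pow_add L]

end Pool.Agent.H95.AT
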