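import Pool.Agent.H95.AT.Fin3

/-!
# [H95 AT Fin4] Polynomial images of large sets: the final form
-/

set_option autoImplicit false

open scoped Classical

namespace Pool.Agent.H95.AT

open Finset

theorem Fourier3.mono {k m : ℕ} {L L' : ℝ} {X : Finset ℕ} (hL : L ≤ L') (h : Fourier3 k L m X) : Fourier3 k L' m X := by
  obtain ⟨g, A, h, h1, h2, h3, h4, h5, h6, h7⟩ := h
  exact ⟨g, A, h, h1, h2, fun i => (h3 i).trans hL, h4, h5.trans hL, h6,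
    h7.trans (mul_le_mul_of_nonneg_right hL (norm_nonneg _))⟩

theorem Uneven3.mono {k m : ℕ} {L L' : ℝ} {X : Finset ℕ} (hL : L ≤ L') (h : Uneven3 k L m X) : Uneven3 k L' m X := by
  obtain ⟨g, A, w, u, h1, h2, h3, h4, h5, h6, h7, h8⟩ := h
  exact ⟨g, A, w, u, h1, h2, fun i => (h3 i).trans hL, h4, h5.trans hL, h6, h7,
    h8.trans (mul_le_mul_of_nonneg_right hL (abs_nonneg _))⟩

theorem fin4a (k K : ℕ) : ∃ C e : ℕ, ∀ (L : ℝ) (Q : ℕ), 1 ≤ L → 1 ≤ Q → ∀ (M X : Finset ℕ),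
    (∀ m ∈ M, Q < m ∧ m ≤ 2 * Q) → (∀ x ∈ X, x ≤ Q ^ K) → (Q : ℝ) ≤ L * M.card →
    (∀ m ∈ M, Uneven3 k L m X ∨ Fourier3 k L m X) → (X.card : ℝ) ≤ C * L ^ e * Q := by
  obtain ⟨C1, e1, hC1, h1⟩ := uneven3
  obtain ⟨C2, e2, hC2, h2⟩ := fin3N K k
  refine ⟨C2 * C1 ^ e2 * 2 ^ (e1 * e2 + e2), e1 * e2 + e2, ?_⟩
  intro L Q hL hQ M X hM hX hMc hb
  obtain ⟨n, hn⟩ : ∃ n : ℕ, n = ⌈L⌉₊ := ⟨_, rfl⟩
  have hLn : L ≤ n := by rw [hn]; exact Nat.le_ceil L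
  have hn2 : (n : ℝ) ≤ 2 * L := by
    have := Nat.ceil_lt_add_one (by linarith : (0 : ℝ) ≤ L)
    rw [← hn] at this
    linarith
  have hn1 : 1 ≤ n := by
    have : (1 : ℝ) ≤ n := hL.trans hLn
    exact_mod_cast this
  have hV1 : 1 ≤ C1 * n ^ (e1 + 1) := Nat.one_le_iff_ne_zero.2 (by positivity)
  have hnV : n ≤ C1 * n ^ (e1 + 1) := by
    calc n = 1 * 1 * n := by ring
      _ ≤ C1 * n ^ e1 * n := by
          have : 1 ≤ n ^ e1 := Nat.one_le_pow _ _ hn1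
          gcongr
      _ = C1 * n ^ (e1 + 1) := by ring
  have hle : ((C1 * n ^ e1 : ℕ) : ℝ) ≤ ((C1 * n ^ (e1 + 1) : ℕ) : ℝ) := by
    have : C1 * n ^ e1 ≤ C1 * n ^ (e1 + 1) := Nat.mul_le_mul_left _ (Nat.pow_le_pow_right hn1 (by omega))
    exact_mod_cast this
  have hMn : Q ≤ M.card * (C1 * n ^ (e1 + 1)) := by
    have h3 : (Q : ℝ) ≤ M.card * n := by
      calc (Q : ℝ) ≤ L * M.card := hMc
        _ ≤ n * M.card := mul_le_mul_of_nonneg_right hLn (Nat.cast_nonneg _)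
        _ = M.card * n := mul_comm _ _
    have h4 : Q ≤ M.card * n := by exact_mod_cast h3
    exact h4.trans (Nat.mul_le_mul_left _ hnV)
  have h3 := h2 (C1 * n ^ (e1 + 1)) Q hV1 hQ M X hM hX hMn (fun m hm => by
    have hm1 : 1 ≤ m := by have := hM m hm; omega
    have h4 : Fourier3 k (n : ℝ) m X ∨ Uneven3 k (n : ℝ) m X := by
      rcases hb m hm with h5 | h5
      · exact Or.inr (h5.mono hLn)
      · exact Or.inl (h5.mono hLn)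
    exact (h1 k n m X hn1 hm1 h4).mono hle)
  have h5 : (X.card : ℝ) ≤ C2 * ((C1 : ℝ) * (n : ℝ) ^ (e1 + 1)) ^ e2 * Q := by exact_mod_cast h3
  calc (X.card : ℝ) ≤ C2 * ((C1 : ℝ) * (n : ℝ) ^ (e1 + 1)) ^ e2 * Q := h5
    _ = C2 * (C1 : ℝ) ^ e2 * (n : ℝ) ^ (e1 * e2 + e2) * Q := by
        rw [mul_pow, ← pow_mul]
        ring
    _ ≤ C2 * (C1 : ℝ) ^ e2 * (2 * L) ^ (e1 * e2 + e2) * Q := by gcongr
    _ = ((C2 * C1 ^ e2 * 2 ^ (e1 * e2 + e2) : ℕ) : ℝ) * L ^ (e1 * e2 + e2) * Q := by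
        rw [mul_pow]
        push_cast
        ring

theorem fin4b (k : ℕ) (ε η : ℝ) (hη : 0 < η) :
    ∃ δ C : ℝ, 0 < δ ∧ 0 < C ∧ ∀ (N Q : ℕ) (X : Finset ℕ), X ⊆ Icc 1 N →
      (N : ℝ) ^ η ≤ Q → (Q : ℝ) ≤ (N : ℝ) ^ (ε - η) →
      (N : ℝ) ^ (-δ) * Q ≤
        ((Ioc Q (2 * Q)).filter fun m => Uneven3 k ((N : ℝ) ^ δ) m X ∨ Fourier3 k ((N : ℝ) ^ δ) m X).card →
      (X.card : ℝ) ≤ C * (N : ℝ) ^ ε := by
  obtain ⟨K, hK⟩ : ∃ K : ℕ, K = ⌈1 / η⌉₊ := ⟨_, rfl⟩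
  have hKη : 1 ≤ η * K := by
    have h1 : 1 / η ≤ K := by rw [hK]; exact Nat.le_ceil _
    rw [div_le_iff₀ hη] at h1
    linarith
  obtain ⟨C, e, h⟩ := fin4a k K
  refine ⟨η / (e + 1), C + 1, by positivity, by positivity, ?_⟩
  intro N Q X hX hQ1 hQ2 hcount
  rcases Nat.eq_zero_or_pos N with hN | hN
  · subst hN
    have h1 : X = ∅ := by
      rw [← subset_empty]
      refine hX.trans ?_
      simp
    rw [h1, card_empty, Nat.cast_zero]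
    positivity
  have hN1 : (1 : ℝ) ≤ N := by exact_mod_cast hN
  have hN0 : (0 : ℝ) < N := by linarith
  have hQr1 : (1 : ℝ) ≤ Q := (Real.one_le_rpow hN1 hη.le).trans hQ1
  have hQn1 : 1 ≤ Q := by exact_mod_cast hQr1
  have hL1 : (1 : ℝ) ≤ (N : ℝ) ^ (η / (e + 1)) := Real.one_le_rpow hN1 (by positivity)
  have hNK : N ≤ Q ^ K := by
    have h1 : (N : ℝ) ≤ (Q : ℝ) ^ K := by
      calc (N : ℝ) = (N : ℝ) ^ (1 : ℝ) := (Real.rpow_one _).symm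
        _ ≤ (N : ℝ) ^ (η * K) := Real.rpow_le_rpow_of_exponent_le hN1 hKη
        _ = ((N : ℝ) ^ η) ^ K := by rw [Real.rpow_mul hN0.le, Real.rpow_natCast]
        _ ≤ (Q : ℝ) ^ K := pow_le_pow_left₀ (by positivity) hQ1 K
    exact_mod_cast h1
  have h2 := h ((N : ℝ) ^ (η / (e + 1))) Q hL1 hQn1
    ((Ioc Q (2 * Q)).filter fun m => Uneven3 k ((N : ℝ) ^ (η / (e + 1))) m X ∨ Fourier3 k ((N : ℝ) ^ (η / (e + 1))) m X) X
    (fun m hm => mem_Ioc.1 (mem_filter.1 hm).1)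
    (fun x hx => (mem_Icc.1 (hX hx)).2.trans hNK)
    (by
      have h3 : (N : ℝ) ^ (η / (e + 1)) * ((N : ℝ) ^ (-(η / (e + 1))) * Q) = Q := by
        rw [← mul_assoc, ← Real.rpow_add hN0, add_neg_cancel, Real.rpow_zero, one_mul]
      rw [← h3]
      exact mul_le_mul_of_nonneg_left hcount (by positivity))
    (fun m hm => (mem_filter.1 hm).2)
  have h4 : ((N : ℝ) ^ (η / (e + 1))) ^ e ≤ (N : ℝ) ^ η := by
    rw [← Real.rpow_natCast, ← Real.rpow_mul hN0.le]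
    refine Real.rpow_le_rpow_of_exponent_le hN1 ?_
    rw [div_mul_eq_mul_div, div_le_iff₀ (by positivity)]
    nlinarith
  calc (X.card : ℝ) ≤ C * ((N : ℝ) ^ (η / (e + 1))) ^ e * Q := h2
    _ ≤ (C + 1) * (N : ℝ) ^ η * (N : ℝ) ^ (ε - η) := by
        have h5 : (C : ℝ) ≤ C + 1 := by linarith
        gcongr
    _ = (C + 1) * (N : ℝ) ^ ε := by
        rw [mul_assoc, ← Real.rpow_add hN0]
        congr 2
        ring

end Pool.Agent.H95.AT
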