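import Pool.Agent.H95.AT.Main3
import Pool.Agent.H95.AT.Fin3

/-!
# [H95 AT Fin5] Polynomial images of large sets: the inverse theorem
-/

set_option autoImplicit false

open scoped Classical

namespace Pool.Agent.H95.AT

open Finset Pool.Agent.H24.AB Pool.Agent.H95.AS

/-- a large exponential sum at the frequency `a / A` modulo `m` -/
def Four5 (k L L' m : ℕ) (X : Finset ℕ) : Prop :=
  ∃ (g : Polynomial ℤ) (A a : ℕ) (h : ℤ), 1 ≤ g.natDegree ∧ g.natDegree ≤ k ∧ (∀ i, |g.coeff i| ≤ (L : ℤ)) ∧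
    1 ≤ A ∧ A ≤ L ∧ 1 ≤ a ∧ a ≤ L' ∧ (A : ℤ) * h ≡ a [ZMOD m] ∧
    (X.card : ℝ) ≤ L' * ‖∑ x ∈ X, ee ((h : ℝ) * ((g.eval (x : ℤ) : ℤ) : ℝ) / m)‖

theorem to_four5 : ∃ C e : ℕ, 1 ≤ C ∧ ∀ (k L m : ℕ) (X : Finset ℕ), 1 ≤ L → 1 ≤ m →
    (Fourier3 k L m X ∨ Uneven3 k L m X) → Four5 k L (C * L ^ (e + 1)) m X := by
  obtain ⟨C, e, hC, hu⟩ := poly_uneven
  refine ⟨C, e, hC, ?_⟩
  intro k L m X hL hm hX
  have hE1 : 1 ≤ C * L ^ (e + 1) := Nat.one_le_iff_ne_zero.2 (by positivity)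
  have hLe : L ≤ C * L ^ (e + 1) := by
    calc L = 1 * 1 * L := by ring
      _ ≤ C * L ^ e * L := by
          have : 1 ≤ L ^ e := Nat.one_le_pow _ _ hL
          gcongr
      _ = C * L ^ (e + 1) := by ring
  have hCe : C * L ^ e ≤ C * L ^ (e + 1) := Nat.mul_le_mul_left _ (Nat.pow_le_pow_right hL (by omega))
  rcases hX with ⟨g, A, h, h1, h2, h3, h4, h5, h6, h7⟩ | ⟨g, A, w, u, h1, h2, h3, h4, h5, h6, h7, h8⟩
  · refine ⟨g, A, 1, h, h1, h2, fun i => by exact_mod_cast h3 i, h4, by exact_mod_cast h5, le_rfl, hE1,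
      by exact_mod_cast h6, ?_⟩
    have e1 : ∑ x ∈ X, Complex.exp (2 * Real.pi * Complex.I * (h * g.eval (x : ℤ) / m)) =
        ∑ x ∈ X, ee ((h : ℝ) * ((g.eval (x : ℤ) : ℤ) : ℝ) / m) :=
      sum_congr rfl fun x _ => ee_eq3 h _ m
    rw [e1] at h7
    refine h7.trans (mul_le_mul_of_nonneg_right ?_ (norm_nonneg _))
    exact_mod_cast hLe
  · obtain ⟨a, h, ha1, ha2, hh, hS⟩ := hu L m A w u (fun x : ℕ => g.eval (x : ℤ)) X hL hm h6 h7 h8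
    refine ⟨g, A, a, h * a, h1, h2, fun i => by exact_mod_cast h3 i, h4, by exact_mod_cast h5, ha1, ha2.trans hCe, ?_, ?_⟩
    · have e2 : (A : ℤ) * (h * a) = (A * h) * a := by ring
      rw [e2]
      simpa using hh.mul_right (a : ℤ)
    · have e1 : ∑ x ∈ X, ee ((h : ℝ) * ((a * g.eval (x : ℤ) : ℤ) : ℝ) / m) =
          ∑ x ∈ X, ee (((h * a : ℤ) : ℝ) * ((g.eval (x : ℤ) : ℤ) : ℝ) / m) := by
        refine sum_congr rfl fun x _ => ?_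
        congr 1
        push_cast
        ring
      have hS' : (X.card : ℝ) ≤ ((C * L ^ e : ℕ) : ℝ) * ‖∑ x ∈ X, ee ((h : ℝ) * ((a * g.eval (x : ℤ) : ℤ) : ℝ) / m)‖ := hS
      rw [e1] at hS'
      refine hS'.trans (mul_le_mul_of_nonneg_right ?_ (norm_nonneg _))
      exact_mod_cast hCe

theorem fourier_set5 (k L L' m D : ℕ) (hm : 1 ≤ m) (hD : 1 ≤ D) (hLL : L ≤ L') (X : Finset ℕ) (hX : ∀ x ∈ X, x ≤ D)
    (hF : Four5 k L L' m X) :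
    ∃ (g : Polynomial ℤ) (A a j b : ℕ), 1 ≤ g.natDegree ∧ g.natDegree ≤ k ∧ (∀ i, |g.coeff i| ≤ (L : ℤ)) ∧
      1 ≤ A ∧ A ≤ L ∧ 1 ≤ a ∧ a ≤ L' ∧ j < k ∧ b < A ∧
      (X.card : ℝ) ≤ ((k * L' ^ 2 : ℕ) : ℝ) * ‖S (Zs A b (lay (sh g ((k + 1) * L * D ^ k)) j X)) ((a : ℝ) / m)‖ := by
  obtain ⟨g, A, a, h, h1, h2, h3', h4, hAL, ha1, ha2, h6, h7⟩ := hF
  have hk : 1 ≤ k := h1.trans h2
  obtain ⟨B, hB⟩ : ∃ B : ℕ, B = (k + 1) * L * D ^ k := ⟨_, rfl⟩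
  have hsh : ∀ x ∈ X, ((sh g B x : ℕ) : ℤ) = g.eval (x : ℤ) + (B : ℕ) := by
    intro x hx
    rw [hB]
    exact (sh_bd g k L D hD h2 h3' x (hX x hx)).1
  have e1 : ∑ x ∈ X, ee ((h : ℝ) * ((sh g B x : ℕ) : ℝ) / m) = ee ((h : ℝ) * B / m) *
      ∑ x ∈ X, ee ((h : ℝ) * ((g.eval (x : ℤ) : ℤ) : ℝ) / m) := by
    rw [Finset.mul_sum]
    refine sum_congr rfl fun x hx => ?_
    rw [← ee_add]
    congr 1
    have h8 : ((sh g B x : ℕ) : ℝ) = ((g.eval (x : ℤ) : ℤ) : ℝ) + B := by exact_mod_cast hsh x hx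
    rw [h8]
    ring
  have hfib : ∀ v, (X.filter fun x => sh g B x = v).card ≤ k := by
    intro v
    refine le_trans (card_le_card ?_) (fibre_le g k h1 h2 X ((v : ℤ) - B))
    intro x hx
    obtain ⟨hx1, hx2⟩ := mem_filter.1 hx
    rw [mem_filter]
    refine ⟨hx1, ?_⟩
    have h8 := hsh x hx1
    rw [hx2] at h8
    linarith
  obtain ⟨j, hj1, hj2⟩ := lay_exists (sh g B) k X hk hfib (fun v => ee ((h : ℝ) * (v : ℝ) / m))
  obtain ⟨b, hb1, hb2⟩ := fourier_bias m A a h (lay (sh g B) j X) hm h4 h6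
  refine ⟨g, A, a, j, b, h1, h2, h3', h4, hAL, ha1, ha2, hj1, hb1, ?_⟩
  rw [← hB]
  have h9 : ‖∑ x ∈ X, ee ((h : ℝ) * ((g.eval (x : ℤ) : ℤ) : ℝ) / m)‖ =
      ‖∑ x ∈ X, ee ((h : ℝ) * ((sh g B x : ℕ) : ℝ) / m)‖ := by
    rw [e1, norm_mul, ee_norm, one_mul]
  have hALr : (A : ℝ) ≤ L' := by exact_mod_cast hAL.trans hLL
  calc (X.card : ℝ) ≤ L' * ‖∑ x ∈ X, ee ((h : ℝ) * ((sh g B x : ℕ) : ℝ) / m)‖ := by rw [← h9]; exact h7
    _ ≤ L' * (k * ‖∑ v ∈ lay (sh g B) j X, ee ((h : ℝ) * (v : ℝ) / m)‖) :=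
        mul_le_mul_of_nonneg_left hj2 (Nat.cast_nonneg _)
    _ ≤ L' * (k * (L' * ‖S (Zs A b (lay (sh g B) j X)) ((a : ℝ) / m)‖)) := by
        refine mul_le_mul_of_nonneg_left (mul_le_mul_of_nonneg_left ?_ (Nat.cast_nonneg _)) (Nat.cast_nonneg _)
        exact hb2.trans (mul_le_mul_of_nonneg_right hALr (norm_nonneg _))
    _ = ((k * L' ^ 2 : ℕ) : ℝ) * ‖S (Zs A b (lay (sh g B) j X)) ((a : ℝ) / m)‖ := by
        push_cast
        ring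

theorem fin5N (K k : ℕ) : ∃ C e : ℕ, 1 ≤ C ∧ ∀ (L L' Q : ℕ), 1 ≤ L → L ≤ L' → 1 ≤ Q → ∀ (M X : Finset ℕ),
    (∀ m ∈ M, Q < m ∧ m ≤ 2 * Q) → (∀ x ∈ X, x ≤ Q ^ K) → Q ≤ M.card * L' →
    (∀ m ∈ M, Four5 k L L' m X) →
    ∃ (g : Polynomial ℤ) (A : ℕ) (u : ℤ), 1 ≤ g.natDegree ∧ g.natDegree ≤ k ∧ (∀ i, |g.coeff i| ≤ (L : ℤ)) ∧
      1 ≤ A ∧ A ≤ L ∧
      X.card ≤ C * L' ^ e * (X.filter fun x : ℕ => u ≤ g.eval (x : ℤ) ∧ g.eval (x : ℤ) < u + A * Q).card := by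
  obtain ⟨C2, e2, hC2, h2⟩ := bmain3 (K * k + k + 2)
  obtain ⟨W, hW⟩ : ∃ W : ℕ, W = 3 ^ (k + 1) * (k + 1) ^ 2 := ⟨_, rfl⟩
  have hW1 : 1 ≤ W := by rw [hW]; exact Nat.one_le_iff_ne_zero.2 (by positivity)
  have hC1 : 1 ≤ C2 * W ^ (e2 + 1) := Nat.one_le_iff_ne_zero.2 (by positivity)
  refine ⟨2 * (C2 * W ^ (e2 + 1)), (k + 6) * (e2 + 1) + K, by omega, ?_⟩
  intro L L' Q hL hLL hQ M X hM hX hMc hb
  have hL' : 1 ≤ L' := hL.trans hLL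
  have hLe : 1 ≤ L' ^ ((k + 6) * (e2 + 1)) := Nat.one_le_pow _ _ hL'
  have hLK : 1 ≤ L' ^ K := Nat.one_le_pow _ _ hL'
  have hQK : 1 ≤ Q ^ K := Nat.one_le_pow _ _ hQ
  have htriv : X.card ≤ 2 * Q ^ K := by
    have h3 : X ⊆ Icc 0 (Q ^ K) := fun x hx => mem_Icc.2 ⟨Nat.zero_le _, hX x hx⟩
    have h4 := card_le_card h3
    rw [Nat.card_Icc] at h4
    omega
  obtain ⟨m1, hm1⟩ : M.Nonempty := by
    rw [← card_pos]
    by_contra h3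
    have h4 : M.card = 0 := by omega
    rw [h4, zero_mul] at hMc
    omega
  -- the trivial form
  have htriv2 : Q ^ K ≤ C2 * W ^ (e2 + 1) * L' ^ ((k + 6) * (e2 + 1) + K) →
      ∃ (g : Polynomial ℤ) (A : ℕ) (u : ℤ), 1 ≤ g.natDegree ∧ g.natDegree ≤ k ∧ (∀ i, |g.coeff i| ≤ (L : ℤ)) ∧
      1 ≤ A ∧ A ≤ L ∧ X.card ≤ 2 * (C2 * W ^ (e2 + 1)) * L' ^ ((k + 6) * (e2 + 1) + K) *
        (X.filter fun x : ℕ => u ≤ g.eval (x : ℤ) ∧ g.eval (x : ℤ) < u + A * Q).card := by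
    intro hle
    obtain ⟨g, A, a, h, h3, h4, h5, h6, h7, _⟩ := hb m1 hm1
    rcases X.eq_empty_or_nonempty with hX0 | ⟨x0, hx0⟩
    · exact ⟨g, A, 0, h3, h4, h5, h6, h7, by rw [hX0, card_empty]; exact Nat.zero_le _⟩
    · refine ⟨g, A, g.eval (x0 : ℤ), h3, h4, h5, h6, h7, ?_⟩
      have h8 : 1 ≤ (X.filter fun x : ℕ => g.eval (x0 : ℤ) ≤ g.eval (x : ℤ) ∧
          g.eval (x : ℤ) < g.eval (x0 : ℤ) + A * Q).card := by
        refine card_pos.2 ⟨x0, mem_filter.2 ⟨hx0, le_rfl, ?_⟩⟩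
        have h9 : (0 : ℤ) < A * Q := by
          have : 0 < A * Q := Nat.mul_pos h6 hQ
          exact_mod_cast this
        linarith
      calc X.card ≤ 2 * Q ^ K := htriv
        _ ≤ 2 * (C2 * W ^ (e2 + 1) * L' ^ ((k + 6) * (e2 + 1) + K)) := Nat.mul_le_mul_left _ hle
        _ = 2 * (C2 * W ^ (e2 + 1)) * L' ^ ((k + 6) * (e2 + 1) + K) * 1 := by ring
        _ ≤ _ := Nat.mul_le_mul_left _ h8
  rcases Nat.lt_or_ge Q L' with hQL | hLQ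
  · refine htriv2 ?_
    calc Q ^ K = 1 * (1 * Q ^ K) := by ring
      _ ≤ C2 * W ^ (e2 + 1) * (L' ^ ((k + 6) * (e2 + 1)) * L' ^ K) := by gcongr
      _ = C2 * W ^ (e2 + 1) * L' ^ ((k + 6) * (e2 + 1) + K) := by rw [pow_add L']
  have hCL : 1 ≤ C2 * W ^ (e2 + 1) * L' ^ ((k + 6) * (e2 + 1) + K) := Nat.one_le_iff_ne_zero.2 (by positivity)
  rcases Nat.lt_or_ge Q 2 with hQ2 | hQ2
  · have hQ1 : Q = 1 := by omega
    refine htriv2 ?_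
    rw [hQ1, one_pow]
    exact hCL
  have hk : 1 ≤ k := by
    obtain ⟨g, _, _, _, h3, h4, _⟩ := hb m1 hm1
    exact h3.trans h4
  obtain ⟨P, hP1, hP2, hP3⟩ : ∃ P : Finset (Polynomial ℤ), P.card ≤ (2 * L + 1) ^ (k + 1) ∧
      (∀ g : Polynomial ℤ, 1 ≤ g.natDegree → g.natDegree ≤ k → (∀ i, |g.coeff i| ≤ (L : ℤ)) → g ∈ P) ∧
      ∀ g ∈ P, 1 ≤ g.natDegree ∧ g.natDegree ≤ k ∧ ∀ i, |g.coeff i| ≤ (L : ℤ) := by
    obtain ⟨P, hP1, hP2⟩ := polys k L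
    refine ⟨P.filter fun g => 1 ≤ g.natDegree ∧ g.natDegree ≤ k ∧ ∀ i, |g.coeff i| ≤ (L : ℤ),
      (card_le_card (filter_subset _ _)).trans hP1, fun g h5 h3 h4 => mem_filter.2 ⟨hP2 g h3 h4, h5, h3, h4⟩,
      fun g hg => (mem_filter.1 hg).2⟩
  obtain ⟨G, hG⟩ : ∃ G : ℕ, G = k * L' ^ 2 := ⟨_, rfl⟩
  obtain ⟨V, hV⟩ : ∃ V : ℕ, V = W * L' ^ (k + 6) := ⟨_, rfl⟩
  have hV1 : 1 ≤ V := by rw [hV]; exact Nat.one_le_iff_ne_zero.2 (by positivity)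
  obtain ⟨B, hB⟩ : ∃ B : ℕ, B = (k + 1) * L * (Q ^ K) ^ k := ⟨_, rfl⟩
  have hGV : G ≤ V := by
    rw [hG, hV, hW]
    calc k * L' ^ 2 = 1 * k * L' ^ 2 := by ring
      _ ≤ 3 ^ (k + 1) * (k + 1) ^ 2 * L' ^ (k + 6) := by
          have h3 : 1 ≤ 3 ^ (k + 1) := Nat.one_le_pow _ _ (by norm_num)
          have h4 : k ≤ (k + 1) ^ 2 := by nlinarith
          have h5 : L' ^ 2 ≤ L' ^ (k + 6) := Nat.pow_le_pow_right hL' (by omega)
          exact Nat.mul_le_mul (Nat.mul_le_mul h3 h4) h5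
  have hLV : L' ≤ V := by
    rw [hV]
    calc L' = 1 * L' ^ 1 := by ring
      _ ≤ W * L' ^ (k + 6) := Nat.mul_le_mul hW1 (Nat.pow_le_pow_right hL' (by omega))
  -- pigeonhole
  obtain ⟨Ff, hFf⟩ : ∃ Ff : Polynomial ℤ × ℕ × ℕ × ℕ × ℕ → Finset ℕ, Ff = fun t => M.filter fun m : ℕ =>
      (X.card : ℝ) ≤ (G : ℝ) * ‖S (Zs t.2.1 t.2.2.2.2 (lay (sh t.1 B) t.2.2.2.1 X)) ((t.2.2.1 : ℝ) / m)‖ := ⟨_, rfl⟩
  obtain ⟨Tr, hTr⟩ : ∃ Tr : Finset (Polynomial ℤ × ℕ × ℕ × ℕ × ℕ),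
      Tr = P ×ˢ (Icc 1 L) ×ˢ (Icc 1 L') ×ˢ (range k) ×ˢ (range L) := ⟨_, rfl⟩
  have hTrc : Tr.card ≤ (3 * L) ^ (k + 1) * (L * (L' * (k * L))) := by
    rw [hTr, card_product, card_product, card_product, card_product, Nat.card_Icc, Nat.card_Icc, card_range, card_range,
      Nat.add_sub_cancel, Nat.add_sub_cancel]
    exact Nat.mul_le_mul (hP1.trans (Nat.pow_le_pow_left (by omega) _)) le_rfl
  have hcover : M ⊆ Tr.biUnion Ff := by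
    intro m hm
    have hm1 : 1 ≤ m := by have := hM m hm; omega
    obtain ⟨g, A, a, j, b, h3, h4, h5, h6, h7, h8, h9, h10, h11, h12⟩ :=
      fourier_set5 k L L' m (Q ^ K) hm1 hQK hLL X hX (hb m hm)
    rw [mem_biUnion]
    refine ⟨(g, A, a, j, b), ?_, ?_⟩
    · rw [hTr, mem_product, mem_product, mem_product, mem_product, mem_Icc, mem_Icc, mem_range, mem_range]
      exact ⟨hP2 g h3 h4 h5, ⟨h6, h7⟩, ⟨h8, h9⟩, h10, by show b < L; omega⟩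
    · rw [hFf, mem_filter, hG, hB]
      exact ⟨hm, h12⟩
  have hTrne : Tr.Nonempty := by
    by_contra h3
    rw [not_nonempty_iff_eq_empty] at h3
    rw [h3] at hcover
    have h4 := hcover hm1
    simp at h4
  have hpig : ∃ t ∈ Tr, M.card ≤ Tr.card * (Ff t).card := by
    by_contra hcon2
    push Not at hcon2
    have h3 : M.card ≤ ∑ t ∈ Tr, (Ff t).card := (card_le_card hcover).trans card_biUnion_le
    have h4 : Tr.card * ∑ t ∈ Tr, (Ff t).card < ∑ _t ∈ Tr, M.card := by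
      rw [Finset.mul_sum]
      exact Finset.sum_lt_sum_of_nonempty hTrne hcon2
    rw [Finset.sum_const, smul_eq_mul] at h4
    exact absurd (Nat.mul_le_mul_left Tr.card h3) (not_le.2 h4)
  obtain ⟨⟨g, A, a, j, b⟩, ht, hMt⟩ := hpig
  rw [hTr, mem_product, mem_product, mem_product, mem_product, mem_Icc, mem_Icc, mem_range, mem_range] at ht
  have hgP : g ∈ P := ht.1
  have hA1 : 1 ≤ A := ht.2.1.1
  have hA2 : A ≤ L := ht.2.1.2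
  have ha1 : 1 ≤ a := ht.2.2.1.1
  have ha2 : a ≤ L' := ht.2.2.1.2
  obtain ⟨M', hM'⟩ : ∃ M' : Finset ℕ, M' = Ff (g, A, a, j, b) := ⟨_, rfl⟩
  obtain ⟨Z, hZdef⟩ : ∃ Z : Finset ℕ, Z = Zs A b (lay (sh g B) j X) := ⟨_, rfl⟩
  rw [← hM'] at hMt
  have hM'sub : M' ⊆ M := by rw [hM', hFf]; exact filter_subset _ _
  have hM'b : ∀ m ∈ M', (X.card : ℝ) ≤ (G : ℝ) * ‖S Z ((a : ℝ) / m)‖ := by
    intro m hm
    rw [hM', hFf] at hm
    rw [hZdef]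
    exact (mem_filter.1 hm).2
  have hTL : Tr.card * L' ≤ V := by
    calc Tr.card * L' ≤ (3 * L) ^ (k + 1) * (L * (L' * (k * L))) * L' := Nat.mul_le_mul_right _ hTrc
      _ ≤ (3 * L') ^ (k + 1) * (L' * (L' * (k * L'))) * L' := by gcongr
      _ = 3 ^ (k + 1) * k * L' ^ (k + 5) := by rw [mul_pow]; ring
      _ ≤ 3 ^ (k + 1) * (k + 1) ^ 2 * L' ^ (k + 6) := by
          have h4 : k ≤ (k + 1) ^ 2 := by nlinarith
          have h5 : L' ^ (k + 5) ≤ L' ^ (k + 6) := Nat.pow_le_pow_right hL' (by omega)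
          exact Nat.mul_le_mul (Nat.mul_le_mul_left _ h4) h5
      _ = V := by rw [hV, hW]
  have hM'c : Q ≤ M'.card * V := by
    calc Q ≤ M.card * L' := hMc
      _ ≤ Tr.card * M'.card * L' := Nat.mul_le_mul_right _ hMt
      _ = M'.card * (Tr.card * L') := by ring
      _ ≤ M'.card * V := Nat.mul_le_mul_left _ hTL
  obtain ⟨m0, hm0⟩ : M'.Nonempty := by
    rw [← card_pos]
    by_contra h3
    have h4 : M'.card = 0 := by omega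
    rw [h4, zero_mul] at hM'c
    omega
  have hZX : (Z.card : ℝ) ≤ X.card := by
    rw [hZdef]
    exact_mod_cast (Zs_card_le A b _).trans (lay_card_le _ _ _)
  have hGVr : (G : ℝ) ≤ V := by exact_mod_cast hGV
  obtain ⟨hg1, hg2, hg3⟩ := hP3 g hgP
  -- the elements of `Z`
  have hZel : ∀ t ∈ Z, ∃ x ∈ X, sh g B x / A = t ∧ g.eval (x : ℤ) + B = A * t + b ∧ t ≤ 2 * B := by
    intro t ht
    rw [hZdef] at ht
    unfold Zs at ht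
    obtain ⟨v, hv, rfl⟩ := mem_image.1 ht
    obtain ⟨hv1, hv2⟩ := mem_filter.1 hv
    unfold lay at hv1
    obtain ⟨x, hx, rfl⟩ := mem_image.1 (mem_filter.1 hv1).1
    obtain ⟨h3, h4⟩ := sh_bd g k L (Q ^ K) hQK hg2 hg3 x (hX x hx)
    rw [← hB] at h3 h4
    refine ⟨x, hx, rfl, ?_, (Nat.div_le_self _ _).trans h4⟩
    have h5 := Nat.div_add_mod (sh g B x) A
    rw [hv2] at h5
    generalize sh g B x / A = t at h5 ⊢
    rw [← h3, ← h5]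
    push_cast
    ring
  have hZr : ∀ t ∈ Z, 0 ≤ t ∧ t < 0 + Q ^ (K * k + k + 2 + 1) := by
    intro t ht
    refine ⟨Nat.zero_le _, ?_⟩
    rw [zero_add]
    obtain ⟨_, _, _, _, h4⟩ := hZel t ht
    have h5 : 2 * B < Q ^ (K * k + k + 2 + 1) := by
      have h6 : k + 1 ≤ 2 ^ k := Nat.lt_two_pow_self
      have h7 : 2 ^ (k + 1) ≤ Q ^ (k + 1) := Nat.pow_le_pow_left hQ2 _
      have h8 : 1 ≤ Q ^ (K * k + k + 2) := Nat.one_le_pow _ _ hQ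
      have h9 : L ≤ Q := hLL.trans hLQ
      calc 2 * B = 2 * (k + 1) * L * (Q ^ K) ^ k := by rw [hB]; ring
        _ ≤ 2 * 2 ^ k * Q * (Q ^ K) ^ k := by gcongr
        _ = 2 ^ (k + 1) * Q * Q ^ (K * k) := by rw [← pow_mul]; ring
        _ ≤ Q ^ (k + 1) * Q * Q ^ (K * k) := by gcongr
        _ = Q ^ (K * k + k + 2) := by ring
        _ < Q ^ (K * k + k + 2 + 1) := Nat.pow_lt_pow_right (by omega) (by omega)
    omega
  obtain ⟨y', hZ⟩ := h2 V Q a 0 hV1 ha1 (ha2.trans hLV) hQ M' Z (fun m hm => hM m (hM'sub hm)) hM'c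
    (fun m hm => hZX.trans ((hM'b m hm).trans (mul_le_mul_of_nonneg_right hGVr (norm_nonneg _)))) hZr
  have hXZ : X.card ≤ G * Z.card := by
    have h3 : (X.card : ℝ) ≤ G * Z.card :=
      (hM'b m0 hm0).trans (mul_le_mul_of_nonneg_left (S_norm_le _ _) (Nat.cast_nonneg _))
    exact_mod_cast h3
  refine ⟨g, A, A * y' + b - B, hg1, hg2, hg3, hA1, hA2, ?_⟩
  have hsurj : (Z.filter (fun x => y' ≤ x ∧ x < y' + Q)).card ≤
      (X.filter fun x : ℕ => (A : ℤ) * y' + b - B ≤ g.eval (x : ℤ) ∧ g.eval (x : ℤ) < A * y' + b - B + A * Q).card := by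
    refine Finset.card_le_card_of_surjOn (fun x => sh g B x / A) ?_
    intro t ht
    rw [mem_coe, mem_filter] at ht
    obtain ⟨ht1, ht2, ht3⟩ := ht
    obtain ⟨x, hx1, hx2, hx3, _⟩ := hZel t ht1
    refine ⟨x, ?_, hx2⟩
    rw [mem_coe, mem_filter]
    refine ⟨hx1, ?_, ?_⟩
    · have h3 : (A : ℤ) * y' ≤ A * t := mul_le_mul_of_nonneg_left (by exact_mod_cast ht2) (Nat.cast_nonneg _)
      linarith
    · have h3 : (t : ℤ) + 1 ≤ y' + Q := by exact_mod_cast ht3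
      have h4 : (A : ℤ) * (t + 1) ≤ A * (y' + Q) := mul_le_mul_of_nonneg_left h3 (Nat.cast_nonneg _)
      have h5 : (1 : ℤ) ≤ A := by exact_mod_cast hA1
      linarith
  calc X.card ≤ G * Z.card := hXZ
    _ ≤ V * (C2 * V ^ e2 * (Z.filter (fun x => y' ≤ x ∧ x < y' + Q)).card) := Nat.mul_le_mul hGV hZ
    _ = 1 * (C2 * W ^ (e2 + 1)) * (L' ^ ((k + 6) * (e2 + 1)) * 1) * (Z.filter (fun x => y' ≤ x ∧ x < y' + Q)).card := by
        rw [hV, mul_pow, pow_mul L' (k + 6) (e2 + 1), pow_succ (L' ^ (k + 6)) e2, pow_succ W e2]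
        ring
    _ ≤ 2 * (C2 * W ^ (e2 + 1)) * (L' ^ ((k + 6) * (e2 + 1)) * L' ^ K) *
        (X.filter fun x : ℕ => (A : ℤ) * y' + b - B ≤ g.eval (x : ℤ) ∧ g.eval (x : ℤ) < A * y' + b - B + A * Q).card := by
        gcongr
        omega
    _ = _ := by rw [pow_add L']

end Pool.Agent.H95.AT
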