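import Pool.Agent.H95.AT.Fin5
import Pool.Agent.H95.AT.Fin4

/-!
# [H95 AT Fin6] Polynomial images of large sets: the inverse theorem, final form
-/

set_option autoImplicit false

open scoped Classical

namespace Pool.Agent.H95.AT

open Finset

theorem window_card_le (g : Polynomial ℤ) (k : ℕ) (h1 : 1 ≤ g.natDegree) (h2 : g.natDegree ≤ k) (X : Finset ℕ) (u : ℤ) (n : ℕ) :
    (X.filter fun x : ℕ => u ≤ g.eval (x : ℤ) ∧ g.eval (x : ℤ) < u + n).card ≤ k * n := by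
  have hmaps : ∀ x ∈ X.filter (fun x : ℕ => u ≤ g.eval (x : ℤ) ∧ g.eval (x : ℤ) < u + n), g.eval (x : ℤ) ∈ Ico u (u + n) :=
    fun x hx => mem_Ico.2 (mem_filter.1 hx).2
  rw [Finset.card_eq_sum_card_fiberwise hmaps]
  refine (Finset.sum_le_card_nsmul _ _ k fun v _ => ?_).trans (le_of_eq ?_)
  · refine le_trans (card_le_card ?_) (fibre_le g k h1 h2 X v)
    intro x hx
    obtain ⟨hx1, hx2⟩ := mem_filter.1 hx
    exact mem_filter.2 ⟨(mem_filter.1 hx1).1, hx2⟩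
  · rw [Int.card_Ico, smul_eq_mul, mul_comm]
    congr 1
    omega

theorem fin6 (k K : ℕ) : ∃ C e : ℕ, ∀ L Q : ℕ, 1 ≤ L → 1 ≤ Q → ∀ M X : Finset ℕ,
    (∀ m ∈ M, Q < m ∧ m ≤ 2 * Q) → (∀ x ∈ X, x ≤ Q ^ K) → Q ≤ L * M.card →
    (∀ m ∈ M, Uneven3 k L m X ∨ Fourier3 k L m X) →
    X.card ≤ C * L ^ e * Q ∧
    ∃ (g : Polynomial ℤ) (A : ℕ) (u : ℤ), 1 ≤ g.natDegree ∧ g.natDegree ≤ k ∧ (∀ i, |(g.coeff i : ℝ)| ≤ L) ∧
      1 ≤ A ∧ A ≤ L ∧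
      X.card ≤ C * L ^ e * (X.filter fun x : ℕ => u ≤ g.eval (x : ℤ) ∧ g.eval (x : ℤ) < u + A * Q).card := by
  obtain ⟨C1, e1, hC1, h1⟩ := to_four5
  obtain ⟨C2, e2, hC2, h2⟩ := fin5N K k
  refine ⟨C2 * C1 ^ e2 * (k + 1), (e1 + 1) * e2 + 1, ?_⟩
  intro L Q hL hQ M X hM hX hMc hb
  obtain ⟨V, hV⟩ : ∃ V : ℕ, V = C1 * L ^ (e1 + 1) := ⟨_, rfl⟩
  have hLe : 1 ≤ L ^ e1 := Nat.one_le_pow _ _ hL
  have hLV : L ≤ V := by
    rw [hV]
    calc L = 1 * 1 * L := by ring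
      _ ≤ C1 * L ^ e1 * L := by gcongr
      _ = C1 * L ^ (e1 + 1) := by ring
  obtain ⟨g, A, u, hg1, hg2, hg3, hA1, hA2, hc⟩ := h2 L V Q hL hLV hQ M X hM hX
    (hMc.trans (by rw [mul_comm]; exact Nat.mul_le_mul_left _ hLV))
    (fun m hm => by
      have hm1 : 1 ≤ m := by have := hM m hm; omega
      rw [hV]
      exact h1 k L m X hL hm1 (hb m hm).symm)
  have hVe : C2 * V ^ e2 = C2 * C1 ^ e2 * L ^ ((e1 + 1) * e2) := by
    rw [hV, mul_pow, ← pow_mul]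
    ring
  rw [hVe] at hc
  have hw : (X.filter fun x : ℕ => u ≤ g.eval (x : ℤ) ∧ g.eval (x : ℤ) < u + A * Q).card ≤ k * (A * Q) := by
    have := window_card_le g k hg1 hg2 X u (A * Q)
    push_cast at this
    exact this
  constructor
  · calc X.card ≤ C2 * C1 ^ e2 * L ^ ((e1 + 1) * e2) * (k * (A * Q)) := hc.trans (Nat.mul_le_mul_left _ hw)
      _ ≤ C2 * C1 ^ e2 * L ^ ((e1 + 1) * e2) * ((k + 1) * (L * Q)) := by
          gcongr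
          omega
      _ = C2 * C1 ^ e2 * (k + 1) * L ^ ((e1 + 1) * e2 + 1) * Q := by ring
  · refine ⟨g, A, u, hg1, hg2, fun i => by exact_mod_cast hg3 i, hA1, hA2, hc.trans (Nat.mul_le_mul_right _ ?_)⟩
    calc C2 * C1 ^ e2 * L ^ ((e1 + 1) * e2) = C2 * C1 ^ e2 * 1 * (L ^ ((e1 + 1) * e2) * 1) := by ring
      _ ≤ C2 * C1 ^ e2 * (k + 1) * (L ^ ((e1 + 1) * e2) * L) := by gcongr; omega
      _ = C2 * C1 ^ e2 * (k + 1) * L ^ ((e1 + 1) * e2 + 1) := by rw [← pow_succ]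

end Pool.Agent.H95.AT
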