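import Pool.Agent.H95.AT.Fin6

/-!
# [H95 AT Fin7] Polynomial images of large sets: the inverse theorem, natural parameters
-/

set_option autoImplicit false

open scoped Classical

namespace Pool.Agent.H95.AT

open Finset

/-- `f = g / A` is a nonconstant polynomial of degree at most `k` and height at most `L` -/
def Low (k L : ℕ) (g : Polynomial ℤ) (A : ℕ) : Prop :=
  1 ≤ g.natDegree ∧ g.natDegree ≤ k ∧ (∀ i, |g.coeff i| ≤ L) ∧ 1 ≤ A ∧ A ≤ L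

def Uneven7 (k L m : ℕ) (X : Finset ℕ) : Prop :=
  ∃ (g : Polynomial ℤ) (A w : ℕ) (u : ℤ), Low k L g A ∧ A.Coprime m ∧ w ≤ m ∧
    (X.card : ℝ) ≤ L * |((X.filter fun x : ℕ => ∃ i : ℕ, i < w ∧ g.eval (x : ℤ) ≡ A * (u + i) [ZMOD m]).card : ℝ) -
      (w : ℝ) / m * X.card|

def LargeSum7 (k L m : ℕ) (X : Finset ℕ) : Prop :=
  ∃ (g : Polynomial ℤ) (A : ℕ) (h : ℤ), Low k L g A ∧ (A : ℤ) * h ≡ 1 [ZMOD m] ∧
    (X.card : ℝ) ≤ L * ‖∑ x ∈ X, Complex.exp (2 * Real.pi * Complex.I * (h * g.eval (x : ℤ) / m))‖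

theorem fin7 (k K : ℕ) : ∃ C e : ℕ, ∀ L Q : ℕ, 1 ≤ L → 1 ≤ Q → ∀ M X : Finset ℕ,
    (∀ m ∈ M, Q < m ∧ m ≤ 2 * Q) → (∀ x ∈ X, x ≤ Q ^ K) → Q ≤ L * M.card →
    (∀ m ∈ M, Uneven7 k L m X ∨ LargeSum7 k L m X) →
    X.card ≤ C * L ^ e * Q ∧
    ∃ (g : Polynomial ℤ) (A : ℕ) (u : ℤ), Low k L g A ∧
      X.card ≤ C * L ^ e * (X.filter fun x : ℕ => u ≤ g.eval (x : ℤ) ∧ g.eval (x : ℤ) < u + A * Q).card := by
  obtain ⟨C, e, h⟩ := fin6 k K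
  refine ⟨C, e, ?_⟩
  intro L Q hL hQ M X hM hX hMc hb
  obtain ⟨h1, g, A, u, h2, h3, h4, h5, h6, h7⟩ := h L Q hL hQ M X hM hX hMc (fun m hm => by
    rcases hb m hm with ⟨g, A, w, u, ⟨h1, h2, h3, h4, h5⟩, h6, h7, h8⟩ | ⟨g, A, h, ⟨h1, h2, h3, h4, h5⟩, h6, h7⟩
    · exact Or.inl ⟨g, A, w, u, h1, h2, fun i => by exact_mod_cast h3 i, h4, by exact_mod_cast h5, h6, h7, h8⟩
    · exact Or.inr ⟨g, A, h, h1, h2, fun i => by exact_mod_cast h3 i, h4, by exact_mod_cast h5, h6, h7⟩)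
  exact ⟨h1, g, A, u, ⟨h2, h3, fun i => by exact_mod_cast h4 i, h5, h6⟩, h7⟩

end Pool.Agent.H95.AT
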