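import Pool.Agent.H95.AT.Step2

/-!
# [H95 AT Iter2] The iterated differencing step, polynomial dependence on the bias
-/

set_option autoImplicit false

namespace Pool.Agent.H95.AT

open Finset Pool.Agent.H24.AB Pool.Agent.H95.AS

theorem iter2 (J : ℕ) :
    ∃ C e : ℕ, 1 ≤ C ∧ 1 ≤ e ∧ ∀ L Q : ℕ, 1 ≤ L → C * L ^ e ≤ Q → ∀ (M X : Finset ℕ) (g : ℕ → ℝ),
      (∀ m ∈ M, Q < m ∧ m ≤ 2 * Q) → Q ≤ M.card * L →
      (∀ m ∈ M, (X.card : ℝ) ≤ L * ‖S X (g m)‖) →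
      ∃ ks : List ℕ, ks.length = J ∧ (∀ k ∈ ks, 1 ≤ k ∧ k ≤ C * L ^ e) ∧ ∃ M' ⊆ M, Q ≤ M'.card * (C * L ^ e) ∧
        ∀ m ∈ M', (X.card : ℝ) ≤ ((C * L ^ e : ℕ) : ℝ) * ‖S X (dl g ks m)‖ := by
  induction J with
  | zero =>
    refine ⟨1, 1, le_rfl, le_rfl, fun L Q hL _ M X g hM hMc hb => ⟨[], rfl, ?_, M, Finset.Subset.refl _, ?_, ?_⟩⟩
    · intro k hk
      simp at hk
    · simpa using hMc
    · intro m hm
      have := hb m hm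
      simpa [dl] using this
  | succ J ih =>
    obtain ⟨C1, e1, hC1, he1, h1⟩ := step2
    obtain ⟨C2, e2, hC2, he2, h2⟩ := ih
    refine ⟨C2 * C1 ^ e2, e1 * e2, ?_, ?_, ?_⟩
    · exact Nat.one_le_iff_ne_zero.2 (by positivity)
    · exact Nat.mul_pos he1 he2
    intro L Q hL hQ M X g hM hMc hb
    have hA : C2 * C1 ^ e2 * L ^ (e1 * e2) = C2 * (C1 * L ^ e1) ^ e2 := by
      rw [mul_pow, pow_mul]
      ring
    rw [hA] at hQ ⊢
    have hB1 : 1 ≤ C1 * L ^ e1 := Nat.one_le_iff_ne_zero.2 (by positivity)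
    have hle1 : C1 * L ^ e1 ≤ C2 * (C1 * L ^ e1) ^ e2 := by
      calc C1 * L ^ e1 = 1 * (C1 * L ^ e1) ^ 1 := by ring
        _ ≤ C2 * (C1 * L ^ e1) ^ e2 := Nat.mul_le_mul hC2 (Nat.pow_le_pow_right hB1 he2)
    obtain ⟨k, hk1, hk2, M1, hM1, hM1c, hb1⟩ := h1 L Q hL (hle1.trans hQ) M X g hM hMc hb
    obtain ⟨ks, hks1, hks2, M', hM', hM'c, hb'⟩ := h2 (C1 * L ^ e1) Q hB1 hQ M1 X (fun m => g m - g (m + k))
      (fun m hm => hM m (hM1 hm)) hM1c hb1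
    refine ⟨k :: ks, by simp [hks1], ?_, M', hM'.trans hM1, hM'c, ?_⟩
    · intro k' hk'
      rcases List.mem_cons.1 hk' with rfl | hk'
      · exact ⟨hk1, hk2.trans hle1⟩
      · exact hks2 k' hk'
    · intro m hm
      exact hb' m hm

end Pool.Agent.H95.AT
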