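import Pool.Agent.H95.AT.Iter2
import Pool.Agent.H95.AT.Conc2
import Pool.Agent.H95.AS.Main

/-!
# [H95 AT Main2] Large exponential sums at fractions with sparse denominators of one scale
-/

set_option autoImplicit false

open scoped Classical

namespace Pool.Agent.H95.AT

open Finset Pool.Agent.H24.AB Pool.Agent.H95.AS

theorem S_norm_le (X : Finset ℕ) (θ : ℝ) : ‖S X θ‖ ≤ X.card := by
  unfold S
  refine (norm_sum_le _ _).trans ?_
  simp [ee_norm]

theorem stage2 (J : ℕ) :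
    ∃ C e : ℕ, 1 ≤ C ∧ ∀ L Q a y : ℕ, 1 ≤ L → 1 ≤ a → a ≤ L → C * L ^ e ≤ Q → ∀ (M X : Finset ℕ),
      (∀ m ∈ M, Q < m ∧ m ≤ 2 * Q) → Q ≤ M.card * L →
      (∀ m ∈ M, (X.card : ℝ) ≤ L * ‖S X ((a : ℝ) / m)‖) →
      (∀ x ∈ X, y ≤ x ∧ x < y + Q ^ (J + 2)) →
      ∃ y' : ℕ, X.card ≤ C * L ^ e * (X.filter (fun x => y' ≤ x ∧ x < y' + Q ^ (J + 1))).card := by
  obtain ⟨C1, e1, hC1, he1, hiter⟩ := iter2 J
  obtain ⟨C2, e2, hC2, hconc⟩ := conc2 J
  refine ⟨(J + 1) * C2 * C1 ^ (e2 + 1), e1 * (e2 + 1), Nat.one_le_iff_ne_zero.2 (by positivity), ?_⟩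
  intro L Q a y hL ha haL hQ M X hM hMc hb hX
  obtain ⟨E, hE⟩ : ∃ E : ℕ, E = C1 * L ^ e1 := ⟨_, rfl⟩
  have hE1 : 1 ≤ E := by rw [hE]; exact Nat.one_le_iff_ne_zero.2 (by positivity)
  have hcon : (J + 1) * C2 * C1 ^ (e2 + 1) * L ^ (e1 * (e2 + 1)) = (J + 1) * C2 * E ^ (e2 + 1) := by
    rw [hE, mul_pow, pow_mul]
    ring
  rw [hcon] at hQ ⊢
  have hLE : L ≤ E := by
    rw [hE]
    calc L = 1 * L ^ 1 := by ring
      _ ≤ C1 * L ^ e1 := Nat.mul_le_mul hC1 (Nat.pow_le_pow_right hL he1)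
  have hEe : E ≤ E ^ (e2 + 1) := by
    calc E = E ^ 1 := (pow_one _).symm
      _ ≤ E ^ (e2 + 1) := Nat.pow_le_pow_right hE1 (by omega)
  have hEe' : E ^ e2 ≤ E ^ (e2 + 1) := Nat.pow_le_pow_right hE1 (by omega)
  have hq1 : (J + 1) * E ≤ Q := by
    refine le_trans ?_ hQ
    calc (J + 1) * E = (J + 1) * 1 * E := by ring
      _ ≤ (J + 1) * C2 * E ^ (e2 + 1) := Nat.mul_le_mul (Nat.mul_le_mul_left _ hC2) hEe
  have hq2 : C2 * E ^ e2 ≤ Q := by
    refine le_trans ?_ hQ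
    calc C2 * E ^ e2 = 1 * C2 * E ^ e2 := by ring
      _ ≤ (J + 1) * C2 * E ^ (e2 + 1) := Nat.mul_le_mul (Nat.mul_le_mul_right _ (by omega)) hEe'
  have hq3 : E ≤ Q := le_trans (Nat.le_mul_of_pos_left _ (by omega)) hq1
  obtain ⟨ks, hks1, hks2, M', hM', hM'c, hb'⟩ := hiter L Q hL (by rw [← hE]; exact hq3) M X
    (fun m => (a : ℝ) / (m : ℝ)) hM hMc hb
  rw [← hE] at hks2 hM'c hb'
  have hsum : ks.sum ≤ 2 * Q := by
    have h1 := sum_le_of_le ks E fun k hk => (hks2 k hk).2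
    rw [hks1] at h1
    have h2 : J * E ≤ (J + 1) * E := Nat.mul_le_mul_right _ (by omega)
    omega
  obtain ⟨y', hy'⟩ := hconc E Q a y ks M' X hE1 hq2 ha (haL.trans hLE) hks1 hks2 hsum
    (fun m hm => hM m (hM' hm)) hM'c hX
    (fun m hm => by
      have h1 := hb' m hm
      have h2 : dl (fun m => (a : ℝ) / (m : ℝ)) ks m = (a : ℝ) * dl (T 0) ks m := by
        rw [← dl_mul]
        congr 1
        funext m
        rw [T_zero]
        ring
      rw [h2] at h1
      exact h1)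
  refine ⟨y', hy'.trans (Nat.mul_le_mul_right _ ?_)⟩
  calc C2 * E ^ e2 = 1 * C2 * E ^ e2 := by ring
    _ ≤ (J + 1) * C2 * E ^ (e2 + 1) := Nat.mul_le_mul (Nat.mul_le_mul_right _ (by omega)) hEe'

/-- a big piece has small exponential sums on average -/
theorem avg_le (L Q V : ℕ) (hL : 1 ≤ L) (hV : V = 4 * L ^ 2) (M P : Finset ℕ) (g : ℕ → ℝ)
    (hMc : Q ≤ M.card * L)
    (hP : (M.filter fun m => (P.card : ℝ) ≤ V * ‖S P (g m)‖).card * V < Q) :
    ∑ m ∈ M, ‖S P (g m)‖ ≤ (P.card : ℝ) * M.card / (2 * L) := by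
  have hL0 : (1 : ℝ) ≤ L := by exact_mod_cast hL
  have hVr : (V : ℝ) = 4 * (L : ℝ) ^ 2 := by rw [hV]; push_cast; ring
  have hV0 : (0 : ℝ) < V := by rw [hVr]; positivity
  rw [← Finset.sum_filter_add_sum_filter_not M (fun m => (P.card : ℝ) ≤ V * ‖S P (g m)‖)]
  have h1 : ∑ m ∈ M.filter (fun m => (P.card : ℝ) ≤ V * ‖S P (g m)‖), ‖S P (g m)‖ ≤
      (M.filter (fun m => (P.card : ℝ) ≤ V * ‖S P (g m)‖)).card * (P.card : ℝ) := by
    rw [← nsmul_eq_mul]
    exact Finset.sum_le_card_nsmul _ _ _ fun m _ => S_norm_le _ _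
  have h2 : ∑ m ∈ M.filter (fun m => ¬ (P.card : ℝ) ≤ V * ‖S P (g m)‖), ‖S P (g m)‖ ≤
      M.card * ((P.card : ℝ) / V) := by
    have h3 : ∑ m ∈ M.filter (fun m => ¬ (P.card : ℝ) ≤ V * ‖S P (g m)‖), ‖S P (g m)‖ ≤
        (M.filter (fun m => ¬ (P.card : ℝ) ≤ V * ‖S P (g m)‖)).card * ((P.card : ℝ) / V) := by
      rw [← nsmul_eq_mul]
      refine Finset.sum_le_card_nsmul _ _ _ fun m hm => ?_
      rw [mem_filter, not_le] at hm
      rw [le_div_iff₀ hV0]
      linarith [hm.2]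
    refine h3.trans (mul_le_mul_of_nonneg_right ?_ (by positivity))
    exact_mod_cast card_le_card (filter_subset _ _)
  have h4 : ((M.filter (fun m => (P.card : ℝ) ≤ V * ‖S P (g m)‖)).card : ℝ) * V ≤ M.card * L := by
    exact_mod_cast hP.le.trans hMc
  have h5 : ((M.filter (fun m => (P.card : ℝ) ≤ V * ‖S P (g m)‖)).card : ℝ) ≤ M.card * L / V := by
    rw [le_div_iff₀ hV0]
    exact h4
  have h6 : ((M.filter (fun m => (P.card : ℝ) ≤ V * ‖S P (g m)‖)).card : ℝ) * P.card ≤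
      M.card * L / V * P.card := mul_le_mul_of_nonneg_right h5 (Nat.cast_nonneg _)
  have h7 : (M.card : ℝ) * L / V * P.card + M.card * ((P.card : ℝ) / V) ≤ (P.card : ℝ) * M.card / (2 * L) := by
    have e1 : (M.card : ℝ) * L / V * P.card + M.card * ((P.card : ℝ) / V) =
        (P.card : ℝ) * M.card * ((L + 1) / V) := by ring
    have e2 : (P.card : ℝ) * M.card / (2 * L) = (P.card : ℝ) * M.card * (1 / (2 * L)) := by ring
    rw [e1, e2]
    refine mul_le_mul_of_nonneg_left ?_ (by positivity)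
    rw [hVr, div_le_div_iff₀ (by positivity) (by positivity)]
    nlinarith
  linarith

theorem bmain (J : ℕ) :
    ∃ C e : ℕ, 1 ≤ C ∧ ∀ L Q a y : ℕ, 1 ≤ L → 1 ≤ a → a ≤ L → 1 ≤ Q → ∀ (M X : Finset ℕ),
      (∀ m ∈ M, Q < m ∧ m ≤ 2 * Q) → Q ≤ M.card * L →
      (∀ m ∈ M, (X.card : ℝ) ≤ L * ‖S X ((a : ℝ) / m)‖) →
      (∀ x ∈ X, y ≤ x ∧ x < y + Q ^ (J + 1)) → X.card ≤ C * L ^ e * Q := by
  induction J with
  | zero =>
    refine ⟨1, 0, le_rfl, fun L Q a y _ _ _ _ M X _ _ _ hX => ?_⟩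
    have h1 : X ⊆ Ico y (y + Q) := fun x hx => mem_Ico.2 (by simpa using hX x hx)
    have h2 := card_le_card h1
    rw [Nat.card_Ico, Nat.add_sub_cancel_left] at h2
    simpa using h2
  | succ J ih =>
    obtain ⟨C1, e1, hC1, h1⟩ := ih
    obtain ⟨C2, e2, hC2, h2⟩ := stage2 J
    refine ⟨8 * C1 * C2 ^ (J + 1) * 4 ^ (e2 * (J + 1) + e1 + 1), 2 * (e2 * (J + 1) + e1 + 1),
      Nat.one_le_iff_ne_zero.2 (by positivity), ?_⟩
    intro L Q a y hL ha haL hQ M X hM hMc hb hX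
    obtain ⟨V, hV⟩ : ∃ V : ℕ, V = 4 * L ^ 2 := ⟨_, rfl⟩
    have hcon : 8 * C1 * C2 ^ (J + 1) * 4 ^ (e2 * (J + 1) + e1 + 1) * L ^ (2 * (e2 * (J + 1) + e1 + 1)) =
        8 * C1 * C2 ^ (J + 1) * V ^ (e2 * (J + 1) + e1 + 1) := by
      rw [hV, mul_pow, pow_mul]
      ring
    rw [hcon]
    have hL2 : L ≤ L ^ 2 := by nlinarith
    have hLV : L ≤ V := by omega
    have h4LV : 4 * L ≤ V := by omega
    have hV1 : 1 ≤ V := by omega
    rcases Nat.lt_or_ge Q (C2 * V ^ e2) with hlt | hge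
    · have h3 : X ⊆ Ico y (y + Q ^ (J + 1 + 1)) := fun x hx => mem_Ico.2 (hX x hx)
      have h4 := card_le_card h3
      rw [Nat.card_Ico, Nat.add_sub_cancel_left] at h4
      refine h4.trans ?_
      calc Q ^ (J + 1 + 1) = Q ^ (J + 1) * Q := pow_succ _ _
        _ ≤ (C2 * V ^ e2) ^ (J + 1) * Q := Nat.mul_le_mul_right _ (Nat.pow_le_pow_left hlt.le _)
        _ = 1 * 1 * C2 ^ (J + 1) * (V ^ (e2 * (J + 1)) * 1) * Q := by rw [mul_pow, pow_mul]; ring
        _ ≤ 8 * C1 * C2 ^ (J + 1) * (V ^ (e2 * (J + 1)) * V ^ (e1 + 1)) * Q := by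
            have : 1 ≤ V ^ (e1 + 1) := Nat.one_le_pow _ _ hV1
            gcongr
            omega
        _ = 8 * C1 * C2 ^ (J + 1) * V ^ (e2 * (J + 1) + e1 + 1) * Q := by
            rw [← pow_add]
            ring_nf
    -- the empty case
    rcases Nat.eq_zero_or_pos X.card with hX0 | hXpos
    · rw [hX0]; exact Nat.zero_le _
    have hXr : (0 : ℝ) < X.card := by exact_mod_cast hXpos
    have hLr : (1 : ℝ) ≤ L := by exact_mod_cast hL
    obtain ⟨R, hR⟩ : ∃ R : ℕ, R = Q ^ (J + 1) := ⟨_, rfl⟩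
    have hR1 : 1 ≤ R := by rw [hR]; exact Nat.one_le_pow _ _ hQ
    obtain ⟨B, hB⟩ : ∃ B : ℕ, B = C1 * V ^ e1 * Q := ⟨_, rfl⟩
    obtain ⟨idx, hidx⟩ : ∃ idx : ℕ → ℕ, idx = fun x => (x - y) / R := ⟨_, rfl⟩
    obtain ⟨P, hPdef⟩ : ∃ P : ℕ → Finset ℕ, P = fun j => X.filter fun x => idx x = j := ⟨_, rfl⟩
    -- a piece
    have hPbd : ∀ j, ∀ x ∈ P j, y + R * j ≤ x ∧ x < y + R * j + Q ^ (J + 1) := by
      intro j x hx
      rw [hPdef] at hx
      obtain ⟨hx1, hx2⟩ := mem_filter.1 hx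
      have h3 := (hX x hx1).1
      rw [hidx] at hx2
      have h4 := Nat.div_add_mod (x - y) R
      have h5 := Nat.mod_lt (x - y) hR1
      have hx3 : (x - y) / R = j := hx2
      rw [hx3] at h4
      rw [← hR]
      omega
    have hbig : ∀ j, B < (P j).card → ∑ m ∈ M, ‖S (P j) ((a : ℝ) / m)‖ ≤ ((P j).card : ℝ) * M.card / (2 * L) := by
      intro j hj
      refine avg_le L Q V hL hV M (P j) (fun m => (a : ℝ) / m) hMc ?_
      by_contra hcon2
      rw [not_lt] at hcon2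
      have h3 := h1 V Q a (y + R * j) hV1 ha (haL.trans hLV) hQ
        (M.filter fun m => ((P j).card : ℝ) ≤ V * ‖S (P j) ((a : ℝ) / m)‖) (P j)
        (fun m hm => hM m (mem_filter.1 hm).1) hcon2 (fun m hm => (mem_filter.1 hm).2) (hPbd j)
      rw [← hB] at h3
      omega
    obtain ⟨XB, hXB⟩ : ∃ XB : Finset ℕ, XB = X.filter fun x => B < (P (idx x)).card := ⟨_, rfl⟩
    obtain ⟨XS, hXS⟩ : ∃ XS : Finset ℕ, XS = X.filter fun x => ¬ B < (P (idx x)).card := ⟨_, rfl⟩
    have hsplit : ∀ θ : ℝ, S X θ = S XB θ + S XS θ := by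
      intro θ
      rw [hXB, hXS]
      unfold S
      exact (Finset.sum_filter_add_sum_filter_not _ _ _).symm
    have hXBsum : ∀ θ : ℝ, S XB θ = ∑ j ∈ XB.image idx, S (P j) θ := by
      intro θ
      unfold S
      rw [← Finset.sum_fiberwise_of_maps_to (s := XB) (t := XB.image idx) (g := idx) (fun x hx => mem_image_of_mem _ hx)]
      refine sum_congr rfl fun j hj => ?_
      refine sum_congr ?_ fun _ _ => rfl
      obtain ⟨x0, hx0, rfl⟩ := mem_image.1 hj
      rw [hXB, mem_filter] at hx0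
      ext x
      rw [hXB, hPdef]
      simp only [mem_filter]
      constructor
      · rintro ⟨⟨h3, _⟩, h4⟩
        exact ⟨h3, h4⟩
      · rintro ⟨h3, h4⟩
        refine ⟨⟨h3, ?_⟩, h4⟩
        rw [h4]
        have := hx0.2
        rw [hPdef] at this
        exact this
    have hXBcard : (∑ j ∈ XB.image idx, ((P j).card : ℝ)) ≤ X.card := by
      have h3 : ∑ j ∈ XB.image idx, (P j).card ≤ X.card := by
        have h4 : X.card = ∑ j ∈ X.image idx, (P j).card := by
          rw [hPdef]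
          exact Finset.card_eq_sum_card_image idx X
        rw [h4]
        refine Finset.sum_le_sum_of_subset ?_
        rw [hXB]
        exact image_subset_image (filter_subset _ _)
      exact_mod_cast h3
    have hSB : ∑ m ∈ M, ‖S XB ((a : ℝ) / m)‖ ≤ (X.card : ℝ) * M.card / (2 * L) := by
      calc ∑ m ∈ M, ‖S XB ((a : ℝ) / m)‖ ≤ ∑ m ∈ M, ∑ j ∈ XB.image idx, ‖S (P j) ((a : ℝ) / m)‖ := by
            refine sum_le_sum fun m _ => ?_
            rw [hXBsum]
            exact norm_sum_le _ _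
        _ = ∑ j ∈ XB.image idx, ∑ m ∈ M, ‖S (P j) ((a : ℝ) / m)‖ := Finset.sum_comm
        _ ≤ ∑ j ∈ XB.image idx, ((P j).card : ℝ) * M.card / (2 * L) := by
            refine sum_le_sum fun j hj => hbig j ?_
            obtain ⟨x0, hx0, rfl⟩ := mem_image.1 hj
            rw [hXB, mem_filter] at hx0
            exact hx0.2
        _ = (∑ j ∈ XB.image idx, ((P j).card : ℝ)) * (M.card / (2 * L)) := by
            rw [Finset.sum_mul]
            exact sum_congr rfl fun _ _ => by ring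
        _ ≤ X.card * (M.card / (2 * L)) := mul_le_mul_of_nonneg_right hXBcard (by positivity)
        _ = (X.card : ℝ) * M.card / (2 * L) := by ring
    have hSX : (X.card : ℝ) * M.card / L ≤ ∑ m ∈ M, ‖S X ((a : ℝ) / m)‖ := by
      have h3 : (M.card : ℕ) • ((X.card : ℝ) / L) ≤ ∑ m ∈ M, ‖S X ((a : ℝ) / m)‖ := by
        refine Finset.card_nsmul_le_sum _ _ _ fun m hm => ?_
        rw [div_le_iff₀ (by linarith)]
        have := hb m hm
        linarith
      rw [nsmul_eq_mul] at h3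
      calc (X.card : ℝ) * M.card / L = M.card * ((X.card : ℝ) / L) := by ring
        _ ≤ _ := h3
    have hSS : (X.card : ℝ) * M.card / (2 * L) ≤ ∑ m ∈ M, ‖S XS ((a : ℝ) / m)‖ := by
      have h3 : ∑ m ∈ M, ‖S X ((a : ℝ) / m)‖ ≤ ∑ m ∈ M, ‖S XB ((a : ℝ) / m)‖ + ∑ m ∈ M, ‖S XS ((a : ℝ) / m)‖ := by
        rw [← Finset.sum_add_distrib]
        refine sum_le_sum fun m _ => ?_
        rw [hsplit]
        exact norm_add_le _ _
      have e1 : (X.card : ℝ) * M.card / L = (X.card : ℝ) * M.card / (2 * L) + (X.card : ℝ) * M.card / (2 * L) := by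
        field_simp
        ring
      linarith
    obtain ⟨M2, hM2⟩ : ∃ M2 : Finset ℕ, M2 = M.filter fun m : ℕ => (X.card : ℝ) ≤ 4 * L * ‖S XS ((a : ℝ) / m)‖ := ⟨_, rfl⟩
    have hXSX : XS.card ≤ X.card := by rw [hXS]; exact card_le_card (filter_subset _ _)
    have hXSXr : (XS.card : ℝ) ≤ X.card := by exact_mod_cast hXSX
    have hM2c : (M.card : ℝ) ≤ 4 * L * M2.card := by
      have h3 : ∑ m ∈ M, ‖S XS ((a : ℝ) / m)‖ ≤ M2.card * (X.card : ℝ) + M.card * ((X.card : ℝ) / (4 * L)) := by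
        rw [← Finset.sum_filter_add_sum_filter_not M (fun m : ℕ => (X.card : ℝ) ≤ 4 * L * ‖S XS ((a : ℝ) / m)‖)]
        refine add_le_add ?_ ?_
        · rw [hM2, ← nsmul_eq_mul]
          exact Finset.sum_le_card_nsmul _ _ _ fun m _ => (S_norm_le _ _).trans hXSXr
        · have h4 : ∑ m ∈ M.filter (fun m : ℕ => ¬ (X.card : ℝ) ≤ 4 * L * ‖S XS ((a : ℝ) / m)‖), ‖S XS ((a : ℝ) / m)‖ ≤
              (M.filter (fun m : ℕ => ¬ (X.card : ℝ) ≤ 4 * L * ‖S XS ((a : ℝ) / m)‖)).card * ((X.card : ℝ) / (4 * L)) := by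
            rw [← nsmul_eq_mul]
            refine Finset.sum_le_card_nsmul _ _ _ fun m hm => ?_
            rw [mem_filter, not_le] at hm
            rw [le_div_iff₀ (by positivity)]
            linarith [hm.2]
          refine h4.trans (mul_le_mul_of_nonneg_right ?_ (by positivity))
          exact_mod_cast card_le_card (filter_subset _ _)
      have h5 : (X.card : ℝ) * M.card / (4 * L) ≤ M2.card * (X.card : ℝ) := by
        have e1 : (X.card : ℝ) * M.card / (2 * L) = (X.card : ℝ) * M.card / (4 * L) + M.card * ((X.card : ℝ) / (4 * L)) := by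
          field_simp
          ring
        linarith
      rw [div_le_iff₀ (by positivity)] at h5
      have h6 : (X.card : ℝ) * M.card ≤ X.card * (4 * L * M2.card) := by
        calc (X.card : ℝ) * M.card ≤ M2.card * (X.card : ℝ) * (4 * L) := h5
          _ = X.card * (4 * L * M2.card) := by ring
      exact le_of_mul_le_mul_left h6 hXr
    have hM2V : Q ≤ M2.card * V := by
      have h3 : M.card ≤ 4 * L * M2.card := by exact_mod_cast hM2c
      calc Q ≤ M.card * L := hMc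
        _ ≤ 4 * L * M2.card * L := Nat.mul_le_mul_right _ h3
        _ = M2.card * V := by rw [hV]; ring
    have hM2sub : M2 ⊆ M := by rw [hM2]; exact filter_subset _ _
    have hM2b : ∀ m ∈ M2, (X.card : ℝ) ≤ 4 * L * ‖S XS ((a : ℝ) / m)‖ := by
      intro m hm
      rw [hM2] at hm
      exact (mem_filter.1 hm).2
    obtain ⟨m0, hm0⟩ : M2.Nonempty := by
      rw [← card_pos]
      by_contra h3
      have h4 : M2.card = 0 := by omega
      rw [h4, zero_mul] at hM2V
      omega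
    have hXle : X.card ≤ 4 * L * XS.card := by
      have h3 : (X.card : ℝ) ≤ 4 * L * XS.card :=
        (hM2b m0 hm0).trans (mul_le_mul_of_nonneg_left (S_norm_le _ _) (by positivity))
      exact_mod_cast h3
    obtain ⟨y', hy'⟩ := h2 V Q a y hV1 ha (haL.trans hLV) hge M2 XS (fun m hm => hM m (hM2sub hm)) hM2V
      (fun m hm => by
        have h3 := hM2b m hm
        have h4 : (4 * L : ℝ) ≤ V := by exact_mod_cast h4LV
        exact hXSXr.trans (h3.trans (mul_le_mul_of_nonneg_right h4 (norm_nonneg _))))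
      (fun x hx => by
        rw [hXS] at hx
        exact hX x (mem_filter.1 hx).1)
    -- the window meets at most two pieces
    have hpiece : ∀ j, (XS.filter fun x => idx x = j).card ≤ B := by
      intro j
      rcases (XS.filter fun x => idx x = j).eq_empty_or_nonempty with h3 | ⟨x0, hx0⟩
      · rw [h3, card_empty]; exact Nat.zero_le _
      · obtain ⟨hx1, hx2⟩ := mem_filter.1 hx0
        have hx3 : ¬ B < (P (idx x0)).card := by
          rw [hXS] at hx1
          exact (mem_filter.1 hx1).2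
        rw [hx2] at hx3
        refine le_trans (card_le_card ?_) (not_lt.1 hx3)
        rw [hPdef, hXS]
        intro x hx
        obtain ⟨hx4, hx5⟩ := mem_filter.1 hx
        exact mem_filter.2 ⟨(mem_filter.1 hx4).1, hx5⟩
    have hwin : (XS.filter (fun x => y' ≤ x ∧ x < y' + Q ^ (J + 1))).card ≤ 2 * B := by
      have h3 : XS.filter (fun x => y' ≤ x ∧ x < y' + Q ^ (J + 1)) ⊆
          (XS.filter fun x => idx x = (y' - y) / R) ∪ (XS.filter fun x => idx x = (y' - y) / R + 1) := by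
        intro x hx
        obtain ⟨hx1, hx2, hx3⟩ := mem_filter.1 hx
        have hx4 : y ≤ x := by
          rw [hXS] at hx1
          exact (hX x (mem_filter.1 hx1).1).1
        rw [← hR] at hx3
        have h4 : (y' - y) / R ≤ (x - y) / R := Nat.div_le_div_right (by omega)
        have h5 : (x - y) / R ≤ (y' - y) / R + 1 := by
          have h6 : x - y ≤ (y' - y) + R := by omega
          calc (x - y) / R ≤ ((y' - y) + R) / R := Nat.div_le_div_right h6
            _ = (y' - y) / R + 1 := Nat.add_div_right _ hR1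
        rw [mem_union, mem_filter, mem_filter, hidx]
        have h7 : (x - y) / R = (y' - y) / R ∨ (x - y) / R = (y' - y) / R + 1 := by omega
        rcases h7 with h7 | h7
        · exact Or.inl ⟨hx1, h7⟩
        · exact Or.inr ⟨hx1, h7⟩
      refine (card_le_card h3).trans ((card_union_le _ _).trans ?_)
      have h4 := hpiece ((y' - y) / R)
      have h5 := hpiece ((y' - y) / R + 1)
      omega
    calc X.card ≤ 4 * L * XS.card := hXle
      _ ≤ V * XS.card := Nat.mul_le_mul_right _ h4LV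
      _ ≤ V * (C2 * V ^ e2 * (2 * B)) := Nat.mul_le_mul_left _ (hy'.trans (Nat.mul_le_mul_left _ hwin))
      _ = 2 * C1 * C2 ^ 1 * V ^ (e2 * 1 + e1 + 1) * Q := by
          rw [hB, pow_add, pow_add, mul_one]
          ring
      _ ≤ 8 * C1 * C2 ^ (J + 1) * V ^ (e2 * (J + 1) + e1 + 1) * Q := by
          gcongr
          all_goals omega

end Pool.Agent.H95.AT
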