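import Pool.Agent.H95.AT.Main2

/-!
# [H95 AT Main3] Large exponential sums at fractions with sparse denominators of one scale: the inverse theorem

A biased set has a proportion `1 / (C L ^ e)` of its elements in an interval of length `Q`.
-/

set_option autoImplicit false

open scoped Classical

namespace Pool.Agent.H95.AT

open Finset Pool.Agent.H24.AB Pool.Agent.H95.AS

theorem exists_window (X : Finset ℕ) (Q : ℕ) : ∃ y0 : ℕ, ∀ y' : ℕ,
    (X.filter (fun x => y' ≤ x ∧ x < y' + Q)).card ≤ (X.filter (fun x => y0 ≤ x ∧ x < y0 + Q)).card := by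
  by_contra hcon
  push Not at hcon
  have h1 : ∀ n : ℕ, ∃ y : ℕ, n ≤ (X.filter (fun x => y ≤ x ∧ x < y + Q)).card := by
    intro n
    induction n with
    | zero => exact ⟨0, Nat.zero_le _⟩
    | succ n ih =>
      obtain ⟨y, hy⟩ := ih
      obtain ⟨y', hy'⟩ := hcon y
      exact ⟨y', by omega⟩
  obtain ⟨y, hy⟩ := h1 (X.card + 1)
  have h2 := card_le_card (filter_subset (fun x => y ≤ x ∧ x < y + Q) X)
  omega

theorem bmain3 (J : ℕ) :
    ∃ C e : ℕ, 1 ≤ C ∧ ∀ L Q a y : ℕ, 1 ≤ L → 1 ≤ a → a ≤ L → 1 ≤ Q → ∀ (M X : Finset ℕ),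
      (∀ m ∈ M, Q < m ∧ m ≤ 2 * Q) → Q ≤ M.card * L →
      (∀ m ∈ M, (X.card : ℝ) ≤ L * ‖S X ((a : ℝ) / m)‖) →
      (∀ x ∈ X, y ≤ x ∧ x < y + Q ^ (J + 1)) →
      ∃ y' : ℕ, X.card ≤ C * L ^ e * (X.filter (fun x => y' ≤ x ∧ x < y' + Q)).card := by
  induction J with
  | zero =>
    refine ⟨1, 0, le_rfl, fun L Q a y _ _ _ _ M X _ _ _ hX => ⟨y, ?_⟩⟩
    have h1 : X.filter (fun x => y ≤ x ∧ x < y + Q) = X :=
      filter_true_of_mem fun x hx => by simpa using hX x hx
    rw [h1, pow_zero, one_mul, one_mul]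
  | succ J ih =>
    obtain ⟨C1, e1, hC1, h1⟩ := ih
    obtain ⟨C2, e2, hC2, h2⟩ := stage2 J
    refine ⟨8 * C1 * C2 ^ (J + 1) * 4 ^ (e2 * (J + 1) + e1 + 1), 2 * (e2 * (J + 1) + e1 + 1),
      Nat.one_le_iff_ne_zero.2 (by positivity), ?_⟩
    intro L Q a y hL ha haL hQ M X hM hMc hb hX
    obtain ⟨V, hV⟩ : ∃ V : ℕ, V = 4 * L ^ 2 := ⟨_, rfl⟩
    have hcon : 8 * C1 * C2 ^ (J + 1) * 4 ^ (e2 * (J + 1) + e1 + 1) * L ^ (2 * (e2 * (J + 1) + e1 + 1)) =
        8 * C1 * C2 ^ (J + 1) * V ^ (e2 * (J + 1) + e1 + 1) := by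
      rw [hV, mul_pow, pow_mul]
      ring
    rw [hcon]
    have hL2 : L ≤ L ^ 2 := by nlinarith
    have hLV : L ≤ V := by omega
    have h4LV : 4 * L ≤ V := by omega
    have hV1 : 1 ≤ V := by omega
    obtain ⟨y0, hy0⟩ := exists_window X Q
    obtain ⟨Gm, hGm⟩ : ∃ Gm : ℕ, Gm = (X.filter (fun x => y0 ≤ x ∧ x < y0 + Q)).card := ⟨_, rfl⟩
    have hGmax : ∀ y' : ℕ, (X.filter (fun x => y' ≤ x ∧ x < y' + Q)).card ≤ Gm := by
      rw [hGm]
      exact hy0
    refine ⟨y0, ?_⟩
    rw [← hGm]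
    rcases Nat.lt_or_ge Q (C2 * V ^ e2) with hlt | hge
    · have h3 : X.card ≤ Q ^ (J + 1) * Gm := by
        have hmaps : ∀ x ∈ X, (x - y) / Q ∈ range (Q ^ (J + 1)) := by
          intro x hx
          rw [mem_range, Nat.div_lt_iff_lt_mul hQ]
          have h4 := hX x hx
          have h5 : Q ^ (J + 1) * Q = Q ^ (J + 1 + 1) := (pow_succ _ _).symm
          omega
        rw [Finset.card_eq_sum_card_fiberwise hmaps]
        refine (Finset.sum_le_card_nsmul _ _ Gm fun i _ => ?_).trans ?_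
        · refine le_trans (card_le_card ?_) (hGmax (y + Q * i))
          intro x hx
          obtain ⟨hx1, hx2⟩ := mem_filter.1 hx
          have h4 := (hX x hx1).1
          have h5 := Nat.div_add_mod (x - y) Q
          have h6 := Nat.mod_lt (x - y) hQ
          rw [hx2] at h5
          exact mem_filter.2 ⟨hx1, by omega, by omega⟩
        · rw [card_range, smul_eq_mul]
      refine h3.trans ?_
      calc Q ^ (J + 1) * Gm ≤ (C2 * V ^ e2) ^ (J + 1) * Gm := Nat.mul_le_mul_right _ (Nat.pow_le_pow_left hlt.le _)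
        _ = 1 * 1 * C2 ^ (J + 1) * (V ^ (e2 * (J + 1)) * 1) * Gm := by rw [mul_pow, pow_mul]; ring
        _ ≤ 8 * C1 * C2 ^ (J + 1) * (V ^ (e2 * (J + 1)) * V ^ (e1 + 1)) * Gm := by
            have : 1 ≤ V ^ (e1 + 1) := Nat.one_le_pow _ _ hV1
            gcongr
            omega
        _ = 8 * C1 * C2 ^ (J + 1) * V ^ (e2 * (J + 1) + e1 + 1) * Gm := by
            rw [← pow_add]
            ring_nf
    -- the empty case
    rcases Nat.eq_zero_or_pos X.card with hX0 | hXpos
    · rw [hX0]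
      exact Nat.zero_le _
    have hXr : (0 : ℝ) < X.card := by exact_mod_cast hXpos
    have hLr : (1 : ℝ) ≤ L := by exact_mod_cast hL
    obtain ⟨R, hR⟩ : ∃ R : ℕ, R = Q ^ (J + 1) := ⟨_, rfl⟩
    have hR1 : 1 ≤ R := by rw [hR]; exact Nat.one_le_pow _ _ hQ
    obtain ⟨B, hB⟩ : ∃ B : ℕ, B = C1 * V ^ e1 * Gm := ⟨_, rfl⟩
    obtain ⟨idx, hidx⟩ : ∃ idx : ℕ → ℕ, idx = fun x => (x - y) / R := ⟨_, rfl⟩
    obtain ⟨P, hPdef⟩ : ∃ P : ℕ → Finset ℕ, P = fun j => X.filter fun x => idx x = j := ⟨_, rfl⟩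
    -- a piece
    have hPbd : ∀ j, ∀ x ∈ P j, y + R * j ≤ x ∧ x < y + R * j + Q ^ (J + 1) := by
      intro j x hx
      rw [hPdef] at hx
      obtain ⟨hx1, hx2⟩ := mem_filter.1 hx
      have h3 := (hX x hx1).1
      rw [hidx] at hx2
      have h4 := Nat.div_add_mod (x - y) R
      have h5 := Nat.mod_lt (x - y) hR1
      have hx3 : (x - y) / R = j := hx2
      rw [hx3] at h4
      rw [← hR]
      omega
    have hbig : ∀ j, B < (P j).card → ∑ m ∈ M, ‖S (P j) ((a : ℝ) / m)‖ ≤ ((P j).card : ℝ) * M.card / (2 * L) := by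
      intro j hj
      refine avg_le L Q V hL hV M (P j) (fun m => (a : ℝ) / m) hMc ?_
      by_contra hcon2
      rw [not_lt] at hcon2
      obtain ⟨y', h3⟩ := h1 V Q a (y + R * j) hV1 ha (haL.trans hLV) hQ
        (M.filter fun m => ((P j).card : ℝ) ≤ V * ‖S (P j) ((a : ℝ) / m)‖) (P j)
        (fun m hm => hM m (mem_filter.1 hm).1) hcon2 (fun m hm => (mem_filter.1 hm).2) (hPbd j)
      have h4 : ((P j).filter (fun x => y' ≤ x ∧ x < y' + Q)).card ≤ Gm := by
        refine le_trans (card_le_card ?_) (hGmax y')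
        rw [hPdef]
        intro x hx
        obtain ⟨hx1, hx2⟩ := mem_filter.1 hx
        exact mem_filter.2 ⟨(mem_filter.1 hx1).1, hx2⟩
      have h5 := h3.trans (Nat.mul_le_mul_left _ h4)
      rw [← hB] at h5
      omega
    obtain ⟨XB, hXB⟩ : ∃ XB : Finset ℕ, XB = X.filter fun x => B < (P (idx x)).card := ⟨_, rfl⟩
    obtain ⟨XS, hXS⟩ : ∃ XS : Finset ℕ, XS = X.filter fun x => ¬ B < (P (idx x)).card := ⟨_, rfl⟩
    have hsplit : ∀ θ : ℝ, S X θ = S XB θ + S XS θ := by
      intro θ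
      rw [hXB, hXS]
      unfold S
      exact (Finset.sum_filter_add_sum_filter_not _ _ _).symm
    have hXBsum : ∀ θ : ℝ, S XB θ = ∑ j ∈ XB.image idx, S (P j) θ := by
      intro θ
      unfold S
      rw [← Finset.sum_fiberwise_of_maps_to (s := XB) (t := XB.image idx) (g := idx) (fun x hx => mem_image_of_mem _ hx)]
      refine sum_congr rfl fun j hj => ?_
      refine sum_congr ?_ fun _ _ => rfl
      obtain ⟨x0, hx0, rfl⟩ := mem_image.1 hj
      rw [hXB, mem_filter] at hx0
      ext x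
      rw [hXB, hPdef]
      simp only [mem_filter]
      constructor
      · rintro ⟨⟨h3, _⟩, h4⟩
        exact ⟨h3, h4⟩
      · rintro ⟨h3, h4⟩
        refine ⟨⟨h3, ?_⟩, h4⟩
        rw [h4]
        have := hx0.2
        rw [hPdef] at this
        exact this
    have hXBcard : (∑ j ∈ XB.image idx, ((P j).card : ℝ)) ≤ X.card := by
      have h3 : ∑ j ∈ XB.image idx, (P j).card ≤ X.card := by
        have h4 : X.card = ∑ j ∈ X.image idx, (P j).card := by
          rw [hPdef]
          exact Finset.card_eq_sum_card_image idx X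
        rw [h4]
        refine Finset.sum_le_sum_of_subset ?_
        rw [hXB]
        exact image_subset_image (filter_subset _ _)
      exact_mod_cast h3
    have hSB : ∑ m ∈ M, ‖S XB ((a : ℝ) / m)‖ ≤ (X.card : ℝ) * M.card / (2 * L) := by
      calc ∑ m ∈ M, ‖S XB ((a : ℝ) / m)‖ ≤ ∑ m ∈ M, ∑ j ∈ XB.image idx, ‖S (P j) ((a : ℝ) / m)‖ := by
            refine sum_le_sum fun m _ => ?_
            rw [hXBsum]
            exact norm_sum_le _ _
        _ = ∑ j ∈ XB.image idx, ∑ m ∈ M, ‖S (P j) ((a : ℝ) / m)‖ := Finset.sum_comm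
        _ ≤ ∑ j ∈ XB.image idx, ((P j).card : ℝ) * M.card / (2 * L) := by
            refine sum_le_sum fun j hj => hbig j ?_
            obtain ⟨x0, hx0, rfl⟩ := mem_image.1 hj
            rw [hXB, mem_filter] at hx0
            exact hx0.2
        _ = (∑ j ∈ XB.image idx, ((P j).card : ℝ)) * (M.card / (2 * L)) := by
            rw [Finset.sum_mul]
            exact sum_congr rfl fun _ _ => by ring
        _ ≤ X.card * (M.card / (2 * L)) := mul_le_mul_of_nonneg_right hXBcard (by positivity)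
        _ = (X.card : ℝ) * M.card / (2 * L) := by ring
    have hSX : (X.card : ℝ) * M.card / L ≤ ∑ m ∈ M, ‖S X ((a : ℝ) / m)‖ := by
      have h3 : (M.card : ℕ) • ((X.card : ℝ) / L) ≤ ∑ m ∈ M, ‖S X ((a : ℝ) / m)‖ := by
        refine Finset.card_nsmul_le_sum _ _ _ fun m hm => ?_
        rw [div_le_iff₀ (by linarith)]
        have := hb m hm
        linarith
      rw [nsmul_eq_mul] at h3
      calc (X.card : ℝ) * M.card / L = M.card * ((X.card : ℝ) / L) := by ring
        _ ≤ _ := h3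
    have hSS : (X.card : ℝ) * M.card / (2 * L) ≤ ∑ m ∈ M, ‖S XS ((a : ℝ) / m)‖ := by
      have h3 : ∑ m ∈ M, ‖S X ((a : ℝ) / m)‖ ≤ ∑ m ∈ M, ‖S XB ((a : ℝ) / m)‖ + ∑ m ∈ M, ‖S XS ((a : ℝ) / m)‖ := by
        rw [← Finset.sum_add_distrib]
        refine sum_le_sum fun m _ => ?_
        rw [hsplit]
        exact norm_add_le _ _
      have e1 : (X.card : ℝ) * M.card / L = (X.card : ℝ) * M.card / (2 * L) + (X.card : ℝ) * M.card / (2 * L) := by
        field_simp
        ring
      linarith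
    obtain ⟨M2, hM2⟩ : ∃ M2 : Finset ℕ, M2 = M.filter fun m : ℕ => (X.card : ℝ) ≤ 4 * L * ‖S XS ((a : ℝ) / m)‖ := ⟨_, rfl⟩
    have hXSX : XS.card ≤ X.card := by rw [hXS]; exact card_le_card (filter_subset _ _)
    have hXSXr : (XS.card : ℝ) ≤ X.card := by exact_mod_cast hXSX
    have hM2c : (M.card : ℝ) ≤ 4 * L * M2.card := by
      have h3 : ∑ m ∈ M, ‖S XS ((a : ℝ) / m)‖ ≤ M2.card * (X.card : ℝ) + M.card * ((X.card : ℝ) / (4 * L)) := by
        rw [← Finset.sum_filter_add_sum_filter_not M (fun m : ℕ => (X.card : ℝ) ≤ 4 * L * ‖S XS ((a : ℝ) / m)‖)]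
        refine add_le_add ?_ ?_
        · rw [hM2, ← nsmul_eq_mul]
          exact Finset.sum_le_card_nsmul _ _ _ fun m _ => (S_norm_le _ _).trans hXSXr
        · have h4 : ∑ m ∈ M.filter (fun m : ℕ => ¬ (X.card : ℝ) ≤ 4 * L * ‖S XS ((a : ℝ) / m)‖), ‖S XS ((a : ℝ) / m)‖ ≤
              (M.filter (fun m : ℕ => ¬ (X.card : ℝ) ≤ 4 * L * ‖S XS ((a : ℝ) / m)‖)).card * ((X.card : ℝ) / (4 * L)) := by
            rw [← nsmul_eq_mul]
            refine Finset.sum_le_card_nsmul _ _ _ fun m hm => ?_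
            rw [mem_filter, not_le] at hm
            rw [le_div_iff₀ (by positivity)]
            linarith [hm.2]
          refine h4.trans (mul_le_mul_of_nonneg_right ?_ (by positivity))
          exact_mod_cast card_le_card (filter_subset _ _)
      have h5 : (X.card : ℝ) * M.card / (4 * L) ≤ M2.card * (X.card : ℝ) := by
        have e1 : (X.card : ℝ) * M.card / (2 * L) = (X.card : ℝ) * M.card / (4 * L) + M.card * ((X.card : ℝ) / (4 * L)) := by
          field_simp
          ring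
        linarith
      rw [div_le_iff₀ (by positivity)] at h5
      have h6 : (X.card : ℝ) * M.card ≤ X.card * (4 * L * M2.card) := by
        calc (X.card : ℝ) * M.card ≤ M2.card * (X.card : ℝ) * (4 * L) := h5
          _ = X.card * (4 * L * M2.card) := by ring
      exact le_of_mul_le_mul_left h6 hXr
    have hM2V : Q ≤ M2.card * V := by
      have h3 : M.card ≤ 4 * L * M2.card := by exact_mod_cast hM2c
      calc Q ≤ M.card * L := hMc
        _ ≤ 4 * L * M2.card * L := Nat.mul_le_mul_right _ h3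
        _ = M2.card * V := by rw [hV]; ring
    have hM2sub : M2 ⊆ M := by rw [hM2]; exact filter_subset _ _
    have hM2b : ∀ m ∈ M2, (X.card : ℝ) ≤ 4 * L * ‖S XS ((a : ℝ) / m)‖ := by
      intro m hm
      rw [hM2] at hm
      exact (mem_filter.1 hm).2
    obtain ⟨m0, hm0⟩ : M2.Nonempty := by
      rw [← card_pos]
      by_contra h3
      have h4 : M2.card = 0 := by omega
      rw [h4, zero_mul] at hM2V
      omega
    have hXle : X.card ≤ 4 * L * XS.card := by
      have h3 : (X.card : ℝ) ≤ 4 * L * XS.card :=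
        (hM2b m0 hm0).trans (mul_le_mul_of_nonneg_left (S_norm_le _ _) (by positivity))
      exact_mod_cast h3
    obtain ⟨y', hy'⟩ := h2 V Q a y hV1 ha (haL.trans hLV) hge M2 XS (fun m hm => hM m (hM2sub hm)) hM2V
      (fun m hm => by
        have h3 := hM2b m hm
        have h4 : (4 * L : ℝ) ≤ V := by exact_mod_cast h4LV
        exact hXSXr.trans (h3.trans (mul_le_mul_of_nonneg_right h4 (norm_nonneg _))))
      (fun x hx => by
        rw [hXS] at hx
        exact hX x (mem_filter.1 hx).1)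
    -- the window meets at most two pieces
    have hpiece : ∀ j, (XS.filter fun x => idx x = j).card ≤ B := by
      intro j
      rcases (XS.filter fun x => idx x = j).eq_empty_or_nonempty with h3 | ⟨x0, hx0⟩
      · rw [h3, card_empty]; exact Nat.zero_le _
      · obtain ⟨hx1, hx2⟩ := mem_filter.1 hx0
        have hx3 : ¬ B < (P (idx x0)).card := by
          rw [hXS] at hx1
          exact (mem_filter.1 hx1).2
        rw [hx2] at hx3
        refine le_trans (card_le_card ?_) (not_lt.1 hx3)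
        rw [hPdef, hXS]
        intro x hx
        obtain ⟨hx4, hx5⟩ := mem_filter.1 hx
        exact mem_filter.2 ⟨(mem_filter.1 hx4).1, hx5⟩
    have hwin : (XS.filter (fun x => y' ≤ x ∧ x < y' + Q ^ (J + 1))).card ≤ 2 * B := by
      have h3 : XS.filter (fun x => y' ≤ x ∧ x < y' + Q ^ (J + 1)) ⊆
          (XS.filter fun x => idx x = (y' - y) / R) ∪ (XS.filter fun x => idx x = (y' - y) / R + 1) := by
        intro x hx
        obtain ⟨hx1, hx2, hx3⟩ := mem_filter.1 hx
        have hx4 : y ≤ x := by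
          rw [hXS] at hx1
          exact (hX x (mem_filter.1 hx1).1).1
        rw [← hR] at hx3
        have h4 : (y' - y) / R ≤ (x - y) / R := Nat.div_le_div_right (by omega)
        have h5 : (x - y) / R ≤ (y' - y) / R + 1 := by
          have h6 : x - y ≤ (y' - y) + R := by omega
          calc (x - y) / R ≤ ((y' - y) + R) / R := Nat.div_le_div_right h6
            _ = (y' - y) / R + 1 := Nat.add_div_right _ hR1
        rw [mem_union, mem_filter, mem_filter, hidx]
        have h7 : (x - y) / R = (y' - y) / R ∨ (x - y) / R = (y' - y) / R + 1 := by omega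
        rcases h7 with h7 | h7
        · exact Or.inl ⟨hx1, h7⟩
        · exact Or.inr ⟨hx1, h7⟩
      refine (card_le_card h3).trans ((card_union_le _ _).trans ?_)
      have h4 := hpiece ((y' - y) / R)
      have h5 := hpiece ((y' - y) / R + 1)
      omega
    calc X.card ≤ 4 * L * XS.card := hXle
      _ ≤ V * XS.card := Nat.mul_le_mul_right _ h4LV
      _ ≤ V * (C2 * V ^ e2 * (2 * B)) := Nat.mul_le_mul_left _ (hy'.trans (Nat.mul_le_mul_left _ hwin))
      _ = 2 * C1 * C2 ^ 1 * V ^ (e2 * 1 + e1 + 1) * Gm := by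
          rw [hB, pow_add, pow_add, mul_one]
          ring
      _ ≤ 8 * C1 * C2 ^ (J + 1) * V ^ (e2 * (J + 1) + e1 + 1) * Gm := by
          gcongr
          all_goals omega

end Pool.Agent.H95.AT
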