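import Pool.Agent.H95.AS.Step

/-!
# [H95 AT Step2] One differencing step, polynomial dependence on the bias

This is `Pool.Agent.H95.AS.step` with `c = 1/L`, `D = L` and the constant made explicit: with `T = 2 L² + 3` (so `2/c² < T`) the constant of
`step` is a polynomial in `T`, at most `C₀ L⁴`; then `k ≤ C₀ L⁵`, `Q ≤ M'.card * C₀ L⁷` and `2 L² ≤ C₀ L⁷`. Any `C`, `e` are welcome.
-/

set_option autoImplicit false

namespace Pool.Agent.H95.AT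

open Finset Pool.Agent.H24.AB Pool.Agent.H95.AS

theorem step2 : ∃ C e : ℕ, 1 ≤ C ∧ 1 ≤ e ∧ ∀ L Q : ℕ, 1 ≤ L → C * L ^ e ≤ Q → ∀ (M X : Finset ℕ) (g : ℕ → ℝ),
    (∀ m ∈ M, Q < m ∧ m ≤ 2 * Q) → Q ≤ M.card * L →
    (∀ m ∈ M, (X.card : ℝ) ≤ L * ‖S X (g m)‖) →
    ∃ k : ℕ, 1 ≤ k ∧ k ≤ C * L ^ e ∧ ∃ M' ⊆ M, Q ≤ M'.card * (C * L ^ e) ∧
      ∀ m ∈ M', (X.card : ℝ) ≤ ((C * L ^ e : ℕ) : ℝ) * ‖S X (g m - g (m + k))‖ := by
  refine ⟨2048, 7, by norm_num, by norm_num, ?_⟩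
  intro L Q hL hLQ M X g hM hMc hbias
  have hL0 : (0 : ℝ) < L := by exact_mod_cast hL
  have hL2 : 1 ≤ L ^ 2 := Nat.one_le_pow _ _ hL
  have h16 : (2 * L ^ 2 + 2) ^ 2 ≤ 16 * L ^ 4 := by
    calc (2 * L ^ 2 + 2) ^ 2 ≤ (2 * L ^ 2 + 2 * L ^ 2) ^ 2 := by gcongr; omega
      _ = 16 * L ^ 4 := by ring
  have h128 : 128 * (2 * L ^ 2 + 2) ^ 2 ≤ 2048 * L ^ 4 := by omega
  have hpow : ∀ j : ℕ, j ≤ 3 → 128 * (2 * L ^ 2 + 2) ^ 2 * L ^ j ≤ 2048 * L ^ 7 := by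
    intro j hj
    calc 128 * (2 * L ^ 2 + 2) ^ 2 * L ^ j ≤ 2048 * L ^ 4 * L ^ 3 :=
          Nat.mul_le_mul h128 (Nat.pow_le_pow_right hL hj)
      _ = 2048 * L ^ 7 := by ring
  have hone : 128 * (2 * L ^ 2 + 2) ^ 2 * L ≤ 2048 * L ^ 7 := by
    have := hpow 1 (by norm_num)
    rwa [pow_one] at this
  have hT : 2 / (1 / (L : ℝ)) ^ 2 + 2 ≤ ((2 * L ^ 2 + 2 : ℕ) : ℝ) := by
    push_cast
    have : 2 / (1 / (L : ℝ)) ^ 2 = 2 * (L : ℝ) ^ 2 := by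
      field_simp
    rw [this]
  obtain ⟨k, hk1, hk2, M', hM', hc, hb⟩ := step_explicit (1 / (L : ℝ)) (by positivity)
    (2 * L ^ 2 + 2) hT L Q hL (hone.trans hLQ) M X g hM hMc (by
      intro m hm
      have h1 := hbias m hm
      rw [one_div, inv_mul_le_iff₀ hL0]
      exact h1)
  refine ⟨k, hk1, hk2.trans hone, M', hM', ?_, ?_⟩
  · exact hc.trans (Nat.mul_le_mul_left _ (hpow 3 le_rfl))
  · intro m hm
    have h1 := hb m hm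
    have h2 : (X.card : ℝ) ≤ 2 * (L : ℝ) ^ 2 * ‖S X (g m - g (m + k))‖ := by
      have h3 : (1 / (L : ℝ)) ^ 2 / 2 * X.card = (X.card : ℝ) / (2 * (L : ℝ) ^ 2) := by
        field_simp
      rw [h3, div_le_iff₀ (by positivity)] at h1
      linarith
    refine h2.trans (mul_le_mul_of_nonneg_right ?_ (norm_nonneg _))
    have h4 : 2 * L ^ 2 ≤ 2048 * L ^ 7 := by
      calc 2 * L ^ 2 ≤ 2048 * L ^ 2 := Nat.mul_le_mul_right _ (by norm_num)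
        _ ≤ 2048 * L ^ 7 := Nat.mul_le_mul_left _ (Nat.pow_le_pow_right hL (by norm_num))
    exact_mod_cast h4

end Pool.Agent.H95.AT
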