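import Pool.Agent.H95.AT.Bias2

/-!
# [H95 AT UB] An uneven progression with difference `r/s` modulo `m` gives a large exponential sum over a residue class modulo `r`

Proof. Let `r'` be an inverse of `r` modulo `m`, `z x = r' s x`. As `s d ≡ r`, `r' s d ≡ 1`, and `r' s` is invertible mod `m`:
`x ≡ u + i d [ZMOD m] ↔ z x ≡ r' s u + i [ZMOD m]`. `bias2` gives `1 ≤ a ≤ n = C L^e` with `|X| ≤ n ‖∑_{x∈X} ee (a r' s x/m)‖`. Write `x = b + r t`,
`b = x % r`, `t = x / r`: `a r' s x/m = a r' s b/m + a s t (r' r)/m` and `r' r = 1 + m q`, so the term is `ee(a r' s b/m) ee(a s t/m)`; hence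
`‖∑_{x∈X}‖ ≤ ∑_{b<r} ‖S (Zs r b X) (a s/m)‖`, and some `b` has `|X| ≤ n r ‖S (Zs r b X) (a s/m)‖`. `A = a s`.
-/

set_option autoImplicit false

open scoped Classical

namespace Pool.Agent.H95.AT

open Finset Pool.Agent.H24.AB Pool.Agent.H95.AS

/-- the elements `t` with `b + r t ∈ X` (for `b < r`) -/
def Zs (r b : ℕ) (X : Finset ℕ) : Finset ℕ := (X.filter fun x => x % r = b).image fun x => x / r

/-- multiplication by an inverse of the difference -/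
private theorem ub_iff {m : ℕ} {K d : ℤ} (hK : K * d ≡ 1 [ZMOD m]) (u x : ℤ) (i : ℕ) :
    x ≡ u + i * d [ZMOD m] ↔ K * x ≡ K * u + i [ZMOD m] := by
  rw [← ZMod.intCast_eq_intCast_iff] at hK ⊢
  rw [← ZMod.intCast_eq_intCast_iff]
  push_cast at hK ⊢
  constructor
  · intro h
    rw [h]
    linear_combination (i : ZMod m) * hK
  · intro h
    linear_combination (d : ZMod m) * h - ((x : ZMod m) - u) * hK

/-- the exponential of an integer multiple -/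
private theorem ub_term {m r : ℕ} (hm : 1 ≤ m) (r' q : ℤ) (hq : (r : ℤ) * r' - 1 = m * q)
    (a s x b t : ℕ) (hx : b + r * t = x) :
    ee ((a : ℝ) * ((r' * s * x : ℤ) : ℝ) / m) =
      ee ((a : ℝ) * ((r' * s * b : ℤ) : ℝ) / m) *
        ee ((t : ℝ) * (((a * s : ℕ) : ℝ) / m)) := by
  have hm0 : (m : ℝ) ≠ 0 := by
    have : (0 : ℝ) < m := by exact_mod_cast hm
    exact this.ne'
  have hqR : (r : ℝ) * r' - 1 = m * q := by exact_mod_cast hq
  have hsum : (a : ℝ) * ((r' * s * x : ℤ) : ℝ) / m =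
      (a : ℝ) * ((r' * s * b : ℤ) : ℝ) / m +
        (t : ℝ) * (((a * s : ℕ) : ℝ) / m) + (((a * s * t) * q : ℤ) : ℝ) := by
    have e1 : (r : ℝ) * r' = 1 + m * q := by linarith
    subst hx
    push_cast
    field_simp
    linear_combination (a : ℝ) * s * (t : ℝ) * e1
  rw [hsum, ee_add, ee_int, mul_one, ee_add]

/-- one residue class -/
private theorem ub_class {m r : ℕ} (hm : 1 ≤ m) (r' q : ℤ) (hq : (r : ℤ) * r' - 1 = m * q)
    (a s b : ℕ) (X : Finset ℕ) :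
    ‖∑ x ∈ X.filter (fun x => x % r = b), ee ((a : ℝ) * ((r' * s * x : ℤ) : ℝ) / m)‖ =
      ‖S (Zs r b X) (((a * s : ℕ) : ℝ) / m)‖ := by
  have h1 : ∑ x ∈ X.filter (fun x => x % r = b), ee ((a : ℝ) * ((r' * s * x : ℤ) : ℝ) / m) =
      ee ((a : ℝ) * ((r' * s * b : ℤ) : ℝ) / m) * S (Zs r b X) (((a * s : ℕ) : ℝ) / m) := by
    unfold S Zs
    rw [Finset.sum_image, Finset.mul_sum]
    · refine Finset.sum_congr rfl fun x hx => ?_
      have hb : x % r = b := (Finset.mem_filter.1 hx).2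
      rw [ub_term hm r' q hq a s x b (x / r) (by rw [← hb]; exact Nat.mod_add_div x r)]
    · intro x hx y hy hxy
      have hx' : x % r = b := (Finset.mem_filter.1 (Finset.mem_coe.1 hx)).2
      have hy' : y % r = b := (Finset.mem_filter.1 (Finset.mem_coe.1 hy)).2
      have hxy' : x / r = y / r := hxy
      rw [← Nat.mod_add_div x r, ← Nat.mod_add_div y r, hx', hy', hxy']
  rw [h1, norm_mul, ee_norm, one_mul]

theorem uneven_bias : ∃ C e : ℕ, 1 ≤ C ∧ ∀ (L m r s w : ℕ) (d u : ℤ) (X : Finset ℕ), 1 ≤ L → 1 ≤ m →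
    1 ≤ r → r ≤ L → 1 ≤ s → s ≤ L → r.Coprime m → s.Coprime m → (s : ℤ) * d ≡ r [ZMOD m] → w ≤ m →
    (X.card : ℝ) ≤ L * |((X.filter fun x : ℕ => ∃ i : ℕ, i < w ∧ (x : ℤ) ≡ u + i * d [ZMOD m]).card : ℝ) - (w : ℝ) / m * X.card| →
    ∃ b A : ℕ, b < r ∧ 1 ≤ A ∧ A ≤ C * L ^ e ∧
      (X.card : ℝ) ≤ ((C * L ^ e : ℕ) : ℝ) * ‖S (Zs r b X) ((A : ℝ) / m)‖ := by
  obtain ⟨C, e, hC, hb2⟩ := bias2
  refine ⟨C, e + 1, hC, ?_⟩
  intro L m r s w d u X hL hm hr hrL hs hsL hrm hsm hsd hw hX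
  obtain ⟨r', hr'⟩ := Int.mod_coprime hrm
  obtain ⟨q, hq⟩ := hr'.symm.dvd
  have hK : (r' * s) * d ≡ 1 [ZMOD m] := by
    have h1 : r' * ((s : ℤ) * d) ≡ r' * r [ZMOD m] := hsd.mul_left r'
    have h2 : r' * (r : ℤ) ≡ 1 [ZMOD m] := by
      rw [mul_comm]
      exact hr'
    rw [mul_assoc]
    exact h1.trans h2
  have hfil : (X.filter fun x : ℕ => ∃ i : ℕ, i < w ∧ (x : ℤ) ≡ u + i * d [ZMOD m]) =
      X.filter fun x : ℕ => ∃ i : ℕ, i < w ∧ (r' * s * (x : ℤ)) ≡ (r' * s * u) + i [ZMOD m] := by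
    refine Finset.filter_congr fun x _ => ?_
    constructor
    · rintro ⟨i, hi, h⟩
      exact ⟨i, hi, (ub_iff hK u x i).1 h⟩
    · rintro ⟨i, hi, h⟩
      exact ⟨i, hi, (ub_iff hK u x i).2 h⟩
  rw [hfil] at hX
  obtain ⟨a, ha1, ha2, ha3⟩ := hb2 L m w (r' * s * u) X (fun x => r' * s * x) hL hm hw hX
  have hsplit : ‖∑ x ∈ X, ee ((a : ℝ) * ((r' * s * x : ℤ) : ℝ) / m)‖ ≤
      ∑ b ∈ range r, ‖S (Zs r b X) (((a * s : ℕ) : ℝ) / m)‖ := by
    rw [← Finset.sum_fiberwise_of_maps_to (s := X) (t := range r) (g := fun x => x % r)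
      (fun x _ => Finset.mem_range.2 (Nat.mod_lt x hr))]
    refine (norm_sum_le _ _).trans (le_of_eq ?_)
    exact Finset.sum_congr rfl fun b _ => ub_class hm r' q hq a s b X
  obtain ⟨b, hb, hbmax⟩ := Finset.exists_max_image (range r)
    (fun b => ‖S (Zs r b X) (((a * s : ℕ) : ℝ) / m)‖) ⟨0, Finset.mem_range.2 hr⟩
  have hsum : ∑ b ∈ range r, ‖S (Zs r b X) (((a * s : ℕ) : ℝ) / m)‖ ≤
      r * ‖S (Zs r b X) (((a * s : ℕ) : ℝ) / m)‖ := by
    refine (Finset.sum_le_card_nsmul _ _ _ fun b' hb' => hbmax b' hb').trans (le_of_eq ?_)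
    rw [Finset.card_range, nsmul_eq_mul]
  refine ⟨b, a * s, Finset.mem_range.1 hb, Nat.mul_pos ha1 hs, ?_, ?_⟩
  · calc a * s ≤ (C * L ^ e) * L := Nat.mul_le_mul ha2 hsL
      _ = C * L ^ (e + 1) := by ring
  · have hN : (0 : ℝ) ≤ ‖S (Zs r b X) (((a * s : ℕ) : ℝ) / m)‖ := norm_nonneg _
    have hCL : (0 : ℝ) ≤ ((C * L ^ e : ℕ) : ℝ) := Nat.cast_nonneg _
    have hrL' : (r : ℝ) ≤ L := by exact_mod_cast hrL
    calc (X.card : ℝ) ≤ ((C * L ^ e : ℕ) : ℝ) *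
          ‖∑ x ∈ X, ee ((a : ℝ) * ((r' * s * x : ℤ) : ℝ) / m)‖ := ha3
      _ ≤ ((C * L ^ e : ℕ) : ℝ) * (r * ‖S (Zs r b X) (((a * s : ℕ) : ℝ) / m)‖) :=
        mul_le_mul_of_nonneg_left (hsplit.trans hsum) hCL
      _ ≤ ((C * L ^ e : ℕ) : ℝ) * (L * ‖S (Zs r b X) (((a * s : ℕ) : ℝ) / m)‖) :=
        mul_le_mul_of_nonneg_left (mul_le_mul_of_nonneg_right hrL' hN) hCL
      _ = ((C * L ^ (e + 1) : ℕ) : ℝ) * ‖S (Zs r b X) (((a * s : ℕ) : ℝ) / m)‖ := by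
        push_cast
        ring

end Pool.Agent.H95.AT
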